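import Mathlib

/-! Helper lemmas on projective dimension `≤ 0` and `≤ 1`. -/

namespace Pool.Agent.V114.PdHelper

open CategoryTheory

universe u

variable {R : Type u} [Ring R]

lemma pd_le_zero_iff (M : Type u) [AddCommGroup M] [Module R M] :
    projectiveDimension (ModuleCat.of R M) ≤ ((0 : ℕ) : WithBot ℕ∞) ↔ Module.Projective R M := by
  rw [projectiveDimension_le_iff, ← projective_iff_hasProjectiveDimensionLE_zero,
    ← IsProjective.iff_projective]

lemma pd_le_succ_iff {P M : Type u} [AddCommGroup P] [Module R P] [AddCommGroup M] [Module R M]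
    [Module.Projective R P] (f : P →ₗ[R] M) (hf : Function.Surjective f) (n : ℕ) :
    projectiveDimension (ModuleCat.of R M) ≤ ((n + 1 : ℕ) : WithBot ℕ∞) ↔
      projectiveDimension (ModuleCat.of R (LinearMap.ker f)) ≤ ((n : ℕ) : WithBot ℕ∞) := by
  have hS := LinearMap.shortExact_shortComplexKer hf
  have hP : Projective (ModuleCat.of R P) := (IsProjective.iff_projective P).1 inferInstance
  rw [projectiveDimension_le_iff, projectiveDimension_le_iff]
  exact hS.hasProjectiveDimensionLT_X₃_iff n hP

lemma pd_le_one_iff {P M : Type u} [AddCommGroup P] [Module R P] [AddCommGroup M] [Module R M]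
    [Module.Projective R P] (f : P →ₗ[R] M) (hf : Function.Surjective f) :
    projectiveDimension (ModuleCat.of R M) ≤ ((1 : ℕ) : WithBot ℕ∞) ↔
      Module.Projective R (LinearMap.ker f) := by
  rw [pd_le_succ_iff f hf 0, pd_le_zero_iff]

end Pool.Agent.V114.PdHelper
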