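import Mathlib

/-!
Free group algebras: left and right independence of `b x - 1` for a free basis `b`,
and generation of the augmentation ideal.
-/

namespace Pool.Agent.V114.FoxFree

open MonoidAlgebra

variable {K : Type*} [Field K] {G : Type*} [Group G] {X : Type*} [DecidableEq X]

/-- the unit upper triangular matrix attached to a generator (left version) -/
noncomputable def TL (K : Type*) [Field K] (b : FreeGroupBasis X G) (x0 x : X) :
    (Matrix (Fin 2) (Fin 2) (MonoidAlgebra K G))ˣ where
  val := !![of K G (b x), if x = x0 then 1 else 0; 0, 1]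
  inv := !![of K G (b x)⁻¹, if x = x0 then - of K G (b x)⁻¹ else 0; 0, 1]
  val_inv := by
    have h1 : (of K G (b x)) * (of K G (b x)⁻¹) = 1 := by
      rw [← map_mul, mul_inv_cancel, map_one]
    by_cases h : x = x0
    · rw [if_pos h, if_pos h, Matrix.mul_fin_two, Matrix.one_fin_two]
      simp [← one_def]
    · rw [if_neg h, if_neg h, Matrix.mul_fin_two, Matrix.one_fin_two]
      simp [← one_def]
  inv_val := by
    by_cases h : x = x0
    · rw [if_pos h, if_pos h, Matrix.mul_fin_two, Matrix.one_fin_two]
      simp [← one_def]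
    · rw [if_neg h, if_neg h, Matrix.mul_fin_two, Matrix.one_fin_two]
      simp [← one_def]

/-- the unit upper triangular matrix attached to a generator (right version) -/
noncomputable def TR (K : Type*) [Field K] (b : FreeGroupBasis X G) (x0 x : X) :
    (Matrix (Fin 2) (Fin 2) (MonoidAlgebra K G))ˣ where
  val := !![1, if x = x0 then 1 else 0; 0, of K G (b x)]
  inv := !![1, if x = x0 then - of K G (b x)⁻¹ else 0; 0, of K G (b x)⁻¹]
  val_inv := by
    by_cases h : x = x0
    · rw [if_pos h, if_pos h, Matrix.mul_fin_two, Matrix.one_fin_two]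
      simp [← one_def]
    · rw [if_neg h, if_neg h, Matrix.mul_fin_two, Matrix.one_fin_two]
      simp [← one_def]
  inv_val := by
    by_cases h : x = x0
    · rw [if_pos h, if_pos h, Matrix.mul_fin_two, Matrix.one_fin_two]
      simp [← one_def]
    · rw [if_neg h, if_neg h, Matrix.mul_fin_two, Matrix.one_fin_two]
      simp [← one_def]

/-- the representation (left version) -/
noncomputable def rhoL (K : Type*) [Field K] (b : FreeGroupBasis X G) (x0 : X) :
    MonoidAlgebra K G →ₐ[K] Matrix (Fin 2) (Fin 2) (MonoidAlgebra K G) :=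
  MonoidAlgebra.lift K (Matrix (Fin 2) (Fin 2) (MonoidAlgebra K G)) G
    ((Units.coeHom _).comp (b.lift (TL K b x0)))

/-- the representation (right version) -/
noncomputable def rhoR (K : Type*) [Field K] (b : FreeGroupBasis X G) (x0 : X) :
    MonoidAlgebra K G →ₐ[K] Matrix (Fin 2) (Fin 2) (MonoidAlgebra K G) :=
  MonoidAlgebra.lift K (Matrix (Fin 2) (Fin 2) (MonoidAlgebra K G)) G
    ((Units.coeHom _).comp (b.lift (TR K b x0)))

lemma basis_induction (b : FreeGroupBasis X G) {P : G → Prop} (g : G) (h1 : P 1)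
    (hof : ∀ x, P (b x)) (hinv : ∀ x, P (b x) → P (b x)⁻¹)
    (hmul : ∀ g h, P g → P h → P (g * h)) : P g := by
  have key : ∀ w : FreeGroup X, P (b.repr.symm w) := by
    intro w
    induction w using FreeGroup.induction_on with
    | C1 => simpa using h1
    | of x => exact hof x
    | inv_of x hx =>
      rw [map_inv]
      exact hinv x hx
    | mul u v hu hv =>
      rw [map_mul]
      exact hmul _ _ hu hv
  have := key (b.repr g)
  simpa using this

lemma rhoL_of_b (b : FreeGroupBasis X G) (x0 x : X) :
    rhoL K b x0 (of K G (b x)) = !![of K G (b x), if x = x0 then 1 else 0; 0, 1] := by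
  have : rhoL K b x0 (of K G (b x)) = ((TL K b x0 x : _) : Matrix _ _ _) := by
    simp [rhoL]
  rw [this]; rfl

lemma rhoR_of_b (b : FreeGroupBasis X G) (x0 x : X) :
    rhoR K b x0 (of K G (b x)) = !![1, if x = x0 then 1 else 0; 0, of K G (b x)] := by
  have : rhoR K b x0 (of K G (b x)) = ((TR K b x0 x : _) : Matrix _ _ _) := by
    simp [rhoR]
  rw [this]; rfl

lemma rhoL_of_inv (b : FreeGroupBasis X G) (x0 x : X) :
    rhoL K b x0 (of K G (b x)⁻¹) =
      !![of K G (b x)⁻¹, if x = x0 then - of K G (b x)⁻¹ else 0; 0, 1] := by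
  have : rhoL K b x0 (of K G (b x)⁻¹) = (((TL K b x0 x)⁻¹ : _) : Matrix _ _ _) := by
    simp [rhoL]
  rw [this]; rfl

lemma rhoR_of_inv (b : FreeGroupBasis X G) (x0 x : X) :
    rhoR K b x0 (of K G (b x)⁻¹) =
      !![1, if x = x0 then - of K G (b x)⁻¹ else 0; 0, of K G (b x)⁻¹] := by
  have : rhoR K b x0 (of K G (b x)⁻¹) = (((TR K b x0 x)⁻¹ : _) : Matrix _ _ _) := by
    simp [rhoR]
  rw [this]; rfl

lemma rhoL_of (b : FreeGroupBasis X G) (x0 : X) (g : G) :
    rhoL K b x0 (of K G g) 0 0 = of K G g ∧ rhoL K b x0 (of K G g) 1 0 = 0 := by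
  refine basis_induction b (P := fun g => rhoL K b x0 (of K G g) 0 0 = of K G g ∧
    rhoL K b x0 (of K G g) 1 0 = 0) g ?_ ?_ ?_ ?_
  · rw [map_one, map_one]; simp
  · intro x; rw [rhoL_of_b]; simp
  · intro x _; rw [rhoL_of_inv]; simp
  · intro g h hg hh
    rw [map_mul, map_mul, Matrix.mul_apply, Matrix.mul_apply, Fin.sum_univ_two, Fin.sum_univ_two,
      hg.1, hg.2, hh.1, hh.2]
    simp

lemma rhoR_of (b : FreeGroupBasis X G) (x0 : X) (g : G) :
    rhoR K b x0 (of K G g) 1 1 = of K G g ∧ rhoR K b x0 (of K G g) 1 0 = 0 := by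
  refine basis_induction b (P := fun g => rhoR K b x0 (of K G g) 1 1 = of K G g ∧
    rhoR K b x0 (of K G g) 1 0 = 0) g ?_ ?_ ?_ ?_
  · rw [map_one, map_one]; simp
  · intro x; rw [rhoR_of_b]; simp
  · intro x _; rw [rhoR_of_inv]; simp
  · intro g h hg hh
    rw [map_mul, map_mul, Matrix.mul_apply, Matrix.mul_apply, Fin.sum_univ_two, Fin.sum_univ_two,
      hg.1, hg.2, hh.1, hh.2]
    simp

lemma rhoL_apply (b : FreeGroupBasis X G) (x0 : X) (p : MonoidAlgebra K G) :
    rhoL K b x0 p 0 0 = p := by
  induction p using MonoidAlgebra.induction_on with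
  | of g => exact (rhoL_of b x0 g).1
  | add x y hx hy => rw [map_add, Matrix.add_apply, hx, hy]
  | smul r x hx => rw [map_smul, Matrix.smul_apply, hx]

lemma rhoR_apply (b : FreeGroupBasis X G) (x0 : X) (p : MonoidAlgebra K G) :
    rhoR K b x0 p 1 1 = p := by
  induction p using MonoidAlgebra.induction_on with
  | of g => exact (rhoR_of b x0 g).1
  | add x y hx hy => rw [map_add, Matrix.add_apply, hx, hy]
  | smul r x hx => rw [map_smul, Matrix.smul_apply, hx]

/-- The elements `b x - 1` are left independent. -/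
theorem left_indep [Fintype X] (b : FreeGroupBasis X G) (p : X → MonoidAlgebra K G)
    (h : ∑ x, p x * (of K G (b x) - 1) = 0) (x0 : X) : p x0 = 0 := by
  have h2 := congrArg (fun q => rhoL K b x0 q 0 1) h
  simp only [map_sum, map_zero, Matrix.zero_apply, Matrix.sum_apply, map_mul, map_sub, map_one,
    rhoL_of_b] at h2
  have h3 : ∀ x, (rhoL K b x0 (p x) * (!![of K G (b x), if x = x0 then 1 else 0; 0, 1] - 1)) 0 1
      = if x = x0 then p x else 0 := by
    intro x
    rw [Matrix.mul_apply, Fin.sum_univ_two, rhoL_apply]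
    split_ifs <;> simp
  rw [Finset.sum_congr rfl (fun x _ => h3 x)] at h2
  simpa using h2

/-- The elements `b x - 1` are right independent. -/
theorem right_indep [Fintype X] (b : FreeGroupBasis X G) (p : X → MonoidAlgebra K G)
    (h : ∑ x, (of K G (b x) - 1) * p x = 0) (x0 : X) : p x0 = 0 := by
  have h2 := congrArg (fun q => rhoR K b x0 q 0 1) h
  simp only [map_sum, map_zero, Matrix.zero_apply, Matrix.sum_apply, map_mul, map_sub, map_one,
    rhoR_of_b] at h2
  have h3 : ∀ x, ((!![1, if x = x0 then 1 else 0; 0, of K G (b x)] - 1) * rhoR K b x0 (p x)) 0 1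
      = if x = x0 then p x else 0 := by
    intro x
    rw [Matrix.mul_apply, Fin.sum_univ_two, rhoR_apply]
    split_ifs <;> simp
  rw [Finset.sum_congr rfl (fun x _ => h3 x)] at h2
  simpa using h2

/-- augmentation map -/
noncomputable def aug (K : Type*) [Field K] (G : Type*) [Group G] : MonoidAlgebra K G →ₐ[K] K :=
  MonoidAlgebra.lift K K G 1

@[simp] lemma aug_of (g : G) : aug K G (of K G g) = 1 := by
  simp [aug]

lemma aug_single (g : G) (r : K) : aug K G (single g r) = r := by
  simp [aug]

/-- Every element of augmentation zero is a combination `∑ (b x - 1) * c x`. -/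
theorem exists_of_aug_eq_zero [Fintype X] (b : FreeGroupBasis X G) (a : MonoidAlgebra K G)
    (h : aug K G a = 0) : ∃ c : X → MonoidAlgebra K G, a = ∑ x, (of K G (b x) - 1) * c x := by
  classical
  let S : AddSubgroup (MonoidAlgebra K G) :=
    { carrier := {a | ∃ c : X → MonoidAlgebra K G, a = ∑ x, (of K G (b x) - 1) * c x}
      zero_mem' := ⟨0, by simp⟩
      add_mem' := by
        rintro u v ⟨c, rfl⟩ ⟨d, rfl⟩
        exact ⟨c + d, by simp [mul_add, Finset.sum_add_distrib]⟩
      neg_mem' := by
        rintro u ⟨c, rfl⟩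
        exact ⟨-c, by simp⟩ }
  have hSmul : ∀ u ∈ S, ∀ v, u * v ∈ S := by
    rintro u ⟨c, rfl⟩ v
    exact ⟨fun x => c x * v, by simp [Finset.sum_mul, mul_assoc]⟩
  have hg : ∀ g : G, of K G g - 1 ∈ S := by
    intro g
    refine basis_induction b (P := fun g => of K G g - 1 ∈ S) g ?_ ?_ ?_ ?_
    · simp only [map_one, sub_self]; exact S.zero_mem
    · intro x
      refine ⟨fun y => if y = x then 1 else 0, ?_⟩
      simp
    · intro x hx
      have : of K G (b x)⁻¹ - 1 = - ((of K G (b x) - 1) * of K G (b x)⁻¹) := by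
        rw [sub_mul, ← map_mul, mul_inv_cancel, map_one]
        simp
      rw [this]
      exact S.neg_mem (hSmul _ hx _)
    · intro g h hg hh
      have : of K G (g * h) - 1 = (of K G g - 1) * of K G h + (of K G h - 1) := by
        rw [map_mul, sub_mul, one_mul]; abel
      rw [this]
      exact S.add_mem (hSmul _ hg _) hh
  have hsingle : ∀ (g : G) (r : K), single g r - single 1 r ∈ S := by
    intro g r
    have : (single g r - single 1 r : MonoidAlgebra K G) = (of K G g - 1) * single 1 r := by
      rw [sub_mul, one_mul]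
      simp
    rw [this]
    exact hSmul _ (hg g) _
  have hall : ∀ a : MonoidAlgebra K G, a - single 1 (aug K G a) ∈ S := by
    intro a
    induction a using MonoidAlgebra.induction_linear with
    | zero => simpa using S.zero_mem
    | add u v hu hv =>
      have := S.add_mem hu hv
      rw [map_add, single_add]
      convert this using 1
      abel
    | single g r =>
      rw [aug_single]
      exact hsingle g r
  have := hall a
  rw [h, single_zero, sub_zero] at this
  exact this

end Pool.Agent.V114.FoxFree
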