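import Mathlib

/-!
# Squarefree coefficients of products of multivariate power series
-/

namespace Pool.Agent.V114.Sqf

open Finset

variable {σ : Type*} [DecidableEq σ] {L : Type*} [CommRing L]

/-- exponent of the squarefree monomial attached to a finite set -/
noncomputable def ind (S : Finset σ) : σ →₀ ℕ := ∑ i ∈ S, Finsupp.single i 1

theorem ind_apply (S : Finset σ) (i : σ) : ind S i = if i ∈ S then 1 else 0 := by
  unfold ind
  rw [Finsupp.finsetSum_apply]
  simp [Finsupp.single_apply]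

theorem ind_inj {S T : Finset σ} : ind S = ind T ↔ S = T := by
  constructor
  · intro h
    ext i
    have := DFunLike.congr_fun h i
    rw [ind_apply, ind_apply] at this
    by_cases h1 : i ∈ S <;> by_cases h2 : i ∈ T <;> simp_all
  · rintro rfl; rfl

@[simp] theorem ind_empty : ind (∅ : Finset σ) = 0 := by simp [ind]

theorem ind_eq_zero {S : Finset σ} : ind S = 0 ↔ S = ∅ := by
  rw [← ind_empty, ind_inj]

theorem ind_add {S T : Finset σ} (h : T ⊆ S) : ind T + ind (S \ T) = ind S := by
  ext i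
  rw [Finsupp.add_apply, ind_apply, ind_apply, ind_apply]
  by_cases h1 : i ∈ T
  · have := h h1; simp [h1, this]
  · by_cases h2 : i ∈ S <;> simp [h1, h2]

theorem of_add_eq {S : Finset σ} {μ ν : σ →₀ ℕ} (h : μ + ν = ind S) :
    μ.support ⊆ S ∧ μ = ind μ.support ∧ ν = ind (S \ μ.support) := by
  have hp : ∀ i, μ i + ν i = if i ∈ S then 1 else 0 := by
    intro i
    rw [← ind_apply, ← h]; rfl
  refine ⟨?_, ?_, ?_⟩
  · intro i hi
    have := hp i
    rw [Finsupp.mem_support_iff] at hi
    by_contra hc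
    rw [if_neg hc] at this
    omega
  · ext i
    rw [ind_apply]
    have := hp i
    by_cases hi : i ∈ μ.support
    · rw [if_pos hi]
      rw [Finsupp.mem_support_iff] at hi
      split_ifs at this <;> omega
    · rw [if_neg hi]
      simpa using hi
  · ext i
    rw [ind_apply]
    have := hp i
    by_cases hi : i ∈ μ.support
    · have hi' := hi
      rw [Finsupp.mem_support_iff] at hi'
      rw [if_neg (by simp [hi'])]
      split_ifs at this <;> omega
    · have hi' : μ i = 0 := by simpa using hi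
      rw [hi', zero_add] at this
      rw [this]
      by_cases h1 : i ∈ S
      · rw [if_pos h1, if_pos (by simp [h1, hi'])]
      · rw [if_neg h1, if_neg (by simp [h1])]

/-- the coefficient of a squarefree monomial -/
noncomputable def kap (S : Finset σ) (f : MvPowerSeries σ L) : L := MvPowerSeries.coeff (ind S) f

theorem kap_mul (S : Finset σ) (f g : MvPowerSeries σ L) :
    kap S (f * g) = ∑ T ∈ S.powerset, kap T f * kap (S \ T) g := by
  unfold kap
  rw [MvPowerSeries.coeff_mul]
  refine Finset.sum_bij' (fun p _ => p.1.support) (fun T _ => (ind T, ind (S \ T))) ?_ ?_ ?_ ?_ ?_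
  · intro p hp
    rw [Finset.HasAntidiagonal.mem_antidiagonal] at hp
    exact Finset.mem_powerset.2 (of_add_eq hp).1
  · intro T hT
    rw [Finset.HasAntidiagonal.mem_antidiagonal]
    exact ind_add (Finset.mem_powerset.1 hT)
  · intro p hp
    rw [Finset.HasAntidiagonal.mem_antidiagonal] at hp
    have := of_add_eq hp
    exact Prod.ext this.2.1.symm this.2.2.symm
  · intro T hT
    ext i
    rw [Finsupp.mem_support_iff, ind_apply]
    simp
  · intro p hp
    rw [Finset.HasAntidiagonal.mem_antidiagonal] at hp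
    have := of_add_eq hp
    rw [← this.2.1, ← this.2.2]

theorem kap_one (S : Finset σ) : kap S (1 : MvPowerSeries σ L) = if S = ∅ then 1 else 0 := by
  unfold kap
  rw [MvPowerSeries.coeff_one]
  by_cases h : S = ∅
  · rw [if_pos h, if_pos (ind_eq_zero.2 h)]
  · rw [if_neg h, if_neg (fun hh => h (ind_eq_zero.1 hh))]

/-- `f` has squarefree part `1 - c x^T` -/
def Sim (T : Finset σ) (c : L) (f : MvPowerSeries σ L) : Prop :=
  ∀ R, kap R f = (if R = ∅ then 1 else 0) - (if R = T then c else 0)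

theorem Sim.kap_mul {T : Finset σ} {c : L} {f : MvPowerSeries σ L} (hf : Sim T c f)
    (R : Finset σ) (g : MvPowerSeries σ L) :
    kap R (f * g) = kap R g - if T ⊆ R then c * kap (R \ T) g else 0 := by
  rw [Sqf.kap_mul]
  have h1 : ∀ R' ∈ R.powerset, kap R' f * kap (R \ R') g =
      (if R' = ∅ then kap R g else 0) - (if R' = T then c * kap (R \ T) g else 0) := by
    intro R' _
    rw [hf R', sub_mul]
    congr 1
    · split_ifs with h
      · subst h; simp
      · simp
    · split_ifs with h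
      · subst h; rfl
      · simp
  rw [Finset.sum_congr rfl h1, Finset.sum_sub_distrib, Finset.sum_ite_eq', Finset.sum_ite_eq']
  simp

theorem Sim.one (T : Finset σ) : Sim T (0 : L) 1 := by
  intro R; rw [kap_one]; simp

theorem Sim.mul {T : Finset σ} (hT : T ≠ ∅) {c c' : L} {f g : MvPowerSeries σ L}
    (hf : Sim T c f) (hg : Sim T c' g) : Sim T (c + c') (f * g) := by
  intro R
  rw [hf.kap_mul, hg R]
  by_cases h : T ⊆ R
  · rw [if_pos h, hg]
    by_cases h2 : R = T
    · subst h2
      simp [hT, Ne.symm hT]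
      ring
    · have h3 : R \ T ≠ ∅ := by
        intro hh
        exact h2 (Finset.Subset.antisymm (Finset.sdiff_eq_empty_iff_subset.1 hh) h)
      have h4 : R \ T ≠ T := by
        intro hh
        obtain ⟨i, hi⟩ := Finset.nonempty_iff_ne_empty.2 hT
        have : i ∈ R \ T := by rw [hh]; exact hi
        exact (Finset.mem_sdiff.1 this).2 hi
      rw [if_neg h3, if_neg h4, if_neg h2, if_neg h2]
      simp
  · have h2 : R ≠ T := by rintro rfl; exact h (Finset.Subset.refl _)
    rw [if_neg h, if_neg h2, if_neg h2]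
    simp

theorem Sim.pow {T : Finset σ} (hT : T ≠ ∅) {c : L} {f : MvPowerSeries σ L}
    (hf : Sim T c f) (n : ℕ) : Sim T (n * c) (f ^ n) := by
  induction n with
  | zero => simpa using Sim.one T
  | succ n ih =>
    rw [pow_succ]
    have := Sim.mul hT ih hf
    have h2 : ((n + 1 : ℕ) : L) * c = n * c + c := by push_cast; ring
    rw [h2]; exact this

theorem Sim.list_prod {T : Finset σ} (hT : T ≠ ∅) {ι : Type*} (l : List ι) (c : ι → L)
    (f : ι → MvPowerSeries σ L) (hf : ∀ i ∈ l, Sim T (c i) (f i)) :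
    Sim T (l.map c).sum (l.map f).prod := by
  induction l with
  | nil => simpa using Sim.one T
  | cons i l ih =>
    rw [List.map_cons, List.map_cons, List.sum_cons, List.prod_cons]
    exact Sim.mul hT (hf i (by simp)) (ih fun j hj => hf j (by simp [hj]))

theorem Sim.fac {T : Finset σ} (e : L) :
    Sim T e (1 - MvPowerSeries.monomial (ind T) e : MvPowerSeries σ L) := by
  intro R
  have h : kap R (1 - MvPowerSeries.monomial (ind T) e : MvPowerSeries σ L) =
      kap R 1 - kap R (MvPowerSeries.monomial (ind T) e) := by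
    unfold kap; rw [map_sub]
  rw [h, kap_one]
  congr 1
  unfold kap
  rw [MvPowerSeries.coeff_monomial]
  by_cases h : R = T
  · rw [if_pos h, if_pos (ind_inj.2 h)]
  · rw [if_neg h, if_neg (fun hh => h (ind_inj.1 hh))]

section Prod

variable (F : Finset σ → MvPowerSeries σ L) (c : Finset σ → L)

theorem prod_avoid (hF : ∀ T, T ≠ ∅ → Sim T (c T) (F T)) {s : σ} (𝒯 : Finset (Finset σ))
    (h0 : ∅ ∉ 𝒯) (hs : ∀ T ∈ 𝒯, s ∉ T) {R : Finset σ} (hR : s ∈ R) :
    kap R (∏ T ∈ 𝒯, F T) = 0 := by
  induction 𝒯 using Finset.induction_on generalizing R with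
  | empty =>
    rw [Finset.prod_empty, kap_one, if_neg]
    rintro rfl; simp at hR
  | insert T 𝒯 hT ih =>
    rw [Finset.prod_insert hT]
    have hT0 : T ≠ ∅ := by rintro rfl; exact h0 (Finset.mem_insert_self _ _)
    rw [(hF T hT0).kap_mul]
    have ih' : ∀ {R : Finset σ}, s ∈ R → kap R (∏ T ∈ 𝒯, F T) = 0 := fun hR =>
      ih (fun h => h0 (Finset.mem_insert_of_mem h)) (fun T h => hs T (Finset.mem_insert_of_mem h)) hR
    rw [ih' hR]
    split_ifs with h
    · rw [ih' (Finset.mem_sdiff.2 ⟨hR, hs T (Finset.mem_insert_self _ _)⟩)]; simp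
    · simp

theorem prod_drop (hF : ∀ T, T ≠ ∅ → Sim T (c T) (F T)) (𝒰 : Finset (Finset σ))
    {R : Finset σ} (h0 : ∀ T ∈ 𝒰, T ≠ ∅ ∧ ¬ T ⊆ R) (g : MvPowerSeries σ L) :
    kap R ((∏ T ∈ 𝒰, F T) * g) = kap R g := by
  induction 𝒰 using Finset.induction_on with
  | empty => simp
  | insert T 𝒰 hT ih =>
    have hT0 := h0 T (Finset.mem_insert_self _ _)
    rw [Finset.prod_insert hT, mul_assoc, (hF T hT0.1).kap_mul, if_neg hT0.2, sub_zero]
    exact ih fun T' h => h0 T' (Finset.mem_insert_of_mem h)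

theorem prod_restrict (hF : ∀ T, T ≠ ∅ → Sim T (c T) (F T)) (𝒯 : Finset (Finset σ))
    (h0 : ∅ ∉ 𝒯) (R : Finset σ) :
    kap R (∏ T ∈ 𝒯, F T) = kap R (∏ T ∈ 𝒯 with T ⊆ R, F T) := by
  rw [← Finset.prod_filter_not_mul_prod_filter 𝒯 (fun T => T ⊆ R) F]
  apply prod_drop F c hF
  intro T hT
  rw [Finset.mem_filter] at hT
  exact ⟨by rintro rfl; exact h0 hT.1, hT.2⟩

theorem prod_star (hF : ∀ T, T ≠ ∅ → Sim T (c T) (F T)) {s : σ} (𝒯 : Finset (Finset σ))
    (hs : ∀ T ∈ 𝒯, s ∈ T) (g : MvPowerSeries σ L) (hg : ∀ R, s ∈ R → kap R g = 0)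
    {R : Finset σ} (hR : s ∈ R) :
    kap R ((∏ T ∈ 𝒯, F T) * g) = - ∑ T ∈ 𝒯 with T ⊆ R, c T * kap (R \ T) g := by
  induction 𝒯 using Finset.induction_on with
  | empty => simp [hg R hR]
  | insert T 𝒯 hT ih =>
    have hsT := hs T (Finset.mem_insert_self _ _)
    have hT0 : T ≠ ∅ := by rintro rfl; simp at hsT
    have hs' : ∀ T' ∈ 𝒯, s ∈ T' := fun T' h => hs T' (Finset.mem_insert_of_mem h)
    rw [Finset.prod_insert hT, mul_assoc, (hF T hT0).kap_mul, Finset.filter_insert, ih hs']
    split_ifs with h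
    · rw [Finset.sum_insert (by simp [hT])]
      have : kap (R \ T) ((∏ T ∈ 𝒯, F T) * g) = kap (R \ T) g := by
        apply prod_drop F c hF
        intro T' hT'
        refine ⟨by rintro rfl; simpa using hs' _ hT', ?_⟩
        intro hh
        exact (Finset.mem_sdiff.1 (hh (hs' T' hT'))).2 hsT
      rw [this]
      ring
    · ring

/-- the squarefree coefficients of the full product -/
noncomputable def Psi (S : Finset σ) : L := kap S (∏ T ∈ S.powerset.erase ∅, F T)

theorem Psi_empty : Psi F ∅ = 1 := by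
  unfold Psi
  simp [kap_one]

theorem Psi_rec (hF : ∀ T, T ≠ ∅ → Sim T (c T) (F T)) (S : Finset σ) {s : σ} (hs : s ∈ S) :
    Psi F S = - ∑ T ∈ S.powerset with s ∈ T, c T * Psi F (S \ T) := by
  unfold Psi
  have h0 : ∅ ∉ S.powerset.erase ∅ := by simp
  rw [← Finset.prod_filter_mul_prod_filter_not (S.powerset.erase ∅) (fun T => s ∈ T) F]
  rw [prod_star F c hF (s := s) _ (fun T hT => (Finset.mem_filter.1 hT).2) _ ?_ hs]
  · congr 1
    have hset : {T ∈ {T ∈ S.powerset.erase ∅ | s ∈ T} | T ⊆ S} = {T ∈ S.powerset | s ∈ T} := by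
      ext T
      simp only [Finset.mem_filter, Finset.mem_erase, Finset.mem_powerset]
      constructor
      · rintro ⟨⟨⟨_, h1⟩, h2⟩, _⟩; exact ⟨h1, h2⟩
      · rintro ⟨h1, h2⟩
        exact ⟨⟨⟨by rintro rfl; simp at h2, h1⟩, h2⟩, h1⟩
    rw [hset]
    apply Finset.sum_congr rfl
    intro T hT
    rw [Finset.mem_filter, Finset.mem_powerset] at hT
    congr 1
    rw [prod_restrict F c hF _ (by simp)]
    congr 1
    apply Finset.prod_congr _ (fun _ _ => rfl)
    ext T'
    simp only [Finset.mem_filter, Finset.mem_erase, Finset.mem_powerset]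
    constructor
    · rintro ⟨⟨⟨h1, _⟩, _⟩, h3⟩; exact ⟨h1, h3⟩
    · rintro ⟨h1, h3⟩
      refine ⟨⟨⟨h1, h3.trans Finset.sdiff_subset⟩, ?_⟩, h3⟩
      intro hh
      exact (Finset.mem_sdiff.1 (h3 hh)).2 hT.2
  · intro R hR
    apply prod_avoid F c hF _ (by simp) _ hR
    intro T hT
    exact (Finset.mem_filter.1 hT).2

end Prod

end Pool.Agent.V114.Sqf
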