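import Mathlib
import Pool.Agent.V114.Sqf

/-!
# The universal sequences attached to the multilinear part of the Euler characteristic equations
-/

namespace Pool.Agent.V114.CharCore

open Finset

/-- universal sequences `(A n, B n, p n, q n)` -/
noncomputable def U (c d : ℕ → ℤ) (n : ℕ) : ℤ × ℤ × (ℕ → ℤ) × (ℕ → ℤ) :=
  if n = 0 then (0, 0, c, d) else
  let rp : ℕ → ℤ := fun j => ∑ k : Fin (n - 1), ((n - 1).choose k : ℤ) *
    ((U c d (k + 1)).1 * (U c d (n - 1 - k)).2.2.1 (j + 1) +
      (U c d (k + 1)).2.1 * (U c d (n - 1 - k)).2.2.1 j)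
  let rq : ℕ → ℤ := fun j => ∑ k : Fin (n - 1), ((n - 1).choose k : ℤ) *
    ((U c d (k + 1)).1 * (U c d (n - 1 - k)).2.2.2 (j + 1) +
      (U c d (k + 1)).2.1 * (U c d (n - 1 - k)).2.2.2 j)
  let A := (if n = 1 then 1 else 0) - rq 0
  let B := - rp 0
  (A, B, fun j => -(A * c (j + 1) + B * c j) - rp j, fun j => -(A * d (j + 1) + B * d j) - rq j)
termination_by n
decreasing_by all_goals omega

/-- names -/
noncomputable def An (c d : ℕ → ℤ) (n : ℕ) : ℤ := (U c d n).1
noncomputable def Bn (c d : ℕ → ℤ) (n : ℕ) : ℤ := (U c d n).2.1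
noncomputable def pn (c d : ℕ → ℤ) (n : ℕ) : ℕ → ℤ := (U c d n).2.2.1
noncomputable def qn (c d : ℕ → ℤ) (n : ℕ) : ℕ → ℤ := (U c d n).2.2.2

variable (c d : ℕ → ℤ)

theorem pn_zero : pn c d 0 = c := by
  unfold pn; rw [U]; simp

theorem qn_zero : qn c d 0 = d := by
  unfold qn; rw [U]; simp

/-- the part of the recursion that only involves smaller indices -/
noncomputable def rp (n j : ℕ) : ℤ := ∑ k ∈ range n, (n.choose k : ℤ) *
    (An c d (k + 1) * pn c d (n - k) (j + 1) + Bn c d (k + 1) * pn c d (n - k) j)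
noncomputable def rq (n j : ℕ) : ℤ := ∑ k ∈ range n, (n.choose k : ℤ) *
    (An c d (k + 1) * qn c d (n - k) (j + 1) + Bn c d (k + 1) * qn c d (n - k) j)

theorem An_succ (n : ℕ) : An c d (n + 1) = (if n = 0 then 1 else 0) - rq c d n 0 := by
  unfold An rq
  conv_lhs => rw [U]
  simp [Finset.sum_range, An, Bn, qn]

theorem Bn_succ (n : ℕ) : Bn c d (n + 1) = - rp c d n 0 := by
  unfold Bn rp
  conv_lhs => rw [U]
  simp [Finset.sum_range, An, Bn, pn]

theorem pn_succ (n j : ℕ) : pn c d (n + 1) j =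
    -(An c d (n + 1) * c (j + 1) + Bn c d (n + 1) * c j) - rp c d n j := by
  rw [An_succ, Bn_succ]
  unfold pn rp rq
  conv_lhs => rw [U]
  simp [Finset.sum_range, An, Bn, pn, qn]

theorem qn_succ (n j : ℕ) : qn c d (n + 1) j =
    -(An c d (n + 1) * d (j + 1) + Bn c d (n + 1) * d j) - rq c d n j := by
  rw [An_succ, Bn_succ]
  unfold qn rp rq
  conv_lhs => rw [U]
  simp [Finset.sum_range, An, Bn, pn, qn]

section Core

variable {σ : Type*} [DecidableEq σ] {L : Type*} [CommRing L]

/-- the structure extracted from the equations -/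
theorem core (y : L) (m0 m1 : L →+ ℤ) (hc0 : m0 1 = 1) (hc1 : m0 y = 0) (hd0 : m1 1 = 0)
    (hd1 : m1 y = 1) (a b : Finset σ → ℤ) (Ψ : Finset σ → L) (h0 : Ψ ∅ = 1)
    (hrec : ∀ S : Finset σ, ∀ s ∈ S, Ψ S =
      - ∑ T ∈ S.powerset with s ∈ T, (((a T : ℤ) : L) * y + ((b T : ℤ) : L)) * Ψ (S \ T))
    (he0 : ∀ S, S ≠ ∅ → m0 (Ψ S) = 0)
    (he1 : ∀ S, S ≠ ∅ → m1 (Ψ S) = if S.card = 1 then -1 else 0) (n : ℕ) :
    ∀ S : Finset σ, S.card = n →
      (n ≠ 0 → a S = An (fun j => m0 (y ^ j)) (fun j => m1 (y ^ j)) n) ∧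
      (n ≠ 0 → b S = Bn (fun j => m0 (y ^ j)) (fun j => m1 (y ^ j)) n) ∧
      (∀ j, m0 (y ^ j * Ψ S) = pn (fun j => m0 (y ^ j)) (fun j => m1 (y ^ j)) n j) ∧
      (∀ j, m1 (y ^ j * Ψ S) = qn (fun j => m0 (y ^ j)) (fun j => m1 (y ^ j)) n j) := by
  set c : ℕ → ℤ := fun j => m0 (y ^ j) with hc
  set d : ℕ → ℤ := fun j => m1 (y ^ j) with hd
  induction n using Nat.strong_induction_on with
  | _ n ih =>
  intro S hS
  rcases Nat.eq_zero_or_pos n with hn | hn
  · subst hn
    have : S = ∅ := Finset.card_eq_zero.1 hS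
    subst this
    refine ⟨fun h => absurd rfl h, fun h => absurd rfl h, ?_, ?_⟩
    · intro j; rw [h0, mul_one, pn_zero]
    · intro j; rw [h0, mul_one, qn_zero]
  obtain ⟨m, rfl⟩ : ∃ m, n = m + 1 := ⟨n - 1, by omega⟩
  obtain ⟨s, hs⟩ : S.Nonempty := by rw [← Finset.card_pos]; omega
  have hSne : S ≠ ∅ := by rintro rfl; simp at hs
  -- evaluation of a functional on the recursion
  have eval : ∀ (μ : L →+ ℤ) (w : ℕ → ℕ → ℤ), (∀ j, w 0 j = μ (y ^ j)) →
      (∀ k, k < m + 1 → ∀ R : Finset σ, R.card = k → ∀ j, μ (y ^ j * Ψ R) = w k j) →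
      ∀ j, μ (y ^ j * Ψ S) = -(a S * w 0 (j + 1) + b S * w 0 j) -
        ∑ k ∈ range m, (m.choose k : ℤ) *
          (An c d (k + 1) * w (m - k) (j + 1) + Bn c d (k + 1) * w (m - k) j) := by
    intro μ w hw0 hw j
    rw [hrec S s hs]
    have e1 : y ^ j * - ∑ T ∈ S.powerset with s ∈ T,
        (((a T : ℤ) : L) * y + ((b T : ℤ) : L)) * Ψ (S \ T) =
        - ∑ T ∈ S.powerset with s ∈ T, (a T • (y ^ (j + 1) * Ψ (S \ T)) +
          b T • (y ^ j * Ψ (S \ T))) := by
      rw [mul_neg, Finset.mul_sum]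
      congr 1
      apply Finset.sum_congr rfl
      intro T _
      rw [zsmul_eq_mul, zsmul_eq_mul]
      ring
    rw [e1, map_neg, map_sum]
    obtain ⟨hh, hhd⟩ : ∃ hh : ℕ → ℤ, ∀ k, hh k =
        (if k = m + 1 then a S else An c d k) * w (m + 1 - k) (j + 1) +
          (if k = m + 1 then b S else Bn c d k) * w (m + 1 - k) j := ⟨_, fun _ => rfl⟩
    have e2 : ∀ T ∈ (S.powerset.filter fun T => s ∈ T),
        μ (a T • (y ^ (j + 1) * Ψ (S \ T)) + b T • (y ^ j * Ψ (S \ T))) = hh T.card := by
      intro T hT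
      rw [hhd]
      rw [Finset.mem_filter, Finset.mem_powerset] at hT
      have hcard : (S \ T).card = m + 1 - T.card := by
        rw [Finset.card_sdiff_of_subset hT.1, hS]
      have hTpos : 0 < T.card := Finset.card_pos.2 ⟨s, hT.2⟩
      have hTle : T.card ≤ m + 1 := hS ▸ Finset.card_le_card hT.1
      rw [map_add, map_zsmul, map_zsmul, smul_eq_mul, smul_eq_mul,
        hw (m + 1 - T.card) (by omega) _ hcard, hw (m + 1 - T.card) (by omega) _ hcard]
      by_cases hTS : T.card = m + 1
      · have : T = S := Finset.eq_of_subset_of_card_le hT.1 (by omega)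
        subst this
        rw [if_pos hS, if_pos hS]
      · have ht := ih T.card (by omega) T rfl
        simp only [hTS, if_false]
        rw [ht.1 (by omega), ht.2.1 (by omega)]
    rw [Finset.sum_congr rfl e2]
    -- counting
    have count : ∀ h : ℕ → ℤ, ∑ T ∈ S.powerset with s ∈ T, h T.card =
        ∑ k ∈ range (m + 1), (m.choose k : ℤ) * h (k + 1) := by
      intro h
      have hcard : (S.erase s).card = m := by rw [Finset.card_erase_of_mem hs, hS]; omega
      have e3 := Finset.sum_powerset_apply_card (fun k => h (k + 1)) (x := S.erase s)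
      rw [hcard] at e3
      have e4 : ∑ T ∈ S.powerset with s ∈ T, h T.card =
          ∑ T ∈ (S.erase s).powerset, h (T.card + 1) := by
        symm
        refine Finset.sum_bij' (fun T _ => insert s T) (fun T _ => T.erase s) ?_ ?_ ?_ ?_ ?_
        · intro T hT
          rw [Finset.mem_powerset] at hT
          rw [Finset.mem_filter, Finset.mem_powerset]
          exact ⟨Finset.insert_subset hs (hT.trans (Finset.erase_subset _ _)),
            Finset.mem_insert_self _ _⟩
        · intro T hT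
          rw [Finset.mem_filter, Finset.mem_powerset] at hT
          rw [Finset.mem_powerset]
          exact Finset.erase_subset_erase _ hT.1
        · intro T hT
          rw [Finset.mem_powerset] at hT
          exact Finset.erase_insert (fun h => (Finset.notMem_erase s S) (hT h))
        · intro T hT
          rw [Finset.mem_filter] at hT
          exact Finset.insert_erase hT.2
        · intro T hT
          rw [Finset.mem_powerset] at hT
          rw [Finset.card_insert_of_notMem (fun h => (Finset.notMem_erase s S) (hT h))]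
      rw [e4, e3]
      apply Finset.sum_congr rfl
      intro k _
      simp
    rw [count hh, Finset.sum_range_succ]
    have e5 : ∀ k ∈ range m, (m.choose k : ℤ) * hh (k + 1) =
        (m.choose k : ℤ) *
          (An c d (k + 1) * w (m - k) (j + 1) + Bn c d (k + 1) * w (m - k) j) := by
      intro k hk
      rw [Finset.mem_range] at hk
      rw [hhd, if_neg (by omega), if_neg (by omega), show m + 1 - (k + 1) = m - k by omega]
    rw [Finset.sum_congr rfl e5, hhd]
    simp
    ring
  have ep := eval m0 (fun k j => pn c d k j) (fun j => by rw [pn_zero])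
    (fun k hk R hR => (ih k hk R hR).2.2.1)
  have eq := eval m1 (fun k j => qn c d k j) (fun j => by rw [qn_zero])
    (fun k hk R hR => (ih k hk R hR).2.2.2)
  have hA : a S = An c d (m + 1) := by
    have := eq 0
    rw [pow_zero, one_mul, he1 S hSne, hS, qn_zero] at this
    rw [An_succ]
    unfold rq
    simp only [hd, zero_add, pow_one, hd1, pow_zero, hd0, mul_one, mul_zero, add_zero,
      Nat.add_eq_right] at this ⊢
    split_ifs at this ⊢ <;> linarith
  have hB : b S = Bn c d (m + 1) := by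
    have := ep 0
    rw [pow_zero, one_mul, he0 S hSne, pn_zero] at this
    rw [Bn_succ]
    unfold rp
    simp only [hc, zero_add, pow_one, hc1, pow_zero, hc0, mul_one, mul_zero] at this ⊢
    linarith
  refine ⟨fun _ => hA, fun _ => hB, ?_, ?_⟩
  · intro j
    rw [ep j, pn_succ, pn_zero, ← hA, ← hB]
    rfl
  · intro j
    rw [eq j, qn_succ, qn_zero, ← hA, ← hB]
    rfl

end Core

end Pool.Agent.V114.CharCore
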