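import Mathlib
import Pool.Agent.V114.CharCore

/-!
# The numbers of the recursion for free alternative algebras
-/

namespace Pool.Agent.V114.AltNum

open Finset Pool.Agent.V114.CharCore

def tc : List ℤ := [1, 0, 1, 2, 8, 32, 145, 702, 3598, 19280]
def td : List ℤ := [0, 1, 2, 8, 32, 145, 702, 3598, 19280, 107160]
def ta : List ℤ := [0, 1, 2, 7, 32, 175, 1080, 7196, 49616, 336364]
def tb : List ℤ := [0, 0, 1, 4, 21, 128, 875, 6480, 50372, 396928]
def tp : List (List ℤ) :=
  [[1, 0, 1, 2, 8, 32, 145, 702, 3598, 19280],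
   [0, -1, -2, -8, -32, -145, -702, -3598, -19280],
   [0, 0, 3, 14, 73, 380, 2049, 11382],
   [0, 0, 4, 7, 8, -94, -1080],
   [0, 0, 7, -18, -168, -1184],
   [0, 0, 0, -214, -1184],
   [0, 0, -156, -1456],
   [0, 0, -1708],
   [0, 0],
   [0]]
def tq : List (List ℤ) :=
  [[0, 1, 2, 8, 32, 145, 702, 3598, 19280, 107160],
   [-1, -2, -8, -32, -145, -702, -3598, -19280, -107160],
   [0, 3, 14, 73, 380, 2049, 11382, 65002],
   [0, 4, 7, 8, -94, -1080, -8680],
   [0, 7, -18, -168, -1184, -7286],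
   [0, 0, -214, -1184, -6311],
   [0, -156, -1456, -5884],
   [0, -1708, -7637],
   [0, -13762],
   [0]]

def TC (j : ℕ) : ℤ := tc.getD j 0
def TD (j : ℕ) : ℤ := td.getD j 0
def TA (j : ℕ) : ℤ := ta.getD j 0
def TB (j : ℕ) : ℤ := tb.getD j 0
def TP (n j : ℕ) : ℤ := (tp.getD n []).getD j 0
def TQ (n j : ℕ) : ℤ := (tq.getD n []).getD j 0

theorem check : ∀ n ∈ range 9,
    TA (n + 1) = (if n = 0 then 1 else 0) - ∑ k ∈ range n, (n.choose k : ℤ) *
      (TA (k + 1) * TQ (n - k) 1 + TB (k + 1) * TQ (n - k) 0) ∧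
    TB (n + 1) = - ∑ k ∈ range n, (n.choose k : ℤ) *
      (TA (k + 1) * TP (n - k) 1 + TB (k + 1) * TP (n - k) 0) ∧
    ∀ j ∈ range (9 - n),
      TP (n + 1) j = -(TA (n + 1) * TC (j + 1) + TB (n + 1) * TC j) -
        (∑ k ∈ range n, (n.choose k : ℤ) *
          (TA (k + 1) * TP (n - k) (j + 1) + TB (k + 1) * TP (n - k) j)) ∧
      TQ (n + 1) j = -(TA (n + 1) * TD (j + 1) + TB (n + 1) * TD j) -
        (∑ k ∈ range n, (n.choose k : ℤ) *
          (TA (k + 1) * TQ (n - k) (j + 1) + TB (k + 1) * TQ (n - k) j)) := by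
  decide +kernel

theorem tp_zero : ∀ j ∈ range 10, TP 0 j = TC j ∧ TQ 0 j = TD j := by decide +kernel

theorem table (c d : ℕ → ℤ) (hc : ∀ j ∈ range 10, c j = TC j) (hd : ∀ j ∈ range 10, d j = TD j) :
    ∀ n, n ≤ 9 → (n ≠ 0 → An c d n = TA n) ∧ (n ≠ 0 → Bn c d n = TB n) ∧
      ∀ j, n + j ≤ 9 → pn c d n j = TP n j ∧ qn c d n j = TQ n j := by
  intro n
  induction n using Nat.strong_induction_on with
  | _ n ih =>
  intro hn
  rcases n with _ | n
  · refine ⟨fun h => absurd rfl h, fun h => absurd rfl h, ?_⟩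
    intro j hj
    have h := tp_zero j (by rw [mem_range]; omega)
    rw [pn_zero, qn_zero, h.1, h.2]
    exact ⟨hc j (by rw [mem_range]; omega), hd j (by rw [mem_range]; omega)⟩
  · have hch := check n (by rw [mem_range]; omega)
    have hp : ∀ j, n + 1 + j ≤ 9 → rp c d n j = ∑ k ∈ range n, (n.choose k : ℤ) *
          (TA (k + 1) * TP (n - k) (j + 1) + TB (k + 1) * TP (n - k) j) := by
      intro j hj
      unfold rp
      apply Finset.sum_congr rfl
      intro k hk
      rw [mem_range] at hk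
      have h1 := ih (k + 1) (by omega) (by omega)
      have h2 := ih (n - k) (by omega) (by omega)
      rw [h1.1 (by omega), h1.2.1 (by omega), (h2.2.2 (j + 1) (by omega)).1,
        (h2.2.2 j (by omega)).1]
    have hq : ∀ j, n + 1 + j ≤ 9 → rq c d n j = ∑ k ∈ range n, (n.choose k : ℤ) *
          (TA (k + 1) * TQ (n - k) (j + 1) + TB (k + 1) * TQ (n - k) j) := by
      intro j hj
      unfold rq
      apply Finset.sum_congr rfl
      intro k hk
      rw [mem_range] at hk
      have h1 := ih (k + 1) (by omega) (by omega)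
      have h2 := ih (n - k) (by omega) (by omega)
      rw [h1.1 (by omega), h1.2.1 (by omega), (h2.2.2 (j + 1) (by omega)).2,
        (h2.2.2 j (by omega)).2]
    have hA : An c d (n + 1) = TA (n + 1) := by
      rw [An_succ, hq 0 (by omega), hch.1]
    have hB : Bn c d (n + 1) = TB (n + 1) := by
      rw [Bn_succ, hp 0 (by omega), hch.2.1]
    refine ⟨fun _ => hA, fun _ => hB, ?_⟩
    intro j hj
    have h := hch.2.2 j (by rw [mem_range]; omega)
    rw [pn_succ, qn_succ, hA, hB, hp j hj, hq j hj, h.1, h.2, hc j (by rw [mem_range]; omega),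
      hc (j + 1) (by rw [mem_range]; omega), hd j (by rw [mem_range]; omega),
      hd (j + 1) (by rw [mem_range]; omega)]
    exact ⟨rfl, rfl⟩

theorem An_nine (c d : ℕ → ℤ) (hc : ∀ j ∈ range 10, c j = TC j)
    (hd : ∀ j ∈ range 10, d j = TD j) : An c d 9 = 336364 :=
  (table c d hc hd 9 le_rfl).1 (by norm_num)

end Pool.Agent.V114.AltNum
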