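import Mathlib
import Pool.Agent.V114.AltNum

/-!
# Multiplicities of the trivial and adjoint modules in tensor powers of the adjoint module of `PSL₃`
-/

namespace Pool.Agent.V114.AltChar

open Finset Pool.Agent.V114.AltNum

/-- group algebra of the root lattice -/
abbrev KW := AddMonoidAlgebra ℤ (ℤ × ℤ)
/-- association lists -/
abbrev AL := List ((ℤ × ℤ) × ℤ)

noncomputable def ev (l : AL) : KW := (l.map fun p => AddMonoidAlgebra.single p.1 p.2).sum

theorem ev_nil : ev [] = 0 := rfl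

theorem ev_cons (p : (ℤ × ℤ) × ℤ) (l : AL) :
    ev (p :: l) = AddMonoidAlgebra.single p.1 p.2 + ev l := by
  unfold ev; rw [List.map_cons, List.sum_cons]

def ins (w : ℤ × ℤ) (n : ℤ) : AL → AL
  | [] => [(w, n)]
  | p :: l => if p.1 = w then (w, p.2 + n) :: l else p :: ins w n l

theorem ev_ins (w : ℤ × ℤ) (n : ℤ) (l : AL) :
    ev (ins w n l) = AddMonoidAlgebra.single w n + ev l := by
  induction l with
  | nil => rw [ins, ev_cons]
  | cons p l ih =>
    unfold ins
    split_ifs with h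
    · rw [ev_cons, ev_cons, AddMonoidAlgebra.single_add, h]; abel
    · rw [ev_cons, ev_cons, ih]; abel

def mulL1 (q : (ℤ × ℤ) × ℤ) (l acc : AL) : AL :=
  l.foldr (fun p acc => ins (q.1 + p.1) (q.2 * p.2) acc) acc

theorem ev_mulL1 (q : (ℤ × ℤ) × ℤ) (l acc : AL) :
    ev (mulL1 q l acc) = AddMonoidAlgebra.single q.1 q.2 * ev l + ev acc := by
  induction l with
  | nil => simp [mulL1, ev_nil]
  | cons p l ih =>
    unfold mulL1 at ih ⊢
    rw [List.foldr_cons, ev_ins, ih, ev_cons, mul_add, AddMonoidAlgebra.single_mul_single]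
    abel

def mulL (m l : AL) : AL := m.foldr (fun q acc => mulL1 q l acc) []

theorem ev_mulL (m l : AL) : ev (mulL m l) = ev m * ev l := by
  induction m with
  | nil => simp [mulL, ev_nil]
  | cons q m ih =>
    unfold mulL at ih ⊢
    rw [List.foldr_cons, ev_mulL1, ih, ev_cons, add_mul]

def pair1 (w : ℤ × ℤ) (p : (ℤ × ℤ) × ℤ) (m : AL) : ℤ :=
  m.foldr (fun q acc => if p.1 + q.1 = w then p.2 * q.2 + acc else acc) 0

def pair (w : ℤ × ℤ) (l m : AL) : ℤ := l.foldr (fun p acc => pair1 w p m + acc) 0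

theorem pair1_eq (w : ℤ × ℤ) (p : (ℤ × ℤ) × ℤ) (m : AL) :
    (AddMonoidAlgebra.single p.1 p.2 * ev m).coeff w = pair1 w p m := by
  induction m with
  | nil => simp [ev_nil, pair1]
  | cons q m ih =>
    unfold pair1 at ih ⊢
    rw [ev_cons, mul_add, AddMonoidAlgebra.coeff_add, Finsupp.add_apply, ih,
      AddMonoidAlgebra.single_mul_single, AddMonoidAlgebra.coeff_single, Finsupp.single_apply,
      List.foldr_cons]
    split_ifs <;> simp

theorem pair_eq (w : ℤ × ℤ) (l m : AL) : (ev l * ev m).coeff w = pair w l m := by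
  induction l with
  | nil => simp [ev_nil, pair]
  | cons p l ih =>
    unfold pair at ih ⊢
    rw [ev_cons, add_mul, AddMonoidAlgebra.coeff_add, Finsupp.add_apply, ih, pair1_eq,
      List.foldr_cons]

/-- the adjoint character -/
def rl : AL := [((0, 0), 2), ((1, 0), 1), ((0, 1), 1), ((1, 1), 1), ((-1, 0), 1), ((0, -1), 1),
  ((-1, -1), 1)]

/-- the Weyl denominator -/
def dl : AL := [((0, 0), 1), ((-1, 0), -1), ((0, -1), -1), ((-2, -1), 1), ((-1, -2), 1),
  ((-2, -2), -1)]

def pw : ℕ → AL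
  | 0 => [((0, 0), 1)]
  | n + 1 => mulL rl (pw n)

theorem ev_pw (n : ℕ) : ev (pw n) = ev rl ^ n := by
  induction n with
  | zero => rw [pw, ev_cons, ev_nil, pow_zero, add_zero]; rfl
  | succ n ih => rw [pw, ev_mulL, ih, pow_succ, mul_comm]

theorem value (w : ℤ × ℤ) (j : ℕ) : (ev rl ^ j * ev dl).coeff w =
    pair w (pw (j / 2)) (mulL dl (pw (j - j / 2))) := by
  rw [← pair_eq, ev_mulL, ev_pw, ev_pw]
  congr 2
  have : j = j / 2 + (j - j / 2) := by omega
  conv_lhs => rw [this, pow_add]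
  ring

theorem val0 : ∀ j ∈ range 10, pair (0, 0) (pw (j / 2)) (mulL dl (pw (j - j / 2))) = TC j := by
  decide +kernel

theorem val1 : ∀ j ∈ range 10, pair (1, 1) (pw (j / 2)) (mulL dl (pw (j - j / 2))) = TD j := by
  decide +kernel

end Pool.Agent.V114.AltChar
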