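import Mathlib
import Pool.Agent.V114.Sqf
import Pool.Agent.V114.CharCore

/-!
# From the product formula to the multilinear recursion
-/

namespace Pool.Agent.V114.CharBridge

open Finset Pool.Agent.V114.Sqf

variable {σ : Type*} [DecidableEq σ] {L : Type*} [CommRing L]

theorem sim_inv {T : Finset σ} (hT : T ≠ ∅) {c : L} {f g : MvPowerSeries σ L}
    (hf : Sim T c f) (hfg : f * g = 1) : Sim T (-c) g := by
  have key : ∀ R, kap R g = (if R = ∅ then 1 else 0) + if T ⊆ R then c * kap (R \ T) g else 0 := by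
    intro R
    have h := hf.kap_mul R g
    rw [hfg, kap_one] at h
    linear_combination -h
  intro R
  rw [key R]
  by_cases hTR : T ⊆ R
  · have hn : ¬ T ⊆ R \ T := by
      intro hh
      obtain ⟨i, hi⟩ := Finset.nonempty_iff_ne_empty.2 hT
      exact (Finset.mem_sdiff.1 (hh hi)).2 hi
    rw [if_pos hTR, key (R \ T), if_neg hn]
    by_cases h : R = T
    · subst h
      simp [hT]
    · have h3 : R \ T ≠ ∅ := by
        intro hh
        exact h (Finset.Subset.antisymm (Finset.sdiff_eq_empty_iff_subset.1 hh) hTR)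
      rw [if_neg h3, if_neg h]
      simp
  · have h2 : R ≠ T := by rintro rfl; exact hTR (Finset.Subset.refl _)
    rw [if_neg hTR, if_neg h2]
    simp

variable [Fintype σ]

theorem iic_ind (S : Finset σ) :
    (Finset.Iic (ind S)).erase 0 = (S.powerset.erase ∅).image ind := by
  ext μ
  rw [Finset.mem_erase, Finset.mem_Iic, Finset.mem_image]
  constructor
  · rintro ⟨h0, hle⟩
    obtain ⟨ν, hν⟩ := exists_add_of_le hle
    have h := of_add_eq hν.symm
    refine ⟨μ.support, ?_, h.2.1.symm⟩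
    rw [Finset.mem_erase, Finset.mem_powerset]
    exact ⟨fun hh => h0 (Finsupp.support_eq_empty.1 hh), h.1⟩
  · rintro ⟨T, hT, rfl⟩
    rw [Finset.mem_erase, Finset.mem_powerset] at hT
    refine ⟨fun h => hT.1 (ind_eq_zero.1 h), ?_⟩
    rw [← ind_add hT.2]
    exact le_self_add

theorem coeff_prod (F : (σ →₀ ℕ) → MvPowerSeries σ L) (S : Finset σ) :
    MvPowerSeries.coeff (ind S) (∏ μ ∈ (Finset.Iic (ind S)).erase 0, F μ) =
      Psi (fun T => F (ind T)) S := by
  unfold Psi kap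
  rw [iic_ind, Finset.prod_image]
  intro T _ T' _ h
  exact ind_inj.1 h

/-- the factor of the product attached to a weight, with exponents given by a power operation -/
theorem sim_fac (Z : MvPowerSeries σ L → ℤ → MvPowerSeries σ L)
    (hZ : ∀ T : Finset σ, T ≠ ∅ → ∀ (e : L) (n : ℤ),
      Sim T (n * e) (Z (1 - MvPowerSeries.monomial (ind T) e) n))
    (ws : List L) (a b : ℤ) (T : Finset σ) (hT : T ≠ ∅) :
    Sim T ((a : L) * ws.sum + (b : L)) (Z (1 - MvPowerSeries.monomial (ind T) 1) b *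
      (ws.map fun e => Z (1 - MvPowerSeries.monomial (ind T) e) a).prod) := by
  have h1 : Sim T ((b : L) * 1) (Z (1 - MvPowerSeries.monomial (ind T) (1 : L)) b) :=
    hZ T hT 1 b
  have h2 := Sim.list_prod hT ws (fun e => (a : L) * e)
    (fun e => Z (1 - MvPowerSeries.monomial (ind T) e : MvPowerSeries σ L) a)
    (fun e _ => hZ T hT e a)
  have h3 := Sim.mul hT h1 h2
  have h4 : ((b : L) * 1) + (ws.map fun e => (a : L) * e).sum =
      (a : L) * ws.sum + (b : L) := by
    rw [List.sum_map_mul_left, List.map_id'' (fun _ => rfl)]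
    ring
  rw [h4] at h3
  exact h3

/-- the bridge -/
theorem bridge (Z : MvPowerSeries σ L → ℤ → MvPowerSeries σ L)
    (hZ : ∀ T : Finset σ, T ≠ ∅ → ∀ (e : L) (n : ℤ),
      Sim T (n * e) (Z (1 - MvPowerSeries.monomial (ind T) e) n))
    (ws : List L) (a b : (σ →₀ ℕ) → ℤ) (m0 m1 : L →+ ℤ) (hc0 : m0 1 = 1)
    (hc1 : m0 ws.sum = 0) (hd0 : m1 1 = 0) (hd1 : m1 ws.sum = 1)
    (he0 : ∀ S : Finset σ, S ≠ ∅ → m0 (MvPowerSeries.coeff (ind S)
      (∏ μ ∈ (Finset.Iic (ind S)).erase 0, (Z (1 - MvPowerSeries.monomial μ 1) (b μ) *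
        (ws.map fun e => Z (1 - MvPowerSeries.monomial μ e) (a μ)).prod))) = 0)
    (he1 : ∀ S : Finset σ, S ≠ ∅ → m1 (MvPowerSeries.coeff (ind S)
      (∏ μ ∈ (Finset.Iic (ind S)).erase 0, (Z (1 - MvPowerSeries.monomial μ 1) (b μ) *
        (ws.map fun e => Z (1 - MvPowerSeries.monomial μ e) (a μ)).prod))) =
        if S.card = 1 then -1 else 0) (S : Finset σ) (hS : S ≠ ∅) :
    a (ind S) = CharCore.An (fun j => m0 (ws.sum ^ j)) (fun j => m1 (ws.sum ^ j)) S.card ∧
    b (ind S) = CharCore.Bn (fun j => m0 (ws.sum ^ j)) (fun j => m1 (ws.sum ^ j)) S.card := by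
  set F : (σ →₀ ℕ) → MvPowerSeries σ L := fun μ => (Z (1 - MvPowerSeries.monomial μ 1) (b μ) *
        (ws.map fun e => Z (1 - MvPowerSeries.monomial μ e) (a μ)).prod) with hF
  have hrec : ∀ S : Finset σ, ∀ s ∈ S, Psi (fun T => F (ind T)) S =
      - ∑ T ∈ S.powerset with s ∈ T, (((a (ind T) : ℤ) : L) * ws.sum + ((b (ind T) : ℤ) : L)) *
        Psi (fun T => F (ind T)) (S \ T) := by
    intro S s hs
    exact Psi_rec (fun T => F (ind T)) (fun T => ((a (ind T) : ℤ) : L) * ws.sum +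
      ((b (ind T) : ℤ) : L)) (fun T hT => sim_fac Z hZ ws (a (ind T)) (b (ind T)) T hT) S hs
  have h := CharCore.core ws.sum m0 m1 hc0 hc1 hd0 hd1 (fun T => a (ind T)) (fun T => b (ind T))
    (Psi (fun T => F (ind T))) (Psi_empty _) hrec
    (fun S hS => by rw [← coeff_prod F S]; exact he0 S hS)
    (fun S hS => by rw [← coeff_prod F S]; exact he1 S hS) S.card S rfl
  have hc : S.card ≠ 0 := by rwa [Ne, Finset.card_eq_zero]
  exact ⟨h.1 hc, h.2.1 hc⟩

end Pool.Agent.V114.CharBridge
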