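import Mathlib

/-!
# Existence and uniqueness of the pair of classes defined by the Euler characteristic equations
-/

namespace Pool.Agent.V114.CharExist

open Finset

variable {σ : Type*} [Fintype σ] [DecidableEq σ] {L : Type*} [CommRing L]

/-- `f` is `1 - c x^ν` as far as coefficients below `ν` are concerned -/
def Near (ν : σ →₀ ℕ) (c : L) (f : MvPowerSeries σ L) : Prop :=
  ∀ p ≤ ν, MvPowerSeries.coeff p f = (if p = 0 then 1 else 0) - (if p = ν then c else 0)

theorem Near.coeff_mul {ν : σ →₀ ℕ} (hν : ν ≠ 0) {c : L} {f : MvPowerSeries σ L}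
    (hf : Near ν c f) (g : MvPowerSeries σ L) (p : σ →₀ ℕ) (hp : p ≤ ν) :
    MvPowerSeries.coeff p (f * g) = MvPowerSeries.coeff p g -
      (if p = ν then c * MvPowerSeries.coeff 0 g else 0) := by
  rw [MvPowerSeries.coeff_mul]
  by_cases hpν : p = ν
  · subst hpν
    rw [if_pos rfl]
    rw [Finset.sum_eq_add_of_mem (0, p) (p, 0) (by simp) (by simp)
      (by intro h; exact hν (Prod.ext_iff.1 h).2)]
    · rw [hf 0 zero_le, hf p le_rfl]
      simp [hν, Ne.symm hν]
      ring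
    · intro q hq hne
      rw [Finset.HasAntidiagonal.mem_antidiagonal] at hq
      have hle : q.1 ≤ p := by rw [← hq]; exact le_self_add
      rw [hf q.1 hle]
      have h1 : q.1 ≠ 0 := by
        intro h
        apply hne.1
        apply Prod.ext h
        rw [h, zero_add] at hq
        exact hq
      have h2 : q.1 ≠ p := by
        intro h
        apply hne.2
        apply Prod.ext h
        rw [h] at hq
        exact add_eq_left.1 hq
      rw [if_neg h1, if_neg h2]
      simp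
  · rw [if_neg hpν, sub_zero]
    rw [Finset.sum_eq_single_of_mem (0, p) (by simp)]
    · rw [hf 0 zero_le]
      simp [Ne.symm hν]
    · intro q hq hne
      rw [Finset.HasAntidiagonal.mem_antidiagonal] at hq
      have hle : q.1 ≤ p := by rw [← hq]; exact le_self_add
      rw [hf q.1 (hle.trans hp)]
      have h1 : q.1 ≠ 0 := by
        intro h
        apply hne
        apply Prod.ext h
        rw [h, zero_add] at hq
        exact hq
      have h2 : q.1 ≠ ν := by
        intro h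
        rw [h] at hle
        exact hpν (le_antisymm hp hle)
      rw [if_neg h1, if_neg h2]
      simp

theorem Near.one {ν : σ →₀ ℕ} : Near ν (0 : L) 1 := by
  intro p _
  rw [MvPowerSeries.coeff_one]
  simp

theorem Near.mul {ν : σ →₀ ℕ} (hν : ν ≠ 0) {c c' : L} {f g : MvPowerSeries σ L}
    (hf : Near ν c f) (hg : Near ν c' g) : Near ν (c + c') (f * g) := by
  intro p hp
  rw [hf.coeff_mul hν g p hp, hg p hp, hg 0 zero_le]
  by_cases h : p = ν
  · subst h
    simp [hν, Ne.symm hν]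
    ring
  · simp [h]

theorem Near.pow {ν : σ →₀ ℕ} (hν : ν ≠ 0) {c : L} {f : MvPowerSeries σ L}
    (hf : Near ν c f) (n : ℕ) : Near ν (n * c) (f ^ n) := by
  induction n with
  | zero => simpa using Near.one
  | succ n ih =>
    rw [pow_succ]
    have := Near.mul hν ih hf
    have h2 : ((n + 1 : ℕ) : L) * c = n * c + c := by push_cast; ring
    rw [h2]; exact this

theorem Near.inv {ν : σ →₀ ℕ} (hν : ν ≠ 0) {c : L} {f g : MvPowerSeries σ L}
    (hf : Near ν c f) (hfg : f * g = 1) : Near ν (-c) g := by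
  have key : ∀ p ≤ ν, MvPowerSeries.coeff p g = (if p = 0 then 1 else 0) +
      (if p = ν then c * MvPowerSeries.coeff 0 g else 0) := by
    intro p hp
    have h := hf.coeff_mul hν g p hp
    rw [hfg, MvPowerSeries.coeff_one] at h
    linear_combination -h
  have h0 : MvPowerSeries.coeff 0 g = 1 := by
    rw [key 0 zero_le, if_pos rfl, if_neg (Ne.symm hν), add_zero]
  intro p hp
  rw [key p hp, h0]
  split_ifs <;> ring

theorem Near.fac {ν : σ →₀ ℕ} (e : L) :
    Near ν e (1 - MvPowerSeries.monomial ν e : MvPowerSeries σ L) := by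
  intro p _
  rw [map_sub, MvPowerSeries.coeff_one, MvPowerSeries.coeff_monomial]

theorem Near.list_prod {ν : σ →₀ ℕ} (hν : ν ≠ 0) {ι : Type*} (l : List ι) (c : ι → L)
    (f : ι → MvPowerSeries σ L) (hf : ∀ i ∈ l, Near ν (c i) (f i)) :
    Near ν (l.map c).sum (l.map f).prod := by
  induction l with
  | nil => simpa using Near.one
  | cons i l ih =>
    rw [List.map_cons, List.map_cons, List.sum_cons, List.prod_cons]
    exact Near.mul hν (hf i (by simp)) (ih fun j hj => hf j (by simp [hj]))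

section Pair

variable (Z : MvPowerSeries σ L → ℤ → MvPowerSeries σ L) (ws : List L)

/-- the factor of the product -/
noncomputable def Fac (a b : ℤ) (μ : σ →₀ ℕ) : MvPowerSeries σ L :=
  Z (1 - MvPowerSeries.monomial μ 1) b * (ws.map fun e => Z (1 - MvPowerSeries.monomial μ e) a).prod

variable (hZ : ∀ ν : σ →₀ ℕ, ν ≠ 0 → ∀ (e : L) (n : ℤ),
      Near ν (n * e) (Z (1 - MvPowerSeries.monomial ν e) n))

include hZ in
theorem near_fac (a b : ℤ) (ν : σ →₀ ℕ) (hν : ν ≠ 0) :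
    Near ν ((a : L) * ws.sum + (b : L)) (Fac Z ws a b ν) := by
  have h1 : Near ν ((b : L) * 1) (Z (1 - MvPowerSeries.monomial ν (1 : L)) b) := hZ ν hν 1 b
  have h2 := Near.list_prod hν ws (fun e => (a : L) * e)
    (fun e => Z (1 - MvPowerSeries.monomial ν e : MvPowerSeries σ L) a)
    (fun e _ => hZ ν hν e a)
  have h3 := Near.mul hν h1 h2
  have h4 : ((b : L) * 1) + (ws.map fun e => (a : L) * e).sum =
      (a : L) * ws.sum + (b : L) := by
    rw [List.sum_map_mul_left, List.map_id'' (fun _ => rfl)]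
    ring
  rw [h4] at h3
  exact h3

include hZ in
theorem coeff_zero_fac (a b : ℤ) (ν : σ →₀ ℕ) (hν : ν ≠ 0) :
    MvPowerSeries.coeff 0 (Fac Z ws a b ν) = 1 := by
  rw [near_fac Z ws hZ a b ν hν 0 zero_le, if_pos rfl, if_neg (Ne.symm hν), sub_zero]

/-- the product over the weights below `ν` -/
noncomputable def G (a b : (σ →₀ ℕ) → ℤ) (ν : σ →₀ ℕ) : MvPowerSeries σ L :=
  ∏ μ ∈ (Finset.Iio ν).erase 0, Fac Z ws (a μ) (b μ) μ

include hZ in
theorem coeff_zero_G (a b : (σ →₀ ℕ) → ℤ) (ν : σ →₀ ℕ) :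
    MvPowerSeries.coeff 0 (G Z ws a b ν) = 1 := by
  unfold G
  rw [MvPowerSeries.coeff_zero_eq_constantCoeff_apply, map_prod]
  apply Finset.prod_eq_one
  intro μ hμ
  rw [← MvPowerSeries.coeff_zero_eq_constantCoeff_apply]
  exact coeff_zero_fac Z ws hZ _ _ μ (Finset.mem_erase.1 hμ).1

include hZ in
theorem phi_eq (a b : (σ →₀ ℕ) → ℤ) (ν : σ →₀ ℕ) (hν : ν ≠ 0) :
    MvPowerSeries.coeff ν (∏ μ ∈ (Finset.Iic ν).erase 0, Fac Z ws (a μ) (b μ) μ) =
      MvPowerSeries.coeff ν (G Z ws a b ν) - ((a ν : L) * ws.sum + (b ν : L)) := by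
  have hset : (Finset.Iic ν).erase 0 = insert ν ((Finset.Iio ν).erase 0) := by
    ext μ
    simp only [Finset.mem_erase, Finset.mem_Iic, Finset.mem_insert, Finset.mem_Iio]
    constructor
    · rintro ⟨h1, h2⟩
      rcases h2.eq_or_lt with h | h
      · exact Or.inl h
      · exact Or.inr ⟨h1, h⟩
    · rintro (h | ⟨h1, h2⟩)
      · rw [h]; exact ⟨hν, le_rfl⟩
      · exact ⟨h1, h2.le⟩
  rw [hset, Finset.prod_insert (by simp)]
  have h := (near_fac Z ws hZ (a ν) (b ν) ν hν).coeff_mul hν (G Z ws a b ν) ν le_rfl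
  rw [if_pos rfl, coeff_zero_G Z ws hZ, mul_one] at h
  exact h

variable (m0 m1 : L →+ ℤ) (hc0 : m0 1 = 1) (hc1 : m0 ws.sum = 0) (hd0 : m1 1 = 0)
  (hd1 : m1 ws.sum = 1)

include hc0 hc1 in
theorem m0_lin (a b : ℤ) : m0 ((a : L) * ws.sum + (b : L)) = b := by
  have h : (a : L) * ws.sum + (b : L) = a • ws.sum + b • (1 : L) := by
    rw [zsmul_eq_mul, zsmul_eq_mul, mul_one]
  rw [h, map_add, map_zsmul, map_zsmul, hc0, hc1]
  simp

include hd0 hd1 in
theorem m1_lin (a b : ℤ) : m1 ((a : L) * ws.sum + (b : L)) = a := by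
  have h : (a : L) * ws.sum + (b : L) = a • ws.sum + b • (1 : L) := by
    rw [zsmul_eq_mul, zsmul_eq_mul, mul_one]
  rw [h, map_add, map_zsmul, map_zsmul, hd0, hd1]
  simp

include hZ hc0 hc1 hd0 hd1 in
theorem exists_pair (δ : (σ →₀ ℕ) → ℤ) : ∃ a b : (σ →₀ ℕ) → ℤ, a 0 = 0 ∧ b 0 = 0 ∧
    ∀ ν, ν ≠ 0 →
      m0 (MvPowerSeries.coeff ν (∏ μ ∈ (Finset.Iic ν).erase 0, Fac Z ws (a μ) (b μ) μ)) = 0 ∧
      m1 (MvPowerSeries.coeff ν (∏ μ ∈ (Finset.Iic ν).erase 0, Fac Z ws (a μ) (b μ) μ)) =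
        δ ν := by
  classical
  -- recursion step
  let step : ∀ ν : σ →₀ ℕ, (∀ μ : σ →₀ ℕ, μ < ν → ℤ × ℤ) → ℤ × ℤ := fun ν rec =>
    if ν = 0 then (0, 0) else
      (m1 (MvPowerSeries.coeff ν (G Z ws (fun μ => if h : μ < ν then (rec μ h).1 else 0)
          (fun μ => if h : μ < ν then (rec μ h).2 else 0) ν)) - δ ν,
        m0 (MvPowerSeries.coeff ν (G Z ws (fun μ => if h : μ < ν then (rec μ h).1 else 0)
          (fun μ => if h : μ < ν then (rec μ h).2 else 0) ν)))
  let ab : (σ →₀ ℕ) → ℤ × ℤ := WellFounded.fix (wellFounded_lt (α := σ →₀ ℕ)) step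
  have hab : ∀ ν, ab ν = step ν (fun μ _ => ab μ) := fun ν => WellFounded.fix_eq _ _ _
  have hG : ∀ ν, G Z ws (fun μ => if h : μ < ν then (ab μ).1 else 0)
      (fun μ => if h : μ < ν then (ab μ).2 else 0) ν =
      G Z ws (fun μ => (ab μ).1) (fun μ => (ab μ).2) ν := by
    intro ν
    unfold G
    apply Finset.prod_congr rfl
    intro μ hμ
    have hlt : μ < ν := Finset.mem_Iio.1 (Finset.mem_erase.1 hμ).2
    simp only [dif_pos hlt]
  refine ⟨fun ν => (ab ν).1, fun ν => (ab ν).2, ?_, ?_, ?_⟩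
  · show (ab 0).1 = 0
    rw [hab]; simp [step]
  · show (ab 0).2 = 0
    rw [hab]; simp [step]
  · intro ν hν
    have h := hab ν
    simp only [step, if_neg hν] at h
    rw [hG ν] at h
    rw [phi_eq Z ws hZ _ _ ν hν]
    rw [map_sub, map_sub, m0_lin ws m0 hc0 hc1, m1_lin ws m1 hd0 hd1, h]
    constructor
    · simp
    · simp

include hZ hc0 hc1 hd0 hd1 in
theorem unique_pair (a b a' b' : (σ →₀ ℕ) → ℤ) (ha : a 0 = 0) (hb : b 0 = 0) (ha' : a' 0 = 0)
    (hb' : b' 0 = 0)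
    (h0 : ∀ ν, ν ≠ 0 →
      m0 (MvPowerSeries.coeff ν (∏ μ ∈ (Finset.Iic ν).erase 0, Fac Z ws (a μ) (b μ) μ)) =
      m0 (MvPowerSeries.coeff ν (∏ μ ∈ (Finset.Iic ν).erase 0, Fac Z ws (a' μ) (b' μ) μ)))
    (h1 : ∀ ν, ν ≠ 0 →
      m1 (MvPowerSeries.coeff ν (∏ μ ∈ (Finset.Iic ν).erase 0, Fac Z ws (a μ) (b μ) μ)) =
      m1 (MvPowerSeries.coeff ν (∏ μ ∈ (Finset.Iic ν).erase 0, Fac Z ws (a' μ) (b' μ) μ))) :
    a = a' ∧ b = b' := by
  have key : ∀ ν, a ν = a' ν ∧ b ν = b' ν := by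
    intro ν
    induction ν using (wellFounded_lt (α := σ →₀ ℕ)).induction with
    | _ ν ih =>
    by_cases hν : ν = 0
    · subst hν; exact ⟨by rw [ha, ha'], by rw [hb, hb']⟩
    · have hG : G Z ws a b ν = G Z ws a' b' ν := by
        unfold G
        apply Finset.prod_congr rfl
        intro μ hμ
        have hlt : μ < ν := Finset.mem_Iio.1 (Finset.mem_erase.1 hμ).2
        rw [(ih μ hlt).1, (ih μ hlt).2]
      have e0 := h0 ν hν
      have e1 := h1 ν hν
      rw [phi_eq Z ws hZ _ _ ν hν, phi_eq Z ws hZ _ _ ν hν, hG, map_sub, map_sub] at e0 e1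
      rw [m0_lin ws m0 hc0 hc1, m0_lin ws m0 hc0 hc1] at e0
      rw [m1_lin ws m1 hd0 hd1, m1_lin ws m1 hd0 hd1] at e1
      constructor <;> linarith
  exact ⟨funext fun ν => (key ν).1, funext fun ν => (key ν).2⟩

end Pair

end Pool.Agent.V114.CharExist
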