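import Mathlib

/-!
Graded modules over (generalized) divided power algebras, presented as families of modules with
operators `x^{[n]}`.
-/

namespace Pool.Agent.V114.DivPow

/-- Structure constants of a graded algebra with basis `x^{[0]} = 1, x^{[1]}, …` and
multiplication `x^{[n]} x^{[m]} = c n m x^{[n+m]}`. -/
structure DivData (k : Type) [CommRing k] where
  /-- the structure constants -/
  c : ℕ → ℕ → k
  /-- `x^{[0]}` is a left unit -/
  c_zero : ∀ m, c 0 m = 1
  /-- associativity -/
  assoc : ∀ n m p, c n (m + p) * c m p = c n m * c (n + m) p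

/-- The rules for operators `op n i j : M i → M j` (`j = i + n`), the action of `x^{[n]}`:
`x^{[0]}` acts as the identity and `x^{[n]} x^{[m]} = c n m x^{[n+m]}`. -/
def OpLaw {k : Type} [CommRing k] (D : DivData k) (M : ℤ → Type) [∀ j, AddCommGroup (M j)]
    [∀ j, Module k (M j)] (op : ∀ (n : ℕ) (i j : ℤ), i + n = j → (M i →ₗ[k] M j)) : Prop :=
  (∀ (i : ℤ) (h : i + ((0 : ℕ) : ℤ) = i) (v : M i), op 0 i i h v = v) ∧
  (∀ (n m : ℕ) (i j l : ℤ) (hij : i + m = j) (hjl : j + n = l)
    (hil : i + ((n + m : ℕ) : ℤ) = l) (v : M i),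
    op n j l hjl (op m i j hij v) = D.c n m • op (n + m) i l hil v)

/-- A `ℤ`-graded module over the algebra `D` given by `DivData`: a family of `k`-modules `M j`
with `k`-linear operators `op n i j : M i → M j` (`j = i + n`), the action of `x^{[n]}`, such that
`x^{[0]}` acts as the identity and `x^{[n]} x^{[m]} = c n m x^{[n+m]}`. -/
structure GrMod (k : Type) [CommRing k] (D : DivData k) where
  /-- the graded pieces -/
  M : ℤ → Type
  /-- additive structure -/
  [grp : ∀ j, AddCommGroup (M j)]
  /-- module structure -/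
  [mod : ∀ j, Module k (M j)]
  /-- the action of `x^{[n]}` from degree `i` to degree `j = i + n` -/
  op : ∀ (n : ℕ) (i j : ℤ), i + n = j → (M i →ₗ[k] M j)
  /-- the rules -/
  law : OpLaw D M op

attribute [instance] GrMod.grp GrMod.mod

variable {k : Type} [CommRing k] {D : DivData k}

theorem GrMod.op_zero (M : GrMod k D) (i : ℤ) (h : i + ((0 : ℕ) : ℤ) = i) (v : M.M i) :
    M.op 0 i i h v = v := M.law.1 i h v

theorem GrMod.op_op (M : GrMod k D) (n m : ℕ) (i j l : ℤ) (hij : i + m = j) (hjl : j + n = l)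
    (hil : i + ((n + m : ℕ) : ℤ) = l) (v : M.M i) :
    M.op n j l hjl (M.op m i j hij v) = D.c n m • M.op (n + m) i l hil v :=
  M.law.2 n m i j l hij hjl hil v

/-- Degree-preserving maps of graded `D`-modules. -/
structure GrHom (M N : GrMod k D) where
  /-- the components -/
  f : ∀ j, M.M j →ₗ[k] N.M j
  /-- compatibility with the operators -/
  comm : ∀ (n : ℕ) (i j : ℤ) (h : i + n = j) (v : M.M i),
    f j (M.op n i j h v) = N.op n i j h (f i v)

lemma GrHom.ker_mem {M N : GrMod k D} (φ : GrHom M N) (n : ℕ) (i j : ℤ) (h : i + n = j)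
    (v : M.M i) (hv : v ∈ LinearMap.ker (φ.f i)) : M.op n i j h v ∈ LinearMap.ker (φ.f j) := by
  rw [LinearMap.mem_ker] at hv ⊢
  rw [φ.comm, hv, map_zero]

/-- The action of `x^{[n]}` on the kernel. -/
def GrHom.kerOp {M N : GrMod k D} (φ : GrHom M N) (n : ℕ) (i j : ℤ) (h : i + n = j) :
    LinearMap.ker (φ.f i) →ₗ[k] LinearMap.ker (φ.f j) :=
  (M.op n i j h).restrict (φ.ker_mem n i j h)

lemma GrHom.kerLaw {M N : GrMod k D} (φ : GrHom M N) :
    OpLaw D (fun j => LinearMap.ker (φ.f j)) φ.kerOp :=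
  ⟨fun i h v => Subtype.ext (M.op_zero i h v),
    fun n m i j l hij hjl hil v => Subtype.ext (M.op_op n m i j l hij hjl hil v)⟩

/-- The kernel of a map of graded modules. -/
def GrHom.kernel {M N : GrMod k D} (φ : GrHom M N) : GrMod k D where
  M j := LinearMap.ker (φ.f j)
  op := φ.kerOp
  law := φ.kerLaw

/-- The cokernel of a map of graded modules. -/
def GrHom.cokernel {M N : GrMod k D} (φ : GrHom M N) : GrMod k D where
  M j := N.M j ⧸ LinearMap.range (φ.f j)
  op n i j h := Submodule.mapQ _ _ (N.op n i j h) (by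
    rintro _ ⟨v, rfl⟩
    exact ⟨M.op n i j h v, φ.comm n i j h v⟩)
  law := ⟨fun i h v => by
    obtain ⟨v, rfl⟩ := Submodule.Quotient.mk_surjective _ v
    rw [Submodule.mapQ_apply, N.op_zero], fun n m i j l hij hjl hil v => by
    obtain ⟨v, rfl⟩ := Submodule.Quotient.mk_surjective _ v
    rw [Submodule.mapQ_apply, Submodule.mapQ_apply, Submodule.mapQ_apply, N.op_op _ _ _ _ _ hij hjl hil,
      Submodule.Quotient.mk_smul]⟩

/-- The degree `j` piece of `⊕_s D[-d_s]`: vectors `v` with `v_s = 0` if `j < d_s`. -/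
def FreeSub (k : Type) [CommRing k] {r : ℕ} (d : Fin r → ℤ) (j : ℤ) :
    Submodule k (Fin r → k) where
  carrier := {v | ∀ s, j < d s → v s = 0}
  add_mem' := fun {a b} ha hb s hs => by
    rw [Pi.add_apply, ha s hs, hb s hs, add_zero]
  zero_mem' := fun s _ => rfl
  smul_mem' := fun a v hv s hs => by
    rw [Pi.smul_apply, hv s hs, smul_zero]

lemma freeOp_mem (D : DivData k) {r : ℕ} (d : Fin r → ℤ) (n : ℕ) (i j : ℤ) (h : i + n = j)
    (v : FreeSub k d i) :
    (fun s => D.c n (i - d s).toNat * v.1 s) ∈ FreeSub k d j := by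
  intro s hs
  change D.c n (i - d s).toNat * v.1 s = 0
  rw [v.2 s (by omega), mul_zero]

/-- The action of `x^{[n]}` on vectors: `(v_s) ↦ (c(n, i - d_s) v_s)`. -/
def freeFun (D : DivData k) {r : ℕ} (d : Fin r → ℤ) (n : ℕ) (i j : ℤ) (h : i + n = j)
    (v : FreeSub k d i) : FreeSub k d j :=
  ⟨fun s => D.c n (i - d s).toNat * v.1 s, freeOp_mem D d n i j h v⟩

lemma freeFun_add (D : DivData k) {r : ℕ} (d : Fin r → ℤ) (n : ℕ) (i j : ℤ) (h : i + n = j)
    (v w : FreeSub k d i) :
    freeFun D d n i j h (v + w) = freeFun D d n i j h v + freeFun D d n i j h w :=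
  Subtype.ext (funext fun s => mul_add _ _ _)

lemma freeFun_smul (D : DivData k) {r : ℕ} (d : Fin r → ℤ) (n : ℕ) (i j : ℤ) (h : i + n = j)
    (a : k) (v : FreeSub k d i) :
    freeFun D d n i j h (a • v) = a • freeFun D d n i j h v :=
  Subtype.ext (funext fun s => mul_left_comm _ _ _)

/-- The action of `x^{[n]}` on `⊕_s D[-d_s]`: `x^{[n]} x^{[i-d_s]} e_s = c(n, i-d_s) x^{[n+i-d_s]} e_s`. -/
def freeOp (D : DivData k) {r : ℕ} (d : Fin r → ℤ) (n : ℕ) (i j : ℤ) (h : i + n = j) :
    FreeSub k d i →ₗ[k] FreeSub k d j where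
  toFun := freeFun D d n i j h
  map_add' := freeFun_add D d n i j h
  map_smul' := freeFun_smul D d n i j h

lemma freeLaw (D : DivData k) {r : ℕ} (d : Fin r → ℤ) :
    OpLaw D (fun j => FreeSub k d j) (freeOp D d) := by
  refine ⟨fun i h v => ?_, fun n m i j l hij hjl hil v => ?_⟩
  · apply Subtype.ext; ext1 s
    change D.c 0 _ * v.1 s = v.1 s
    rw [D.c_zero, one_mul]
  · apply Subtype.ext; ext1 s
    change D.c n (j - d s).toNat * (D.c m (i - d s).toNat * v.1 s) =
      D.c n m * (D.c (n + m) (i - d s).toNat * v.1 s)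
    by_cases hs : i < d s
    · rw [v.2 s hs]; simp
    · have h1 : (j - d s).toNat = m + (i - d s).toNat := by omega
      rw [h1, ← mul_assoc, ← mul_assoc, D.assoc]

/-- The finitely generated free graded module `⊕_s D[-d_s]`: in degree `j` it is free on the
elements `x^{[j - d_s]} e_s` with `d_s ≤ j`. -/
def Free (D : DivData k) {r : ℕ} (d : Fin r → ℤ) : GrMod k D where
  M j := FreeSub k d j
  op := freeOp D d
  law := freeLaw D d

/-- `M` is finitely presented: it is the cokernel of a map between finite direct sums of shifts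
of `D`. -/
def IsFinPres (M : GrMod k D) : Prop :=
  ∃ (q r : ℕ) (e : Fin q → ℤ) (d : Fin r → ℤ) (f : GrHom (Free D e) (Free D d))
    (g : GrHom (Free D d) M), ∀ j, Function.Surjective (g.f j) ∧
      LinearMap.ker (g.f j) = LinearMap.range (f.f j)

/-- `τ_{≥ n} M ≅ τ_{≥ n} N` as graded modules. -/
def TruncIso (n : ℤ) (M N : GrMod k D) : Prop :=
  ∃ φ : ∀ j, n ≤ j → (M.M j ≃ₗ[k] N.M j), ∀ (m : ℕ) (i j : ℤ) (hi : n ≤ i) (hj : n ≤ j)
    (h : i + m = j) (v : M.M i), φ j hj (M.op m i j h v) = N.op m i j h (φ i hi v)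

/-- `M ≅ N` as graded modules. -/
def GrIso (M N : GrMod k D) : Prop :=
  ∃ φ : ∀ j, (M.M j ≃ₗ[k] N.M j), ∀ (m : ℕ) (i j : ℤ)
    (h : i + m = j) (v : M.M i), φ j (M.op m i j h v) = N.op m i j h (φ i v)

/-- The map out of a free module given by elements `ρ t` of degree `e t`. -/
noncomputable def freeDesc {q : ℕ} (e : Fin q → ℤ) (M : GrMod k D) (ρ : ∀ t, M.M (e t)) :
    GrHom (Free D e) M where
  f j :=
    { toFun := fun v => ∑ t, if h : e t ≤ j then
        v.1 t • M.op (j - e t).toNat (e t) j (by omega) (ρ t) else 0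
      map_add' := fun v w => by
        rw [← Finset.sum_add_distrib]
        refine Finset.sum_congr rfl fun t _ => ?_
        split_ifs with h
        · exact add_smul _ _ _
        · simp
      map_smul' := fun a v => by
        rw [Finset.smul_sum]
        refine Finset.sum_congr rfl fun t _ => ?_
        split_ifs with h
        · exact mul_smul _ _ _
        · simp }
  comm n i j h v := by
    change (∑ t, if h' : e t ≤ j then
        (D.c n (i - e t).toNat * v.1 t) • M.op (j - e t).toNat (e t) j (by omega) (ρ t) else 0) =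
      M.op n i j h (∑ t, if h' : e t ≤ i then
        v.1 t • M.op (i - e t).toNat (e t) i (by omega) (ρ t) else 0)
    rw [map_sum]
    refine Finset.sum_congr rfl fun t _ => ?_
    by_cases hi : e t ≤ i
    · have hj : e t ≤ j := by omega
      rw [dif_pos hi, dif_pos hj, map_smul]
      have h2 : (j - e t).toNat = n + (i - e t).toNat := by omega
      rw [M.op_op n (i - e t).toNat (e t) i j (by omega) h (by omega), smul_smul, mul_comm]
      congr 1
      have : ∀ (a b : ℕ) (hab : a = b) (ha : e t + a = j) (hb : e t + b = j),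
          M.op a (e t) j ha (ρ t) = M.op b (e t) j hb (ρ t) := by
        rintro a b rfl _ _; rfl
      exact this _ _ h2 _ _
    · rw [dif_neg hi, map_zero]
      have h0 : v.1 t = 0 := v.2 t (by omega)
      by_cases hj : e t ≤ j
      · rw [dif_pos hj, h0, mul_zero, zero_smul]
      · rw [dif_neg hj]

lemma isFinPres_cokernel {q r : ℕ} {e : Fin q → ℤ} {d : Fin r → ℤ}
    (f : GrHom (Free D e) (Free D d)) : IsFinPres f.cokernel := by
  refine ⟨q, r, e, d, f, ⟨fun j => Submodule.mkQ _, fun n i j h v => rfl⟩, fun j => ⟨?_, ?_⟩⟩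
  · exact Submodule.mkQ_surjective _
  · exact Submodule.ker_mkQ _

lemma classical_assoc (k : Type) [CommRing k] (n m p : ℕ) :
    (((n + (m + p)).choose n : ℕ) : k) * (((m + p).choose m : ℕ) : k) =
      (((n + m).choose n : ℕ) : k) * (((n + m + p).choose (n + m) : ℕ) : k) := by
  rw [← Nat.cast_mul, ← Nat.cast_mul]
  congr 1
  have h := Nat.choose_mul (n := n + m + p) (k := n + m) (s := n) (by omega)
  have h1 : n + m + p - n = m + p := by omega
  have h2 : n + m - n = m := by omega
  rw [h1, h2] at h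
  rw [← add_assoc, mul_comm ((n + m).choose n)]
  exact h.symm

lemma classical_zero (k : Type) [CommRing k] (m : ℕ) : (((0 + m).choose 0 : ℕ) : k) = 1 := by simp

/-- The classical divided power algebra over `k`. -/
def classical (k : Type) [CommRing k] : DivData k where
  c n m := ((n + m).choose n : k)
  c_zero := classical_zero k
  assoc := classical_assoc k

end Pool.Agent.V114.DivPow
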