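import Mathlib
import Pool.Agent.V114.DivPow

/-!
Generalized divided power algebras `D(π; k)` and the `5`-typical example.
-/

namespace Pool.Agent.V114.DivPow

variable {k : Type} [CommRing k]

/-- `C(n,m) = ∏_{d ≥ 2} π_d^(⌊n/d⌋ - ⌊m/d⌋ - ⌊(n-m)/d⌋)` (the factors with `d > n` are `1`). -/
def Cpi (π : ℕ → k) (n m : ℕ) : k :=
  ∏ d ∈ Finset.Icc 2 n, π d ^ (n / d - m / d - (n - m) / d)

lemma Cpi_add (π : ℕ → k) (n m B : ℕ) (hB : n + m ≤ B) :
    Cpi π (n + m) n = ∏ d ∈ Finset.Icc 2 B, π d ^ ((n + m) / d - n / d - m / d) := by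
  unfold Cpi
  rw [Nat.add_sub_cancel_left]
  apply Finset.prod_subset
  · intro d hd; rw [Finset.mem_Icc] at hd ⊢; omega
  · intro d hd hd'
    rw [Finset.mem_Icc] at hd hd'
    have : (n + m) / d = 0 := Nat.div_eq_of_lt (by omega)
    rw [this]; simp

lemma Cpi_zero (π : ℕ → k) (m : ℕ) : Cpi π (0 + m) 0 = 1 := by
  unfold Cpi
  apply Finset.prod_eq_one
  intro d _
  simp

lemma Cpi_assoc (π : ℕ → k) (n m p : ℕ) :
    Cpi π (n + (m + p)) n * Cpi π (m + p) m = Cpi π (n + m) n * Cpi π (n + m + p) (n + m) := by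
  rw [Cpi_add π n (m + p) (n + m + p) (by omega), Cpi_add π m p (n + m + p) (by omega),
    Cpi_add π n m (n + m + p) (by omega), Cpi_add π (n + m) p (n + m + p) (by omega),
    ← Finset.prod_mul_distrib, ← Finset.prod_mul_distrib]
  refine Finset.prod_congr rfl fun d _ => ?_
  rw [← pow_add, ← pow_add]
  congr 1
  have h1 : n / d + (m + p) / d ≤ (n + (m + p)) / d := Nat.div_add_div_le_add_div
  have h2 : m / d + p / d ≤ (m + p) / d := Nat.div_add_div_le_add_div
  have h3 : n / d + m / d ≤ (n + m) / d := Nat.div_add_div_le_add_div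
  have h4 : (n + m) / d + p / d ≤ (n + m + p) / d := Nat.div_add_div_le_add_div
  rw [← add_assoc] at h1 ⊢
  omega

/-- The generalized divided power algebra `D(π; k)`. -/
def piData (π : ℕ → k) : DivData k where
  c n m := Cpi π (n + m) n
  c_zero := Cpi_zero π
  assoc := Cpi_assoc π

/-- Admissible sequences: if `π_n, π_m` (`n, m ≥ 2`) lie in a common maximal ideal then
`n ∣ m` or `m ∣ n`. -/
def Admissible (π : ℕ → k) : Prop :=
  ∀ n m : ℕ, 2 ≤ n → 2 ≤ m → (∃ I : Ideal k, I.IsMaximal ∧ π n ∈ I ∧ π m ∈ I) → n ∣ m ∨ m ∣ n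

/-- Nearly finitely presented graded modules. -/
def IsNfp {D : DivData k} (M : GrMod k D) : Prop :=
  (∀ j, Module.Finite k (M.M j)) ∧ (∃ n : ℤ, ∀ j < n, Subsingleton (M.M j)) ∧
    ∃ N : GrMod k D, IsFinPres N ∧ ∃ n : ℤ, TruncIso n M N

open Classical in
/-- the `5`-typical sequence: `π_d = 5` if `d` is a positive power of `5`, else `π_d = 1`. -/
noncomputable def pi5 (k : Type) [CommRing k] (d : ℕ) : k := if ∃ i, 1 ≤ i ∧ d = 5 ^ i then 5 else 1

open Classical in
lemma sum_five (X B : ℕ) (hB : X ≤ B) :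
    ∑ d ∈ Finset.Icc 2 B, (if ∃ i, 1 ≤ i ∧ d = 5 ^ i then X / d else 0) =
      padicValNat 5 X.factorial := by
  have : Fact (Nat.Prime 5) := ⟨Nat.prime_five⟩
  have hlog : Nat.log 5 X < B + 1 := lt_of_le_of_lt (Nat.log_le_self 5 X) (by omega)
  rw [padicValNat_factorial hlog, ← Finset.sum_filter]
  have h1 : ∑ i ∈ Finset.Ico 1 (B + 1), X / 5 ^ i =
      ∑ i ∈ (Finset.Ico 1 (B + 1)).filter (fun i => 5 ^ i ≤ B), X / 5 ^ i := by
    symm
    apply Finset.sum_subset (Finset.filter_subset _ _)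
    intro i hi hi'
    rw [Finset.mem_filter] at hi'
    apply Nat.div_eq_of_lt
    by_contra hcon
    exact hi' ⟨hi, by omega⟩
  rw [h1]
  symm
  apply Finset.sum_bij (fun i _ => 5 ^ i)
  · intro i hi
    rw [Finset.mem_filter, Finset.mem_Ico] at hi
    rw [Finset.mem_filter, Finset.mem_Icc]
    refine ⟨⟨?_, hi.2⟩, i, hi.1.1, rfl⟩
    calc 2 ≤ 5 ^ 1 := by norm_num
      _ ≤ 5 ^ i := Nat.pow_le_pow_right (by norm_num) hi.1.1
  · intro i _ j _ h
    exact Nat.pow_right_injective (by norm_num) h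
  · intro d hd
    rw [Finset.mem_filter, Finset.mem_Icc] at hd
    obtain ⟨⟨h2, hdB⟩, i, hi, rfl⟩ := hd
    refine ⟨i, ?_, rfl⟩
    rw [Finset.mem_filter, Finset.mem_Ico]
    have : i < 5 ^ i := Nat.lt_pow_self (by norm_num)
    exact ⟨⟨hi, by omega⟩, hdB⟩
  · intro i _; rfl

open Classical in
lemma pi5_c (n m : ℕ) : (piData (pi5 k)).c n m = 5 ^ padicValNat 5 ((n + m).choose n) := by
  have : Fact (Nat.Prime 5) := ⟨Nat.prime_five⟩
  change Cpi (pi5 k) (n + m) n = _
  rw [Cpi_add _ n m (n + m) le_rfl]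
  have h1 : ∀ d ∈ Finset.Icc 2 (n + m), pi5 k d ^ ((n + m) / d - n / d - m / d) =
      5 ^ (if ∃ i, 1 ≤ i ∧ d = 5 ^ i then (n + m) / d - n / d - m / d else 0) := by
    intro d _
    unfold pi5
    split_ifs
    · rfl
    · simp
  rw [Finset.prod_congr rfl h1, Finset.prod_pow_eq_pow_sum]
  congr 1
  have e1 := sum_five (n + m) (n + m) le_rfl
  have e2 := sum_five n (n + m) (by omega)
  have e3 := sum_five m (n + m) (by omega)
  have e4 : ∑ d ∈ Finset.Icc 2 (n + m),
      (if ∃ i, 1 ≤ i ∧ d = 5 ^ i then (n + m) / d - n / d - m / d else 0) +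
      (∑ d ∈ Finset.Icc 2 (n + m), (if ∃ i, 1 ≤ i ∧ d = 5 ^ i then n / d else 0)) +
      (∑ d ∈ Finset.Icc 2 (n + m), (if ∃ i, 1 ≤ i ∧ d = 5 ^ i then m / d else 0)) =
      ∑ d ∈ Finset.Icc 2 (n + m), (if ∃ i, 1 ≤ i ∧ d = 5 ^ i then (n + m) / d else 0) := by
    rw [← Finset.sum_add_distrib, ← Finset.sum_add_distrib]
    refine Finset.sum_congr rfl fun d _ => ?_
    have : n / d + m / d ≤ (n + m) / d := Nat.div_add_div_le_add_div
    split_ifs <;> omega
  rw [e1, e2, e3] at e4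
  have e5 : padicValNat 5 (n + m).factorial =
      padicValNat 5 ((n + m).choose n) + padicValNat 5 n.factorial + padicValNat 5 m.factorial := by
    have h := Nat.choose_mul_factorial_mul_factorial (n := n + m) (k := n) (by omega)
    rw [Nat.add_sub_cancel_left] at h
    rw [← h, padicValNat.mul, padicValNat.mul]
    · exact (Nat.choose_pos (by omega)).ne'
    · exact n.factorial_ne_zero
    · exact mul_ne_zero (Nat.choose_pos (by omega)).ne' n.factorial_ne_zero
    · exact m.factorial_ne_zero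
  omega

end Pool.Agent.V114.DivPow
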