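import Mathlib

/-!
The skew Laurent series ring `A((x, φ))`.
-/

namespace Pool.Agent.V114.SkewSer

universe u

/-- Skew Laurent series `∑_{i ≥ n} a_i x^i`: functions `ℤ → A` vanishing below some index. -/
@[ext] structure Ser (A : Type u) [Ring A] (φ : RingAut A) where
  /-- the coefficient function -/
  coeff : ℤ → A
  /-- vanishing below some index -/
  bdd : ∃ n : ℤ, ∀ i < n, coeff i = 0

variable {A : Type u} [Ring A] {φ : RingAut A}

/-- `k`-th coefficient of the product: `∑_i a_i φ^i(b_{k-i})`. -/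
noncomputable def mulCoeff (φ : RingAut A) (f g : ℤ → A) (k : ℤ) : A :=
  ∑ᶠ i : ℤ, f i * (φ ^ i) (g (k - i))

lemma mulCoeff_eq (φ : RingAut A) (f g : ℤ → A) (k : ℤ) (s : Finset ℤ)
    (hs : ∀ i ∉ s, f i = 0 ∨ g (k - i) = 0) :
    mulCoeff φ f g k = ∑ i ∈ s, f i * (φ ^ i) (g (k - i)) := by
  unfold mulCoeff
  apply finsum_eq_sum_of_support_subset
  intro i hi
  by_contra hcon
  apply hi
  rcases hs i (by simpa using hcon) with h | h
  · simp [h]
  · simp [h]

lemma mulCoeff_bdd (φ : RingAut A) (f g : ℤ → A) {m n : ℤ} (hf : ∀ i < m, f i = 0)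
    (hg : ∀ i < n, g i = 0) (k : ℤ) (hk : k < m + n) : mulCoeff φ f g k = 0 := by
  rw [mulCoeff_eq φ f g k ∅]
  · simp
  · intro i _
    by_cases h : i < m
    · exact Or.inl (hf i h)
    · exact Or.inr (hg _ (by omega))

instance : Zero (Ser A φ) := ⟨⟨fun _ => 0, 0, fun _ _ => rfl⟩⟩

instance : One (Ser A φ) := ⟨⟨fun i => if i = 0 then 1 else 0, 0, fun i hi => by
  rw [if_neg (by omega)]⟩⟩

instance : Add (Ser A φ) := ⟨fun f g => ⟨fun i => f.coeff i + g.coeff i, by
  obtain ⟨m, hm⟩ := f.bdd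
  obtain ⟨n, hn⟩ := g.bdd
  exact ⟨min m n, fun i hi => by
    rw [hm i (lt_of_lt_of_le hi (min_le_left _ _)), hn i (lt_of_lt_of_le hi (min_le_right _ _)),
      add_zero]⟩⟩⟩

instance : Neg (Ser A φ) := ⟨fun f => ⟨fun i => - f.coeff i, by
  obtain ⟨m, hm⟩ := f.bdd
  exact ⟨m, fun i hi => by rw [hm i hi, neg_zero]⟩⟩⟩

noncomputable instance : Mul (Ser A φ) := ⟨fun f g => ⟨mulCoeff φ f.coeff g.coeff, by
  obtain ⟨m, hm⟩ := f.bdd
  obtain ⟨n, hn⟩ := g.bdd
  exact ⟨m + n, fun i hi => mulCoeff_bdd φ _ _ hm hn i hi⟩⟩⟩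

@[simp] lemma zero_coeff (i : ℤ) : (0 : Ser A φ).coeff i = 0 := rfl
lemma one_coeff (i : ℤ) : (1 : Ser A φ).coeff i = if i = 0 then 1 else 0 := rfl
@[simp] lemma add_coeff (f g : Ser A φ) (i : ℤ) : (f + g).coeff i = f.coeff i + g.coeff i := rfl
@[simp] lemma neg_coeff (f : Ser A φ) (i : ℤ) : (-f).coeff i = - f.coeff i := rfl
lemma mul_coeff (f g : Ser A φ) (k : ℤ) : (f * g).coeff k = mulCoeff φ f.coeff g.coeff k := rfl

lemma mul_coeff_Icc (f g : Ser A φ) {m n : ℤ} (hf : ∀ i < m, f.coeff i = 0)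
    (hg : ∀ i < n, g.coeff i = 0) (k : ℤ) (s : Finset ℤ) (hs : Finset.Icc m (k - n) ⊆ s) :
    (f * g).coeff k = ∑ i ∈ s, f.coeff i * (φ ^ i) (g.coeff (k - i)) := by
  rw [mul_coeff]
  apply mulCoeff_eq
  intro i hi
  have : i ∉ Finset.Icc m (k - n) := fun h => hi (hs h)
  rw [Finset.mem_Icc] at this
  by_cases h : i < m
  · exact Or.inl (hf i h)
  · exact Or.inr (hg _ (by omega))

lemma exists_bound (f : Ser A φ) : ∃ n : ℤ, 0 ≤ n ∧ ∀ i < -n, f.coeff i = 0 := by
  obtain ⟨m, hm⟩ := f.bdd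
  exact ⟨|m|, abs_nonneg m, fun i hi => hm i (lt_of_lt_of_le hi (neg_abs_le m))⟩

private lemma mul_assoc' (f g h : Ser A φ) : f * g * h = f * (g * h) := by
  obtain ⟨a, ha0, ha⟩ := exists_bound f
  obtain ⟨b, hb0, hb⟩ := exists_bound g
  obtain ⟨c, hc0, hc⟩ := exists_bound h
  ext k
  -- the big summation range
  have hfg : ∀ i < -(a + b), (f * g).coeff i = 0 := by
    intro i hi
    exact mulCoeff_bdd φ _ _ ha hb i (by omega)
  have hgh : ∀ i < -(b + c), (g * h).coeff i = 0 := by
    intro i hi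
    exact mulCoeff_bdd φ _ _ hb hc i (by omega)
  set S : Finset ℤ := Finset.Icc (-(a + b + c)) (|k| + a + b + c) with hS
  have hk := le_abs_self k
  have hk' := neg_abs_le k
  rw [mul_coeff_Icc (f * g) h hfg hc k S (by
    intro i hi; simp only [Finset.mem_Icc, hS] at hi ⊢; omega)]
  rw [mul_coeff_Icc f (g * h) ha hgh k S (by
    intro i hi; simp only [Finset.mem_Icc, hS] at hi ⊢; omega)]
  have h1 : ∀ i ∈ S, (f * g).coeff i * (φ ^ i) (h.coeff (k - i)) =
      ∑ j ∈ S, f.coeff j * (φ ^ j) (g.coeff (i - j)) * (φ ^ i) (h.coeff (k - i)) := by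
    intro i hi
    by_cases hik : k - i < -c
    · rw [hc _ hik]; simp
    · rw [mul_coeff_Icc f g ha hb i S (by
        intro j hj; simp only [Finset.mem_Icc, hS] at hj ⊢; omega), Finset.sum_mul]
  have h2 : ∀ j ∈ S, f.coeff j * (φ ^ j) ((g * h).coeff (k - j)) =
      ∑ i ∈ S, f.coeff j * (φ ^ j) (g.coeff (i - j)) * (φ ^ i) (h.coeff (k - i)) := by
    intro j hj
    by_cases hja : j < -a
    · rw [ha _ hja]; simp
    · have h3 : (g * h).coeff (k - j) =
          ∑ l ∈ S.map (Equiv.subRight j).toEmbedding,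
            g.coeff l * (φ ^ l) (h.coeff (k - j - l)) := by
        rw [mul_coeff]
        apply mulCoeff_eq
        intro l hl
        by_cases hlb : l < -b
        · exact Or.inl (hb _ hlb)
        · right
          apply hc
          by_contra hcon
          apply hl
          rw [Finset.mem_map]
          refine ⟨l + j, ?_, by simp⟩
          simp only [Finset.mem_Icc, hS]
          omega
      rw [h3, Finset.sum_map, map_sum, Finset.mul_sum]
      refine Finset.sum_congr rfl fun i _ => ?_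
      simp only [Equiv.toEmbedding_apply, Equiv.subRight_apply]
      rw [map_mul, ← mul_assoc]
      congr 1
      rw [← RingAut.mul_apply, ← zpow_add, show j + (i - j) = i by omega,
        show k - j - (i - j) = k - i by omega]
  rw [Finset.sum_congr rfl h1, Finset.sum_congr rfl h2, Finset.sum_comm]

private lemma left_distrib' (f g h : Ser A φ) : f * (g + h) = f * g + f * h := by
  obtain ⟨a, ha⟩ := f.bdd
  obtain ⟨b, hb⟩ := g.bdd
  obtain ⟨c, hc⟩ := h.bdd
  have hgh : ∀ i < min b c, (g + h).coeff i = 0 := by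
    intro i hi
    rw [add_coeff, hb i (lt_of_lt_of_le hi (min_le_left _ _)),
      hc i (lt_of_lt_of_le hi (min_le_right _ _)), add_zero]
  ext k
  rw [add_coeff, mul_coeff_Icc f (g + h) ha hgh k _ subset_rfl,
    mul_coeff_Icc f g ha hb k (Finset.Icc a (k - min b c)) (by
      intro i hi; simp only [Finset.mem_Icc] at hi ⊢; omega),
    mul_coeff_Icc f h ha hc k (Finset.Icc a (k - min b c)) (by
      intro i hi; simp only [Finset.mem_Icc] at hi ⊢; omega), ← Finset.sum_add_distrib]
  refine Finset.sum_congr rfl fun i _ => ?_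
  rw [add_coeff, map_add, mul_add]

private lemma right_distrib' (f g h : Ser A φ) : (f + g) * h = f * h + g * h := by
  obtain ⟨a, ha⟩ := f.bdd
  obtain ⟨b, hb⟩ := g.bdd
  obtain ⟨c, hc⟩ := h.bdd
  have hfg : ∀ i < min a b, (f + g).coeff i = 0 := by
    intro i hi
    rw [add_coeff, ha i (lt_of_lt_of_le hi (min_le_left _ _)),
      hb i (lt_of_lt_of_le hi (min_le_right _ _)), add_zero]
  ext k
  rw [add_coeff, mul_coeff_Icc (f + g) h hfg hc k _ subset_rfl,
    mul_coeff_Icc f h ha hc k (Finset.Icc (min a b) (k - c)) (by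
      intro i hi; simp only [Finset.mem_Icc] at hi ⊢; omega),
    mul_coeff_Icc g h hb hc k (Finset.Icc (min a b) (k - c)) (by
      intro i hi; simp only [Finset.mem_Icc] at hi ⊢; omega), ← Finset.sum_add_distrib]
  refine Finset.sum_congr rfl fun i _ => ?_
  rw [add_coeff, add_mul]

/-- the monomial `a x^n` -/
def mono (φ : RingAut A) (n : ℤ) (a : A) : Ser A φ :=
  ⟨fun i => if i = n then a else 0, n, fun i hi => by rw [if_neg (by omega)]⟩

lemma mono_coeff (n : ℤ) (a : A) (i : ℤ) : (mono φ n a).coeff i = if i = n then a else 0 := rfl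

lemma mono_mul_coeff (n : ℤ) (a : A) (g : Ser A φ) (k : ℤ) :
    (mono φ n a * g).coeff k = a * (φ ^ n) (g.coeff (k - n)) := by
  rw [mul_coeff, mulCoeff_eq φ _ _ k {n}]
  · simp [mono_coeff]
  · intro i hi
    left
    rw [mono_coeff, if_neg (by simpa using hi)]

lemma mul_mono_coeff (n : ℤ) (a : A) (g : Ser A φ) (k : ℤ) :
    (g * mono φ n a).coeff k = g.coeff (k - n) * (φ ^ (k - n)) a := by
  rw [mul_coeff, mulCoeff_eq φ _ _ k {k - n}]
  · simp [mono_coeff]
  · intro i hi
    right
    rw [mono_coeff, if_neg]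
    intro h
    apply hi
    rw [Finset.mem_singleton]
    omega

lemma one_eq_mono : (1 : Ser A φ) = mono φ 0 1 := rfl

/-- The ring structure on skew Laurent series, with the convention `x a = φ(a) x`. -/
noncomputable instance : Ring (Ser A φ) := Ring.ofMinimalAxioms
  (fun f g h => by ext i; simp [add_assoc])
  (fun f => by ext i; simp)
  (fun f => by ext i; simp)
  mul_assoc'
  (fun f => by ext i; rw [one_eq_mono, mono_mul_coeff]; simp)
  (fun f => by ext i; rw [one_eq_mono, mul_mono_coeff]; simp)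
  left_distrib'
  right_distrib'

lemma add_coeff' (f g : Ser A φ) (i : ℤ) : (f + g).coeff i = f.coeff i + g.coeff i := rfl
lemma zero_coeff' (i : ℤ) : (0 : Ser A φ).coeff i = 0 := rfl

/-- A module is distributive if its lattice of submodules is distributive. -/
def IsDistributiveModule (R : Type*) [Ring R] (M : Type*) [AddCommGroup M] [Module R M] : Prop :=
  ∀ F G H : Submodule R M, F ⊓ (G ⊔ H) = (F ⊓ G) ⊔ (F ⊓ H)

/-- A module is semidistributive if it is the (internal) direct sum of a set of distributive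
submodules. -/
def IsSemidistributiveModule (R : Type*) [Ring R] (M : Type*) [AddCommGroup M] [Module R M] :
    Prop :=
  ∃ S : Set (Submodule R M), sSupIndep S ∧ sSup S = ⊤ ∧ ∀ N ∈ S, IsDistributiveModule R N

/-- A ring is right semidistributive if it is semidistributive as a right module over itself. -/
def IsRightSemidistributive (A : Type*) [Ring A] : Prop := IsSemidistributiveModule Aᵐᵒᵖ A

end Pool.Agent.V114.SkewSer
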