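import Pool.Agent.V114.ClonHigman

/-!
# Fourier analysis on powers of a finite abelian group with values in a module
-/

namespace V114.Clon

open scoped BigOperators

noncomputable section

/-- the character group -/
abbrev Ch (A O : Type*) [AddCommGroup A] [CommRing O] := Multiplicative A →* Oˣ

variable {A O : Type*} [AddCommGroup A] [CommRing O]

def chi {k : ℕ} (α : Fin k → Ch A O) (x : Fin k → A) : O :=
  ∏ i, ((α i (Multiplicative.ofAdd (x i)) : Oˣ) : O)

lemma chi_add {k : ℕ} (α : Fin k → Ch A O) (x y : Fin k → A) :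
    chi α (x + y) = chi α x * chi α y := by
  simp [chi, Finset.prod_mul_distrib]

lemma chi_zero {k : ℕ} (α : Fin k → Ch A O) : chi α (0 : Fin k → A) = 1 := by
  simp [chi]

lemma chi_mul {k : ℕ} (α β : Fin k → Ch A O) (x : Fin k → A) :
    chi (α * β) x = chi α x * chi β x := by
  simp [chi, Finset.prod_mul_distrib]

/-- pushing forward along `φ` : sum over the fibres -/
def push {m n : ℕ} (φ : Fin m → Fin n) (y : Fin m → A) : Fin n → A :=
  fun i => ∑ j, if φ j = i then y j else 0

lemma push_add {m n : ℕ} (φ : Fin m → Fin n) (y z : Fin m → A) :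
    push φ (y + z) = push φ y + push φ z := by
  funext i
  simp only [push, Pi.add_apply]
  rw [← Finset.sum_add_distrib]
  refine Finset.sum_congr rfl fun j _ => ?_
  split_ifs <;> simp

lemma push_zero {m n : ℕ} (φ : Fin m → Fin n) : push φ (0 : Fin m → A) = 0 := by
  funext i
  simp [push]

lemma push_neg {m n : ℕ} (φ : Fin m → Fin n) (y : Fin m → A) : push φ (-y) = - push φ y := by
  have := push_add φ y (-y)
  rw [add_neg_cancel, push_zero] at this
  exact (neg_eq_of_add_eq_zero_right this.symm).symm

lemma push_sub {m n : ℕ} (φ : Fin m → Fin n) (y z : Fin m → A) :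
    push φ (y - z) = push φ y - push φ z := by
  rw [sub_eq_add_neg, push_add, push_neg, ← sub_eq_add_neg]

lemma push_single {m n : ℕ} (φ : Fin m → Fin n) (j : Fin m) (a : A) :
    push φ (Pi.single j a) = Pi.single (φ j) a := by
  funext i
  simp only [push, Pi.single_apply]
  rw [Finset.sum_eq_single j]
  · by_cases h : φ j = i
    · simp [h]
    · simp [h, Ne.symm h]
  · intro b _ hb
    simp [hb]
  · simp

lemma chi_push {m n : ℕ} (φ : Fin m → Fin n) (α : Fin n → Ch A O) (y : Fin m → A) :
    chi α (push φ y) = chi (α ∘ φ) y := by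
  have h1 : ∀ i, ((α i (Multiplicative.ofAdd (push φ y i)) : Oˣ) : O) =
      ∏ j, if φ j = i then ((α i (Multiplicative.ofAdd (y j)) : Oˣ) : O) else 1 := by
    intro i
    rw [push, ofAdd_sum, map_prod, Units.coe_prod]
    refine Finset.prod_congr rfl fun j _ => ?_
    split_ifs <;> simp
  simp only [chi, h1]
  rw [Finset.prod_comm]
  refine Finset.prod_congr rfl fun j _ => ?_
  rw [Finset.prod_ite_eq]
  simp

section dual

variable [IsDomain O] [Finite A] [Fintype (Ch A O)]

lemma sum_chi {k : ℕ} (x : Fin k → A) (hx : x ≠ 0)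
    (hsep : ∀ a : A, a ≠ 0 → ∃ φ : Ch A O, φ (Multiplicative.ofAdd a) ≠ 1) :
    ∑ α : Fin k → Ch A O, chi α x = 0 := by
  classical
  obtain ⟨i, hi⟩ := Function.ne_iff.1 hx
  obtain ⟨α₀, hα₀⟩ := hsep (x i) hi
  have h1 : chi (Pi.mulSingle i α₀ : Fin k → Ch A O) x =
      ((α₀ (Multiplicative.ofAdd (x i)) : Oˣ) : O) := by
    rw [chi, Finset.prod_eq_single i]
    · simp
    · intro b _ hb
      rw [Pi.mulSingle_eq_of_ne hb]
      simp
    · simp
  have h2 : ∑ α : Fin k → Ch A O, chi α x =
      (∑ α : Fin k → Ch A O, chi α x) * ((α₀ (Multiplicative.ofAdd (x i)) : Oˣ) : O) := by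
    rw [← h1, Finset.sum_mul]
    rw [← Equiv.sum_comp (Equiv.mulRight (Pi.mulSingle i α₀ : Fin k → Ch A O))]
    refine Finset.sum_congr rfl fun α _ => ?_
    rw [Equiv.coe_mulRight, chi_mul]
  have h3 : (∑ α : Fin k → Ch A O, chi α x) *
      (1 - ((α₀ (Multiplicative.ofAdd (x i)) : Oˣ) : O)) = 0 := by
    rw [mul_sub, mul_one, ← h2, sub_self]
  rcases mul_eq_zero.1 h3 with h | h
  · exact h
  · exfalso
    apply hα₀
    rw [sub_eq_zero] at h
    exact Units.ext h.symm

end dual

variable {M : Type*} [AddCommGroup M] [Module O M] [Fintype A]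

/-- The Fourier transform -/
def FT (k : ℕ) : ((Fin k → A) → M) →+ ((Fin k → Ch A O) → M) where
  toFun f := fun α => ∑ x, chi α (-x) • f x
  map_zero' := by funext α; simp
  map_add' f g := by
    funext α
    simp [Finset.sum_add_distrib]

lemma FT_apply {k : ℕ} (f : (Fin k → A) → M) (α : Fin k → Ch A O) :
    FT k f α = ∑ x, chi α (-x) • f x := rfl

lemma FT_inj [IsDomain O] [Fintype (Ch A O)]
    (hsep : ∀ a : A, a ≠ 0 → ∃ φ : Ch A O, φ (Multiplicative.ofAdd a) ≠ 1)
    (hM : ∀ m : M, Fintype.card (Ch A O) • m = 0 → m = 0) {k : ℕ} (f : (Fin k → A) → M)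
    (h : FT (O := O) k f = 0) : f = 0 := by
  classical
  funext x
  have h1 : ∑ α : Fin k → Ch A O, chi α x • FT (O := O) k f α = 0 := by
    rw [h]; simp
  have h2 : ∑ α : Fin k → Ch A O, chi α x • FT (O := O) k f α =
      ∑ y, (∑ α : Fin k → Ch A O, chi α (x - y)) • f y := by
    simp only [FT_apply, Finset.smul_sum]
    rw [Finset.sum_comm]
    refine Finset.sum_congr rfl fun y _ => ?_
    rw [Finset.sum_smul]
    refine Finset.sum_congr rfl fun α _ => ?_
    rw [smul_smul, ← chi_add, sub_eq_add_neg]
  rw [h2, Finset.sum_eq_single x] at h1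
  · rw [sub_self] at h1
    have h3 : ∑ α : Fin k → Ch A O, chi α (0 : Fin k → A) =
        ((Fintype.card (Ch A O) ^ k : ℕ) : O) := by
      simp [chi_zero]
    rw [h3, Nat.cast_smul_eq_nsmul] at h1
    have h4 : ∀ (l : ℕ) (m : M), Fintype.card (Ch A O) ^ l • m = 0 → m = 0 := by
      intro l
      induction l with
      | zero => intro m hm; simpa using hm
      | succ l ih =>
        intro m hm
        rw [pow_succ, mul_comm, mul_smul] at hm
        exact ih m (hM _ hm)
    exact h4 k _ h1
  · intro y _ hy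
    rw [sum_chi _ (sub_ne_zero.2 (Ne.symm hy)) hsep, zero_smul]
  · simp

/-- root-of-unity argument -/
lemma eq_zero_of_root [IsDomain O] (e : ℕ) (hM : ∀ m : M, e • m = 0 → m = 0) (η : O)
    (hη : η ^ e = 1) (hη1 : η ≠ 1) (m : M) (h : η • m = m) : m = 0 := by
  have h1 : ∑ k ∈ Finset.range e, η ^ k = 0 := by
    have := mul_geom_sum η e
    rw [hη, sub_self] at this
    rcases mul_eq_zero.1 this with h | h
    · exact absurd (sub_eq_zero.1 h) hη1
    · exact h
  have h2 : ∀ k : ℕ, η ^ k • m = m := by
    intro k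
    induction k with
    | zero => simp
    | succ k ih => rw [pow_succ, mul_smul, h, ih]
  have h3 : (∑ k ∈ Finset.range e, η ^ k) • m = e • m := by
    rw [Finset.sum_smul, Finset.sum_congr rfl (fun k _ => h2 k)]
    simp
  rw [h1, zero_smul] at h3
  exact hM m h3.symm

lemma FT_push_of_ne [IsDomain O] {m n : ℕ} (e : Fin n ↪o Fin m) (φ : Fin m → Fin n)
    (h1 : ∀ i, φ (e i) = i) (N : ℕ) (hN : ∀ a : A, N • a = 0)
    (hM : ∀ m : M, N • m = 0 → m = 0)
    (f : (Fin n → A) → M) (β : Fin m → Ch A O) (hβ : β ≠ (β ∘ e) ∘ φ) :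
    FT m (fun y => f (push φ y)) β = 0 := by
  classical
  obtain ⟨j, hj⟩ := Function.ne_iff.1 hβ
  simp only [Function.comp_apply] at hj
  set j' := e (φ j) with hj'
  have hjj' : j ≠ j' := by
    intro hcon
    apply hj
    rw [← hcon]
  obtain ⟨a, ha⟩ := DFunLike.ne_iff.1 hj
  have hφ : φ j' = φ j := by rw [hj', h1]
  let y0 : Fin m → A := Pi.single j a.toAdd - Pi.single j' a.toAdd
  have hy0 : push φ y0 = 0 := by
    simp only [y0]
    rw [push_sub, push_single, push_single, hφ, sub_self]
  have htr : FT m (fun y => f (push φ y)) β = chi β (-y0) • FT m (fun y => f (push φ y)) β := by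
    conv_lhs => rw [FT_apply]
    rw [FT_apply, Finset.smul_sum, ← Equiv.sum_comp (Equiv.addRight y0)]
    refine Finset.sum_congr rfl fun y _ => ?_
    rw [Equiv.coe_addRight, push_add, hy0, add_zero, smul_smul, ← chi_add]
    rw [neg_add, add_comm (-y) (-y0)]
  refine eq_zero_of_root N hM (chi β (-y0)) ?_ ?_ _ htr.symm
  · have : ∀ l : ℕ, chi β (-y0) ^ l = chi β (l • (-y0)) := by
      intro l
      induction l with
      | zero => simp [chi_zero]
      | succ l ih => rw [pow_succ, ih, ← chi_add, succ_nsmul]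
    rw [this]
    have : N • (-y0) = 0 := by
      funext i
      simp only [Pi.smul_apply, Pi.zero_apply]
      exact hN _
    rw [this, chi_zero]
  · intro hcon
    apply ha
    have hc : chi β y0 = 1 := by
      have h2 : chi β (y0 + -y0) = 1 := by rw [add_neg_cancel, chi_zero]
      rw [chi_add, hcon, mul_one] at h2
      exact h2
    have hs : ∀ (i : Fin m) (b : A), chi β (Pi.single i b) =
        ((β i (Multiplicative.ofAdd b) : Oˣ) : O) := by
      intro i b
      rw [chi, Finset.prod_eq_single i]
      · simp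
      · intro b _ hb
        rw [Pi.single_eq_of_ne hb]
        simp
      · simp
    have h3 : chi β (Pi.single j a.toAdd) = chi β (Pi.single j' a.toAdd) := by
      have : (Pi.single j a.toAdd : Fin m → A) = y0 + Pi.single j' a.toAdd := by
        simp [y0]
      rw [this, chi_add, hc, one_mul]
    rw [hs, hs] at h3
    exact Units.ext h3

/-- The kernel-fibre count. -/
lemma exists_card {m n : ℕ} (e : Fin n ↪o Fin m) (φ : Fin m → Fin n)
    (h1 : ∀ i, φ (e i) = i) : ∃ c : ℕ, c ∣ Fintype.card A ^ m ∧
      ∀ (f : (Fin n → A) → M) (α : Fin n → Ch A O),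
        FT m (fun y => f (push φ y)) (α ∘ φ) = c • FT n f α := by
  classical
  let K := {y : Fin m → A // push φ y = 0}
  let sec : (Fin n → A) → (Fin m → A) := fun x => ∑ i, Pi.single (e i) (x i)
  have hpsum : ∀ (s : Finset (Fin n)) (g : Fin n → Fin m → A),
      push φ (∑ i ∈ s, g i) = ∑ i ∈ s, push φ (g i) := by
    intro s g
    induction s using Finset.induction_on with
    | empty => simp [push_zero]
    | insert a s ha ih => rw [Finset.sum_insert ha, Finset.sum_insert ha, push_add, ih]
  have hsec : ∀ x, push φ (sec x) = x := by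
    intro x
    simp only [sec]
    rw [hpsum]
    simp only [push_single, h1]
    funext i
    rw [Finset.sum_apply]
    simp [Pi.single_apply]
  let E : (Fin m → A) ≃ K × (Fin n → A) :=
    { toFun := fun y => (⟨y - sec (push φ y), by rw [push_sub, hsec, sub_self]⟩, push φ y)
      invFun := fun p => p.1.1 + sec p.2
      left_inv := fun y => by simp
      right_inv := fun p => by
        obtain ⟨⟨z, hz⟩, x⟩ := p
        have : push φ (z + sec x) = x := by rw [push_add, hz, hsec, zero_add]
        ext1
        · simp only [this]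
          ext1
          simp
        · exact this }
  refine ⟨Fintype.card K, ⟨Fintype.card (Fin n → A), ?_⟩, fun f α => ?_⟩
  · have := Fintype.card_congr E
    rw [Fintype.card_prod] at this
    rw [← this]
    simp
  · rw [FT_apply, FT_apply]
    have h2 : ∀ y, chi (α ∘ φ) (-y) • f (push φ y) = chi α (-(push φ y)) • f (push φ y) := by
      intro y
      rw [← chi_push, push_neg]
    simp only [h2]
    rw [← E.symm.sum_comp, Fintype.sum_prod_type]
    have h3 : ∀ (z : K) (x : Fin n → A), push φ (E.symm (z, x)) = x := by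
      intro z x
      show push φ (z.1 + sec x) = x
      rw [push_add, z.2, hsec, zero_add]
    simp only [h3]
    simp

end

end V114.Clon
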