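import Mathlib

/-!
# Combinatorics for clonoids: Higman's lemma for words under first-occurrence preserving
embeddings, and a stabilisation lemma.
-/

namespace V114.Clon

/-- `w ≤ w'`: the word `w'` is of the form `w ∘ φ` for an ordered surjection `φ`. -/
def Emb {S : Type*} {n m : ℕ} (w : Fin n → S) (w' : Fin m → S) : Prop :=
  ∃ (e : Fin n ↪o Fin m) (φ : Fin m → Fin n),
    (∀ i, φ (e i) = i) ∧ (∀ j, e (φ j) ≤ j) ∧ ∀ j, w' j = w (φ j)

/-- the decorated list of a word -/
def deco {S D : Type*} {n : ℕ} (w : Fin n → S) (d : D) : List (S × Set S × Set S × D) :=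
  List.ofFn fun i => (w i, w '' {j | j < i}, Set.range w, d)

lemma emb_of_sublist {S D : Type*} {n m : ℕ} (w : Fin (n+1) → S) (w' : Fin (m+1) → S) (d d' : D)
    (h : (deco w d).Sublist (deco w' d')) : Emb w w' ∧ d = d' := by
  rw [List.sublist_iff_exists_fin_orderEmbedding_get_eq] at h
  obtain ⟨f, hf⟩ := h
  have hl : (deco w d).length = n + 1 := by simp [deco]
  have hl' : (deco w' d').length = m + 1 := by simp [deco]
  let e : Fin (n+1) ↪o Fin (m+1) :=
    ((Fin.castOrderIso hl.symm).toOrderEmbedding.trans f).trans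
      (Fin.castOrderIso hl').toOrderEmbedding
  have he : ∀ i, (w i, w '' {j | j < i}, Set.range w, d) =
      (w' (e i), w' '' {j | j < e i}, Set.range w', d') := by
    intro i
    have := hf (Fin.cast hl.symm i)
    simp only [deco] at this
    rw [List.get_ofFn, List.get_ofFn] at this
    exact this
  have h1 : ∀ i, w i = w' (e i) := fun i => (Prod.ext_iff.1 (he i)).1
  have h2 : ∀ i, w '' {j | j < i} = w' '' {j | j < e i} := fun i =>
    (Prod.ext_iff.1 (Prod.ext_iff.1 (he i)).2).1
  have h3 : Set.range w = Set.range w' :=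
    (Prod.ext_iff.1 (Prod.ext_iff.1 (Prod.ext_iff.1 (he 0)).2).2).1
  have h4 : d = d' := (Prod.ext_iff.1 (Prod.ext_iff.1 (Prod.ext_iff.1 (he 0)).2).2).2
  refine ⟨?_, h4⟩
  -- for each `j` choose `φ j`
  have key : ∀ j : Fin (m+1), ∃ i : Fin (n+1), (∀ i', e i' = j → i = i') ∧ e i ≤ j ∧
      w' j = w i := by
    intro j
    by_cases hj : ∃ i, e i = j
    · obtain ⟨i, rfl⟩ := hj
      exact ⟨i, fun i' hi' => (e.injective hi').symm, le_rfl, (h1 i).symm⟩
    · by_cases hk : ∃ i, j < e i
      · -- take the least such `i`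
        classical
        let s := Finset.univ.filter fun i => j < e i
        have hs : s.Nonempty := by
          obtain ⟨i, hi⟩ := hk
          exact ⟨i, by simp [s, hi]⟩
        let i := s.min' hs
        have hi : j < e i := by
          have := s.min'_mem hs
          simpa [s] using this
        have hmem : w' j ∈ w '' {j | j < i} := by
          rw [h2 i]
          exact ⟨j, hi, rfl⟩
        obtain ⟨k, hk1, hk2⟩ := hmem
        refine ⟨k, fun i' hi' => absurd ⟨i', hi'⟩ hj, ?_, hk2.symm⟩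
        by_contra hcon
        have : k ∈ s := by simpa [s] using hcon
        exact absurd (s.min'_le k this) (not_le.2 hk1)
      · push Not at hk
        have hmem : w' j ∈ Set.range w := by
          rw [h3]; exact ⟨j, rfl⟩
        obtain ⟨k, hk2⟩ := hmem
        exact ⟨k, fun i' hi' => absurd ⟨i', hi'⟩ hj, hk k, hk2.symm⟩
  choose φ hφ1 hφ2 hφ3 using key
  exact ⟨e, φ, fun i => hφ1 (e i) i rfl, hφ2, hφ3⟩

/-- The wqo property. -/
lemma exists_emb {S D : Type*} [Finite S] [Finite D] (n : ℕ → ℕ) (w : ∀ k, Fin (n k + 1) → S)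
    (d : ℕ → D) : ∃ k l, k < l ∧ Emb (w k) (w l) ∧ d k = d l := by
  have hfin : (Set.univ : Set (S × Set S × Set S × D)).PartiallyWellOrderedOn (· = ·) :=
    Set.Finite.partiallyWellOrderedOn Set.finite_univ
  have hpre : IsPreorder (S × Set S × Set S × D) (· = ·) := inferInstance
  have := Set.PartiallyWellOrderedOn.partiallyWellOrderedOn_sublistForall₂ (· = ·) hfin
  obtain ⟨k, l, hkl, h⟩ := this (fun k => ⟨deco (w k) (d k), by simp⟩)
  change List.SublistForall₂ (· = ·) (deco (w k) (d k)) (deco (w l) (d l)) at h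
  rw [List.sublistForall₂_iff] at h
  obtain ⟨l', hl', hs⟩ := h
  rw [List.forall₂_eq_eq_eq] at hl'
  subst hl'
  exact ⟨k, l, hkl, emb_of_sublist _ _ _ _ hs⟩

/-- Stabilisation lemma, ascending version. -/
lemma stable {S M : Type*} [Finite S] [Finite M] (Φ : ℕ → ∀ n, (Fin (n+1) → S) → Set M)
    (h1 : ∀ i j n w, i ≤ j → Φ i n w ⊆ Φ j n w)
    (h2 : ∀ i n m (w : Fin (n+1) → S) (w' : Fin (m+1) → S), Emb w w' → Φ i n w ⊆ Φ i m w') :
    ∃ i, ∀ j, i ≤ j → ∀ n w, Φ j n w ⊆ Φ i n w := by
  by_contra hcon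
  push Not at hcon
  choose g hg n w hw using hcon
  let t : ℕ → ℕ := fun k => g^[k] 0
  have ht : ∀ k, t (k+1) = g (t k) := fun k => Function.iterate_succ_apply' g k 0
  have htm : ∀ k l, k ≤ l → t k ≤ t l := by
    intro k l hkl
    induction l, hkl using Nat.le_induction with
    | base => exact le_rfl
    | succ l _ ih => rw [ht]; exact ih.trans (hg _)
  obtain ⟨k, l, hkl, hemb, hd⟩ := exists_emb (fun k => n (t k)) (fun k => w (t k))
    (fun k => Φ (t (k+1)) _ (w (t k)))
  refine hw (t l) ?_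
  rw [← ht, ← hd]
  exact (h1 _ _ _ _ (htm _ _ hkl)).trans (h2 _ _ _ _ _ hemb)

/-- Stabilisation lemma, descending version. -/
lemma stable' {S M : Type*} [Finite S] [Finite M] (Φ : ℕ → ∀ n, (Fin (n+1) → S) → Set M)
    (h1 : ∀ i j n w, i ≤ j → Φ j n w ⊆ Φ i n w)
    (h2 : ∀ i n m (w : Fin (n+1) → S) (w' : Fin (m+1) → S), Emb w w' → Φ i m w' ⊆ Φ i n w) :
    ∃ i, ∀ j, i ≤ j → ∀ n w, Φ i n w ⊆ Φ j n w := by
  obtain ⟨i, hi⟩ := stable (fun i n w => (Φ i n w)ᶜ)
    (fun i j n w hij => Set.compl_subset_compl.2 (h1 i j n w hij))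
    (fun i n m w w' h => Set.compl_subset_compl.2 (h2 i n m w w' h))
  exact ⟨i, fun j hij n w => Set.compl_subset_compl.1 (hi j hij n w)⟩

/-- lexicographic compatibility -/
lemma Emb.lex {S : Type*} [LinearOrder S] {n m : ℕ} (e : Fin n ↪o Fin m) (φ : Fin m → Fin n)
    (h1 : ∀ i, φ (e i) = i) (h2 : ∀ j, e (φ j) ≤ j) (v w : Fin n → S)
    (h : toLex v < toLex w) : toLex (v ∘ φ) < toLex (w ∘ φ) := by
  obtain ⟨i, hi, hlt⟩ := h
  refine ⟨e i, fun j hj => ?_, ?_⟩
  · have : φ j < i := by
      rw [← e.lt_iff_lt]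
      exact (h2 j).trans_lt hj
    exact hi _ this
  · show v (φ (e i)) < w (φ (e i))
    rw [h1]
    exact hlt

/-- Leading-term lemma. -/
lemma lead {W F M : Type*} [LinearOrder W] [Finite W] [AddCommGroup F] [AddCommGroup M]
    (G G' : AddSubgroup F) (hle : G ≤ G') (T : F →+ (W → M)) (hT : ∀ f, T f = 0 → f = 0)
    (h : ∀ w, ∀ f ∈ G', (∀ v, v < w → T f v = 0) →
      ∃ g ∈ G, (∀ v, v < w → T g v = 0) ∧ T g w = T f w) : G = G' := by
  classical
  have step : ∀ f ∈ G', (∀ w', (∀ v, v < w' → T f v = 0) → T f w' ≠ 0 → f ∈ G) → f ∈ G := by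
    intro f hf hw
    by_cases h0 : T f = 0
    · rw [hT f h0]; exact G.zero_mem
    · obtain ⟨w0, hw0⟩ := Function.ne_iff.1 h0
      have hwf : WellFounded ((· < ·) : W → W → Prop) := (Finite.to_wellFoundedLT (α := W)).wf
      let s : Set W := {w | T f w ≠ 0}
      have hs : s.Nonempty := ⟨w0, hw0⟩
      refine hw (hwf.min s hs) (fun v hv => ?_) (hwf.min_mem s hs)
      by_contra hne
      exact hwf.not_lt_min s hne hv
  have hP : ∀ w, ∀ f ∈ G', (∀ v, v < w → T f v = 0) → f ∈ G := by
    intro w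
    have hwf : WellFounded ((· > ·) : W → W → Prop) := (Finite.to_wellFoundedGT (α := W)).wf
    induction w using hwf.induction with
    | _ w ih =>
      intro f hf hv
      obtain ⟨g, hg, hg1, hg2⟩ := h w f hf hv
      have hfg : f - g ∈ G := by
        refine step (f - g) (G'.sub_mem hf (hle hg)) fun w' hw' hne => ?_
        refine ih w' ?_ (f - g) (G'.sub_mem hf (hle hg)) hw'
        by_contra hcon
        rcases lt_or_eq_of_le (not_lt.1 hcon) with h1 | h1
        · apply hne
          rw [map_sub, Pi.sub_apply, hv _ h1, hg1 _ h1, sub_zero]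
        · apply hne
          rw [h1, map_sub, Pi.sub_apply, hg2, sub_self]
      have := G.add_mem hfg hg
      simpa using this
  refine le_antisymm hle fun f hf => step f hf fun w' hw' _ => hP w' f hf hw'

end V114.Clon
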