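import Pool.Agent.V114.ClonFourier

/-!
# A coefficient ring with enough roots of unity
-/

namespace V114.Clon

open Polynomial TensorProduct

universe u v

lemma exists_good (A : Type u) (B : Type v) [AddCommGroup A] [AddCommGroup B] [Finite A]
    [Finite B] : ∃ (O : Type) (_ : CommRing O) (_ : IsDomain O) (M : Type v) (_ : AddCommGroup M)
      (_ : Module O M) (ι : B →+ M), Finite M ∧ Function.Injective ι ∧
      (∀ m : M, Nat.card B • m = 0) ∧ Finite (Ch A O) ∧
      (∀ a : A, a ≠ 0 → ∃ φ : Ch A O, φ (Multiplicative.ofAdd a) ≠ 1) ∧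
      Nat.card (Ch A O) = Nat.card A := by
  classical
  let e : ℕ := Monoid.exponent (Multiplicative A)
  have he : 0 < e := Nat.pos_of_ne_zero Monoid.exponent_ne_zero_of_finite
  have : NeZero e := ⟨he.ne'⟩
  let P : ℤ[X] := cyclotomic e ℤ
  have hP : P.Monic := cyclotomic.monic e ℤ
  have hirr : Irreducible P := cyclotomic.irreducible he
  have hpr : Fact (Irreducible P) := ⟨hirr⟩
  let O := AdjoinRoot P
  have : IsDomain O := AdjoinRoot.isDomain_of_prime hirr.prime
  have hfree : Module.Free ℤ O := hP.free_adjoinRoot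
  have hfin : Module.Finite ℤ O := hP.finite_adjoinRoot
  have hinj : Function.Injective (algebraMap ℤ O) := FaithfulSMul.algebraMap_injective ℤ O
  have : CharZero O := charZero_of_injective_algebraMap hinj
  let ζ : O := AdjoinRoot.root P
  have hζ : IsPrimitiveRoot ζ e := by
    have h1 : (cyclotomic e O).IsRoot ζ := by
      have h2 := AdjoinRoot.isRoot_root P
      rw [show P = cyclotomic e ℤ from rfl, map_cyclotomic] at h2
      exact h2
    exact isRoot_cyclotomic_iff.1 h1
  have : HasEnoughRootsOfUnity O e := ⟨⟨ζ, hζ⟩, inferInstance⟩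
  let d := Module.finrank ℤ O
  let b : Module.Basis (Fin d) ℤ O := Module.finBasis ℤ O
  let eq : (O ⊗[ℤ] B) ≃ₗ[ℤ] (Fin d →₀ B) := TensorProduct.equivFinsuppOfBasisLeft b
  refine ⟨O, inferInstance, inferInstance, O ⊗[ℤ] B, inferInstance, inferInstance,
    (TensorProduct.mk ℤ O B 1).toAddMonoidHom, ?_, ?_, ?_, ?_, ?_, ?_⟩
  · have : Finite (Fin d →₀ B) := Finite.of_injective _ (DFunLike.coe_injective (F := Fin d →₀ B))
    exact Finite.of_equiv _ eq.toEquiv.symm
  · exact Module.FaithfullyFlat.tensorProduct_mk_injective (A := ℤ) (B := O) B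
  · intro m
    induction m using TensorProduct.induction_on with
    | zero => simp
    | tmul x y =>
      rw [← TensorProduct.tmul_smul]
      rw [card_nsmul_eq_zero', TensorProduct.tmul_zero]
    | add x y hx hy => rw [smul_add, hx, hy, add_zero]
  · have := (CommGroup.monoidHom_mulEquiv_of_hasEnoughRootsOfUnity (Multiplicative A) O).some
    exact Finite.of_equiv _ this.toEquiv.symm
  · intro a ha
    exact CommGroup.exists_apply_ne_one_of_hasEnoughRootsOfUnity (Multiplicative A) O
      (by simpa using ha)
  · rw [CommGroup.card_monoidHom_of_hasEnoughRootsOfUnity]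
    exact Nat.card_congr Multiplicative.toAdd

end V114.Clon
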