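import Mathlib
import Pool.Agent.H63Fed.Miranda

open Set

namespace Pool.Agent.V114.Cross

/-- clamping to `[0, 1]` -/
noncomputable def cl (s : ℝ) : ℝ := max 0 (min s 1)

lemma cl_cont : Continuous cl := by unfold cl; fun_prop

lemma cl_mem (s : ℝ) : 0 ≤ cl s ∧ cl s ≤ 1 := by
  unfold cl
  exact ⟨le_max_left _ _, max_le (by norm_num) (min_le_right _ _)⟩

lemma cl_of_le {s : ℝ} (h : s ≤ 0) : cl s = 0 := by
  unfold cl
  exact max_eq_left ((min_le_left _ _).trans h)

lemma cl_of_ge {s : ℝ} (h : 1 ≤ s) : cl s = 1 := by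
  unfold cl
  rw [min_eq_right h]; norm_num

lemma cl_of_mem {s : ℝ} (h0 : 0 ≤ s) (h1 : s ≤ 1) : cl s = s := by
  unfold cl
  rw [min_eq_left h1, max_eq_right h0]

/-- Key lemma: two arcs from `(0,0)` to `(1,0)` in the upper half plane.  If the arc `g` is
disjoint from the arc `κ`, `g` is at least as high as `κ`, and `g` can be seen from `(1/2, 0)`
without crossing `κ`, we have a contradiction. -/
lemma key (κ1 κ2 g1 g2 : ℝ → ℝ) (hκ1 : Continuous κ1) (hκ2 : Continuous κ2)
    (hg1 : Continuous g1) (hg2 : Continuous g2)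
    (k10 : κ1 0 = 0) (k11 : κ1 1 = 1) (k20 : κ2 0 = 0) (k21 : κ2 1 = 0)
    (kpos : ∀ s, 0 < s → s < 1 → 0 < κ2 s)
    (gpos : ∀ s, 0 < s → s < 1 → 0 < g2 s)
    (p τ y : ℝ) (hp0 : 0 < p) (hp1 : p < 1) (hτ0 : 0 < τ) (hτ1 : τ < 1)
    (hmax : ∀ s, 0 ≤ s → s ≤ 1 → κ2 s ≤ g2 τ)
    (hgp1 : g1 p = 1 / 2) (hgp2 : g2 p = y)
    (hsee : ∀ s, 0 < s → s < 1 → κ1 s = 1 / 2 → κ2 s ≤ y → False)
    (hdisj : ∀ s u, 0 < s → s < 1 → 0 < u → u < 1 → κ1 s = g1 u → κ2 s = g2 u → False) :
    False := by
  have hy : 0 < y := hgp2 ▸ gpos p hp0 hp1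
  -- the reparametrisation of the middle part
  set ℓ : ℝ → ℝ := fun u => p + u * (τ - p) with hℓ
  have hℓmem : ∀ u, 0 ≤ u → u ≤ 1 → 0 < ℓ u ∧ ℓ u < 1 := by
    intro u hu0 hu1
    simp only [hℓ]
    constructor
    · have : p + u * (τ - p) = (1 - u) * p + u * τ := by ring
      rw [this]
      rcases eq_or_lt_of_le hu0 with h | h
      · rw [← h]; simpa using hp0
      · have h1 : 0 ≤ (1 - u) * p := mul_nonneg (by linarith) hp0.le
        have h2 : 0 < u * τ := mul_pos h hτ0
        linarith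
    · have : 1 - (p + u * (τ - p)) = (1 - u) * (1 - p) + u * (1 - τ) := by ring
      have h3 : 0 < 1 - (p + u * (τ - p)) := by
        rw [this]
        rcases eq_or_lt_of_le hu0 with h | h
        · rw [← h]; simp; linarith
        · have h1 : 0 ≤ (1 - u) * (1 - p) := mul_nonneg (by linarith) (by linarith)
          have h2 : 0 < u * (1 - τ) := mul_pos h (by linarith)
          linarith
      linarith
  set α1 : ℝ → ℝ := fun t => g1 (ℓ (cl t)) with hα1
  set α2 : ℝ → ℝ := fun t => g2 (ℓ (cl t)) + (y * min t 0 + max (t - 1) 0) with hα2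
  have hℓc : Continuous ℓ := by simp only [hℓ]; fun_prop
  have hα1c : Continuous α1 := hg1.comp (hℓc.comp cl_cont)
  have hα2c : Continuous α2 := by
    refine (hg2.comp (hℓc.comp cl_cont)).add ?_
    fun_prop
  -- bound of α1
  obtain ⟨M, hM⟩ : ∃ M : ℝ, ∀ t, |α1 t| ≤ M := by
    have hc : IsCompact (Icc (0 : ℝ) 1) := isCompact_Icc
    obtain ⟨M, hM⟩ := hc.exists_bound_of_continuousOn (f := fun u => g1 (ℓ u))
      (hg1.comp hℓc).continuousOn
    refine ⟨M, fun t => ?_⟩
    have := hM (cl t) ⟨(cl_mem t).1, (cl_mem t).2⟩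
    simpa [hα1] using this
  have hM0 : 0 ≤ M := (abs_nonneg _).trans (hM 0)
  set S : (Fin 2 → ℝ) → ℝ := fun x => -1 + 3 * x 0 with hS
  set T : (Fin 2 → ℝ) → ℝ := fun x => -1 + 3 * x 1 with hT
  have hSc : Continuous S := by simp only [hS]; fun_prop
  have hTc : Continuous T := by simp only [hT]; fun_prop
  set β1 : ℝ → ℝ := fun s => κ1 (cl s) + M * (s - cl s) with hβ1
  set β2 : ℝ → ℝ := fun s => κ2 (cl s) with hβ2
  have hβ1c : Continuous β1 := by
    refine (hκ1.comp cl_cont).add ?_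
    exact continuous_const.mul (continuous_id.sub cl_cont)
  have hβ2c : Continuous β2 := hκ2.comp cl_cont
  have kpos' : ∀ s, 0 ≤ s → s ≤ 1 → 0 ≤ κ2 s := by
    intro s h0 h1
    rcases eq_or_lt_of_le h0 with h | h
    · rw [← h, k20]
    rcases eq_or_lt_of_le h1 with h' | h'
    · rw [h', k21]
    exact (kpos s h h').le
  obtain ⟨x, hx, hzero⟩ := H63Fed.Miranda.poincare_miranda 2
    (fun x => ![β1 (S x) - α1 (T x), α2 (T x) - β2 (S x)])
    (by
      refine Continuous.continuousOn ?_
      refine continuous_pi (fun i => ?_)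
      fin_cases i
      · exact (hβ1c.comp hSc).sub (hα1c.comp hTc)
      · exact (hα2c.comp hTc).sub (hβ2c.comp hSc))
    (by
      intro x hx i hi
      fin_cases i
      · have hi' : x 0 = 0 := hi
        have h1 : S x = -1 := by simp [hS, hi']
        have h2 : cl (-1) = 0 := cl_of_le (by norm_num)
        have h3 := (abs_le.1 (hM (T x))).1
        simp only [Fin.zero_eta, Matrix.cons_val_zero, h1, hβ1, h2, k10]
        linarith
      · have hi' : x 1 = 0 := hi
        have h1 : T x = -1 := by simp [hT, hi']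
        have h2 : cl (-1) = 0 := cl_of_le (by norm_num)
        have h3 : α2 (T x) = 0 := by
          simp only [h1, hα2, h2, hℓ]
          rw [min_eq_left (by norm_num), max_eq_right (by norm_num)]
          simp [hgp2]
        have h4 := kpos' _ (cl_mem (S x)).1 (cl_mem (S x)).2
        simp only [Fin.mk_one, Matrix.cons_val_one, Matrix.cons_val_fin_one, h3, hβ2]
        linarith)
    (by
      intro x hx i hi
      fin_cases i
      · have hi' : x 0 = 1 := hi
        have h1 : S x = 2 := by simp [hS, hi']; norm_num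
        have h2 : cl 2 = 1 := cl_of_ge (by norm_num)
        have h3 := (abs_le.1 (hM (T x))).2
        simp only [Fin.zero_eta, Matrix.cons_val_zero, h1, hβ1, h2, k11]
        linarith
      · have hi' : x 1 = 1 := hi
        have h1 : T x = 2 := by simp [hT, hi']; norm_num
        have h2 : cl 2 = 1 := cl_of_ge (by norm_num)
        have h3 : α2 (T x) = g2 τ + 1 := by
          simp only [h1, hα2, h2, hℓ]
          rw [min_eq_right (by norm_num), max_eq_left (by norm_num)]
          have : p + 1 * (τ - p) = τ := by ring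
          rw [this]; norm_num
        have h4 := hmax _ (cl_mem (S x)).1 (cl_mem (S x)).2
        simp only [Fin.mk_one, Matrix.cons_val_one, Matrix.cons_val_fin_one, h3, hβ2]
        linarith)
  have z1 : β1 (S x) = α1 (T x) := by
    have := congrFun hzero 0
    simp at this
    linarith
  have z2 : α2 (T x) = β2 (S x) := by
    have := congrFun hzero 1
    simp at this
    linarith
  set s := S x with hs
  set t := T x with ht
  -- if the height is positive then `s` is inside
  have hin : 0 < β2 s → 0 < s ∧ s < 1 := by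
    intro h
    constructor
    · by_contra hc
      push Not at hc
      simp only [hβ2, cl_of_le hc, k20] at h
      exact lt_irrefl _ h
    · by_contra hc
      push Not at hc
      simp only [hβ2, cl_of_ge hc, k21] at h
      exact lt_irrefl _ h
  rcases le_or_gt t 0 with htn | htp
  · have a1 : α1 t = 1 / 2 := by
      simp only [hα1, cl_of_le htn, hℓ]
      simp [hgp1]
    have a2 : α2 t = y * (1 + t) := by
      simp only [hα2, cl_of_le htn, hℓ]
      rw [min_eq_left htn, max_eq_right (by linarith)]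
      simp [hgp2]; ring
    have htm : -1 ≤ t := by
      simp only [ht, hT]; linarith [(hx 1).1]
    rcases eq_or_lt_of_le htm with he | hl
    · -- height zero
      have h0 : β2 s = 0 := by rw [← z2, a2, ← he]; ring
      have hs' : s ≤ 0 ∨ 1 ≤ s := by
        by_contra hc
        push Not at hc
        have h3 := kpos s hc.1 hc.2
        simp only [hβ2, cl_of_mem hc.1.le hc.2.le] at h0
        linarith
      rw [a1] at z1
      rcases hs' with h | h
      · simp only [hβ1, cl_of_le h, k10] at z1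
        have : M * (s - 0) ≤ 0 := mul_nonpos_of_nonneg_of_nonpos hM0 (by linarith)
        linarith
      · simp only [hβ1, cl_of_ge h, k11] at z1
        have : 0 ≤ M * (s - 1) := mul_nonneg hM0 (by linarith)
        linarith
    · have hpos : 0 < β2 s := by
        rw [← z2, a2]; exact mul_pos hy (by linarith)
      obtain ⟨h1, h2⟩ := hin hpos
      refine hsee s h1 h2 ?_ ?_
      · rw [a1] at z1
        simp only [hβ1, cl_of_mem h1.le h2.le] at z1
        linarith
      · rw [a2] at z2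
        simp only [hβ2, cl_of_mem h1.le h2.le] at z2
        rw [← z2]
        nlinarith
  · rcases le_or_gt t 1 with ht1 | ht1
    · have a1 : α1 t = g1 (ℓ t) := by
        simp only [hα1, cl_of_mem htp.le ht1]
      have a2 : α2 t = g2 (ℓ t) := by
        simp only [hα2, cl_of_mem htp.le ht1]
        rw [min_eq_right htp.le, max_eq_right (by linarith)]
        ring
      obtain ⟨hl0, hl1⟩ := hℓmem t htp.le ht1
      have hpos : 0 < β2 s := by
        rw [← z2, a2]; exact gpos _ hl0 hl1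
      obtain ⟨h1, h2⟩ := hin hpos
      refine hdisj s (ℓ t) h1 h2 hl0 hl1 ?_ ?_
      · rw [a1] at z1
        simp only [hβ1, cl_of_mem h1.le h2.le] at z1
        linarith
      · rw [a2] at z2
        simp only [hβ2, cl_of_mem h1.le h2.le] at z2
        linarith
    · have a2 : α2 t = g2 τ + (t - 1) := by
        simp only [hα2, cl_of_ge ht1.le, hℓ]
        rw [min_eq_right htp.le, max_eq_left (by linarith)]
        have : p + 1 * (τ - p) = τ := by ring
        rw [this]; ring
      have h4 := hmax _ (cl_mem s).1 (cl_mem s).2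
      rw [a2] at z2
      simp only [hβ2] at z2
      linarith

/-- The twist lemma: an arc from `(0,0)` to `(1,0)` in the upper half plane meets its image under
`(x, y) ↦ (x + τ y, y)` above the axis. -/
theorem twist (κ1 κ2 τ : ℝ → ℝ) (hκ1 : Continuous κ1) (hκ2 : Continuous κ2) (hτ : Continuous τ)
    (hτ0 : τ 0 = 0)
    (k10 : κ1 0 = 0) (k11 : κ1 1 = 1) (k20 : κ2 0 = 0) (k21 : κ2 1 = 0)
    (kpos : ∀ s, 0 < s → s < 1 → 0 < κ2 s) :
    ∃ s u, 0 < s ∧ s < 1 ∧ 0 < u ∧ u < 1 ∧ κ2 u = κ2 s ∧ κ1 u = κ1 s + τ (κ2 s) := by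
  by_contra hcon
  push Not at hcon
  set g1 : ℝ → ℝ := fun s => κ1 s + τ (κ2 s) with hg1
  have hg1c : Continuous g1 := hκ1.add (hτ.comp hκ2)
  -- maximal height
  obtain ⟨m, hm, hmmax⟩ := (isCompact_Icc (a := (0:ℝ)) (b := 1)).exists_isMaxOn
    ⟨0, by simp⟩ hκ2.continuousOn
  have hmpos : 0 < κ2 m := by
    have h1 : κ2 (1 / 2) ≤ κ2 m := hmmax ⟨by norm_num, by norm_num⟩
    have h2 := kpos (1 / 2) (by norm_num) (by norm_num)
    linarith
  have hm0 : 0 < m := by
    rcases eq_or_lt_of_le hm.1 with h | h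
    · rw [← h, k20] at hmpos; exact absurd hmpos (lt_irrefl _)
    · exact h
  have hm1 : m < 1 := by
    rcases eq_or_lt_of_le hm.2 with h | h
    · rw [h, k21] at hmpos; exact absurd hmpos (lt_irrefl _)
    · exact h
  -- the first point over `(1/2, 0)`
  set Z : Set ℝ := {s | s ∈ Icc (0:ℝ) 1 ∧ (κ1 s = 1 / 2 ∨ g1 s = 1 / 2)} with hZ
  have hZc : IsCompact Z := by
    have h1 : IsClosed {s | κ1 s = 1 / 2 ∨ g1 s = 1 / 2} :=
      (isClosed_eq hκ1 continuous_const).union (isClosed_eq hg1c continuous_const)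
    exact isCompact_Icc.inter_right h1
  have hZne : Z.Nonempty := by
    have h1 : (1 / 2 : ℝ) ∈ Icc (κ1 0) (κ1 1) := by rw [k10, k11]; constructor <;> norm_num
    obtain ⟨s, hs, hs'⟩ := intermediate_value_Icc (zero_le_one) hκ1.continuousOn h1
    exact ⟨s, hs, Or.inl hs'⟩
  obtain ⟨p, hp, hpmin⟩ := hZc.exists_isMinOn hZne hκ2.continuousOn
  have hmin : ∀ s, s ∈ Icc (0:ℝ) 1 → (κ1 s = 1 / 2 ∨ g1 s = 1 / 2) → κ2 p ≤ κ2 s :=
    fun s hs h => hpmin ⟨hs, h⟩
  have g10 : g1 0 = 0 := by simp [hg1, k10, k20, hτ0]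
  have g11 : g1 1 = 1 := by simp [hg1, k11, k21, hτ0]
  have hp0 : 0 < p := by
    rcases eq_or_lt_of_le hp.1.1 with h | h
    · exfalso
      have := hp.2
      rw [← h, k10, g10] at this
      norm_num at this
    · exact h
  have hp1 : p < 1 := by
    rcases eq_or_lt_of_le hp.1.2 with h | h
    · exfalso
      have := hp.2
      rw [h, k11, g11] at this
      norm_num at this
    · exact h
  have hmax : ∀ s, 0 ≤ s → s ≤ 1 → κ2 s ≤ κ2 m := fun s h0 h1 => hmmax ⟨h0, h1⟩
  rcases hp.2 with hc | hc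
  · -- first the arc itself
    refine key g1 κ2 κ1 κ2 hg1c hκ2 hκ1 hκ2 g10 g11 k20 k21 kpos kpos p m (κ2 p) hp0 hp1 hm0 hm1
      hmax hc rfl ?_ ?_
    · intro s hs0 hs1 h1 h2
      have h3 := hmin s ⟨hs0.le, hs1.le⟩ (Or.inr h1)
      refine hcon s p hs0 hs1 hp0 hp1 (le_antisymm h3 h2) ?_
      rw [hc, ← h1]
    · intro s u hs0 hs1 hu0 hu1 h1 h2
      exact hcon s u hs0 hs1 hu0 hu1 h2.symm h1.symm
  · refine key κ1 κ2 g1 κ2 hκ1 hκ2 hg1c hκ2 k10 k11 k20 k21 kpos kpos p m (κ2 p) hp0 hp1 hm0 hm1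
      hmax hc rfl ?_ ?_
    · intro s hs0 hs1 h1 h2
      have h3 := hmin s ⟨hs0.le, hs1.le⟩ (Or.inl h1)
      refine hcon p s hp0 hp1 hs0 hs1 (le_antisymm h2 h3) ?_
      rw [h1, ← hc]
    · intro s u hs0 hs1 hu0 hu1 h1 h2
      exact hcon u s hu0 hu1 hs0 hs1 h2 h1

end Pool.Agent.V114.Cross
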