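import Mathlib

open Filter Topology

namespace Pool.Agent.V114.Kern

open Classical in
/-- number of elements of `B` below `N` -/
noncomputable def cnt (B : Set ℕ) (N : ℕ) : ℕ := ((Finset.range N).filter (· ∈ B)).card

/-- the section of `A` in the residue class of `i` modulo `q` -/
def sec (A : Set ℕ) (q i : ℕ) : Set ℕ := {n | q * n + i ∈ A}

/-- the number of different sections of `A` modulo `q` -/
noncomputable def kap (A : Set ℕ) (q : ℕ) : ℕ := Set.ncard {B : Set ℕ | ∃ i < q, sec A q i = B}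

lemma mem_sec {A : Set ℕ} {q i n : ℕ} : n ∈ sec A q i ↔ q * n + i ∈ A := Iff.rfl

lemma sec_sec (A : Set ℕ) (Q i m i' : ℕ) :
    sec (sec A Q i) m i' = sec A (Q * m) (Q * i' + i) := by
  ext n
  simp only [mem_sec]
  have : Q * (m * n + i') + i = Q * m * n + (Q * i' + i) := by ring
  rw [this]

lemma kap_finite (A : Set ℕ) (q : ℕ) : {B : Set ℕ | ∃ i < q, sec A q i = B}.Finite := by
  refine ((Set.finite_Iio q).image (sec A q)).subset ?_
  rintro B ⟨i, hi, rfl⟩
  exact ⟨i, hi, rfl⟩

lemma kap_sec_le (A : Set ℕ) (Q i m : ℕ) (hi : i < Q) :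
    kap (sec A Q i) m ≤ kap A (Q * m) := by
  refine Set.ncard_le_ncard ?_ (kap_finite A (Q * m))
  rintro B ⟨i', hi', rfl⟩
  refine ⟨Q * i' + i, ?_, (sec_sec A Q i m i').symm⟩
  calc Q * i' + i < Q * i' + Q := by omega
    _ = Q * (i' + 1) := by ring
    _ ≤ Q * m := Nat.mul_le_mul_left _ hi'

lemma cnt_le_sum (B : Set ℕ) (m : ℕ) (hm : 0 < m) (N : ℕ) :
    cnt B N ≤ ∑ i ∈ Finset.range m, cnt (sec B m i) (N / m + 1) := by
  classical
  have hsub : (Finset.range N).filter (· ∈ B) ⊆
      (Finset.range m).biUnion (fun i =>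
        ((Finset.range (N / m + 1)).filter (· ∈ sec B m i)).image (fun x => m * x + i)) := by
    intro x hx
    rw [Finset.mem_filter, Finset.mem_range] at hx
    rw [Finset.mem_biUnion]
    refine ⟨x % m, Finset.mem_range.2 (Nat.mod_lt _ hm), ?_⟩
    rw [Finset.mem_image]
    refine ⟨x / m, ?_, Nat.div_add_mod x m⟩
    rw [Finset.mem_filter, Finset.mem_range, mem_sec, Nat.div_add_mod x m]
    exact ⟨Nat.lt_succ_of_le (Nat.div_le_div_right hx.1.le), hx.2⟩
  unfold cnt
  calc _ ≤ _ := Finset.card_le_card hsub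
    _ ≤ _ := Finset.card_biUnion_le
    _ ≤ _ := Finset.sum_le_sum (fun i _ => Finset.card_image_le)

lemma step (B : Set ℕ) (h : ℕ) (hh : h ≠ 0) (T : ℝ) (hT0 : 0 ≤ T) (m : ℕ) (hm : 0 < m)
    (hT : ∀ i < m, ∀ N, (cnt (sec B m i) N : ℝ) ^ h ≤ T * N) (c : ℝ) (hc : 0 < c)
    (hgood : ∃ᶠ N : ℕ in atTop, c * N ≤ (cnt B N : ℝ) ^ h)
    (hK : (kap B m : ℝ) ^ h * (2 ^ (h + 1) * T) < c * m) :
    ∃ i < m, ∃ i' < m, i ≠ i' ∧ sec B m i = sec B m i' ∧
      ∃ c' > 0, ∃ᶠ N : ℕ in atTop, c' * N ≤ (cnt (sec B m i) N : ℝ) ^ h := by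
  classical
  set S : Finset ℕ := (Finset.range m).filter
    (fun i => ∀ i' ∈ Finset.range m, sec B m i = sec B m i' → i = i') with hS
  set S' : Finset ℕ := (Finset.range m).filter
    (fun i => ¬ ∀ i' ∈ Finset.range m, sec B m i = sec B m i' → i = i') with hS'
  have hScard : S.card ≤ kap B m := by
    have h1 : (S.image (sec B m)).card = S.card := by
      refine Finset.card_image_of_injOn ?_
      intro a ha b hb hab
      rw [hS, Finset.coe_filter] at ha hb
      exact ha.2 b hb.1 hab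
    rw [← h1, ← Set.ncard_coe_finset]
    refine Set.ncard_le_ncard ?_ (kap_finite B m)
    intro X hX
    rw [Finset.coe_image] at hX
    obtain ⟨i, hi, rfl⟩ := hX
    rw [hS, Finset.coe_filter] at hi
    exact ⟨i, Finset.mem_range.1 hi.1, rfl⟩
  have hS'card : S'.card ≤ m := by
    calc S'.card ≤ (Finset.range m).card := Finset.card_filter_le _ _
      _ = m := Finset.card_range m
  have hmR : (0 : ℝ) < m := by exact_mod_cast hm
  -- key claim for each large N
  have key : ∀ N : ℕ, m ≤ N → c * N ≤ (cnt B N : ℝ) ^ h →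
      ∃ i ∈ S', c * m / (2 * (2 * m) ^ h) * ((N / m + 1 : ℕ) : ℝ)
        ≤ (cnt (sec B m i) (N / m + 1) : ℝ) ^ h := by
    intro N hN hcN
    by_contra hcon
    push Not at hcon
    set M := N / m + 1 with hM
    have hNR : (0 : ℝ) < N := by exact_mod_cast lt_of_lt_of_le hm hN
    have hM2 : (M : ℝ) * m ≤ 2 * N := by
      have : M * m ≤ 2 * N := by
        rw [hM, Nat.add_mul, one_mul]
        have := Nat.div_mul_le_self N m
        omega
      exact_mod_cast this
    -- S part
    have hspl : (cnt B N : ℝ) ≤ ∑ i ∈ S, (cnt (sec B m i) M : ℝ)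
        + ∑ i ∈ S', (cnt (sec B m i) M : ℝ) := by
      have := cnt_le_sum B m hm N
      rw [← Finset.sum_filter_add_sum_filter_not (Finset.range m)
        (fun i => ∀ i' ∈ Finset.range m, sec B m i = sec B m i' → i = i')] at this
      exact_mod_cast this
    have hposL : 0 < (cnt B N : ℝ) := by
      have h1 : 0 < (cnt B N : ℝ) ^ h := lt_of_lt_of_le (by positivity) hcN
      have h2 : (0 : ℝ) ≤ cnt B N := Nat.cast_nonneg _
      rcases h2.lt_or_eq with h3 | h3
      · exact h3
      · rw [← h3, zero_pow hh] at h1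
        exact absurd h1 (lt_irrefl _)
    have hpart1 : ∑ i ∈ S, (cnt (sec B m i) M : ℝ) < (cnt B N : ℝ) / 2 := by
      by_contra hge
      push Not at hge
      -- there is a maximal term
      have hne : S.Nonempty := by
        rw [Finset.nonempty_iff_ne_empty]
        intro h0
        rw [h0, Finset.sum_empty] at hge
        linarith
      obtain ⟨i0, hi0, hmax⟩ := Finset.exists_max_image S (fun i => cnt (sec B m i) M) hne
      have hsum : ∑ i ∈ S, (cnt (sec B m i) M : ℝ) ≤ (kap B m : ℝ) * (cnt (sec B m i0) M : ℝ) := by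
        calc _ ≤ ∑ i ∈ S, (cnt (sec B m i0) M : ℝ) :=
              Finset.sum_le_sum (fun i hi => by exact_mod_cast hmax i hi)
          _ = (S.card : ℝ) * (cnt (sec B m i0) M : ℝ) := by
              rw [Finset.sum_const, nsmul_eq_mul]
          _ ≤ _ := by
              refine mul_le_mul_of_nonneg_right ?_ (Nat.cast_nonneg _)
              exact_mod_cast hScard
      have h1 : ((cnt B N : ℝ) / 2) ^ h ≤ ((kap B m : ℝ) * (cnt (sec B m i0) M : ℝ)) ^ h :=
        pow_le_pow_left₀ (by positivity) (hge.trans hsum) h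
      have hi0m : i0 < m := by
        rw [hS] at hi0
        exact Finset.mem_range.1 (Finset.mem_filter.1 hi0).1
      have h2 := hT i0 hi0m M
      rw [mul_pow, div_pow] at h1
      have h3 : c * N / 2 ^ h ≤ (kap B m : ℝ) ^ h * (T * M) := by
        calc c * N / 2 ^ h ≤ (cnt B N : ℝ) ^ h / 2 ^ h := by gcongr
          _ ≤ _ := h1
          _ ≤ _ := mul_le_mul_of_nonneg_left h2 (by positivity)
      have h4 : c * N * m ≤ (kap B m : ℝ) ^ h * (2 ^ (h + 1) * T) * N := by
        rw [div_le_iff₀ (by positivity)] at h3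
        calc c * N * m ≤ (kap B m : ℝ) ^ h * (T * M) * 2 ^ h * m :=
              mul_le_mul_of_nonneg_right h3 hmR.le
          _ = (kap B m : ℝ) ^ h * (2 ^ h * T) * (M * m) := by ring
          _ ≤ (kap B m : ℝ) ^ h * (2 ^ h * T) * (2 * N) :=
              mul_le_mul_of_nonneg_left hM2 (by positivity)
          _ = _ := by ring
      have h5 : c * m * N < c * m * N := by
        calc c * m * N = c * N * m := by ring
          _ ≤ _ := h4
          _ < c * m * N := mul_lt_mul_of_pos_right hK hNR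
      exact lt_irrefl _ h5
    have hpart2 : ∑ i ∈ S', (cnt (sec B m i) M : ℝ) ≤ (cnt B N : ℝ) / 2 := by
      have hterm : ∀ i ∈ S', (cnt (sec B m i) M : ℝ) ≤ (cnt B N : ℝ) / (2 * m) := by
        intro i hi
        have h1 := hcon i hi
        have h2 : (cnt (sec B m i) M : ℝ) ^ h ≤ ((cnt B N : ℝ) / (2 * m)) ^ h := by
          rw [div_pow]
          calc (cnt (sec B m i) M : ℝ) ^ h ≤ c * m / (2 * (2 * m) ^ h) * (M : ℝ) := h1.le
            _ = c * (M * m) / (2 * (2 * m) ^ h) := by ring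
            _ ≤ c * (2 * N) / (2 * (2 * m) ^ h) := by gcongr
            _ = c * N / (2 * m) ^ h := by field_simp
            _ ≤ (cnt B N : ℝ) ^ h / (2 * m) ^ h := by gcongr
        exact le_of_pow_le_pow_left₀ hh (by positivity) h2
      calc _ ≤ ∑ i ∈ S', (cnt B N : ℝ) / (2 * m) := Finset.sum_le_sum hterm
        _ = (S'.card : ℝ) * ((cnt B N : ℝ) / (2 * m)) := by
            rw [Finset.sum_const, nsmul_eq_mul]
        _ ≤ (m : ℝ) * ((cnt B N : ℝ) / (2 * m)) := by
            refine mul_le_mul_of_nonneg_right ?_ (by positivity)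
            exact_mod_cast hS'card
        _ = _ := by field_simp
    linarith
  -- pigeonhole over i
  have hfr : ∃ i ∈ S', ∃ᶠ N : ℕ in atTop, c * m / (2 * (2 * m) ^ h) * ((N / m + 1 : ℕ) : ℝ)
        ≤ (cnt (sec B m i) (N / m + 1) : ℝ) ^ h := by
    by_contra hcon
    push Not at hcon
    have h1 : ∀ᶠ N : ℕ in atTop, ∀ i ∈ S', ¬ (c * m / (2 * (2 * m) ^ h) * ((N / m + 1 : ℕ) : ℝ)
        ≤ (cnt (sec B m i) (N / m + 1) : ℝ) ^ h) := by
      rw [Filter.eventually_all_finset]
      intro i hi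
      exact (hcon i hi).mono (fun x hx => not_le.2 hx)
    obtain ⟨N, hN1, hN2, hN3⟩ := (hgood.and_eventually (h1.and (eventually_ge_atTop m))).exists
    obtain ⟨i, hi, hi2⟩ := key N hN3 hN1
    exact hN2 i hi hi2
  obtain ⟨i, hi, hfi⟩ := hfr
  rw [hS', Finset.mem_filter] at hi
  obtain ⟨him, hi2⟩ := hi
  push Not at hi2
  obtain ⟨i', hi'm, hsec, hne⟩ := hi2
  refine ⟨i, Finset.mem_range.1 him, i', Finset.mem_range.1 hi'm, hne, hsec,
    c * m / (2 * (2 * m) ^ h), by positivity, ?_⟩
  have htend : Tendsto (fun N : ℕ => N / m + 1) atTop atTop :=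
    (tendsto_add_atTop_nat 1).comp (Nat.tendsto_div_const_atTop hm.ne')
  exact htend.frequently (p := fun M : ℕ => c * m / (2 * (2 * m) ^ h) * (M : ℝ)
        ≤ (cnt (sec B m i) M : ℝ) ^ h) hfi

/-- cubes in sets with few sections -/
theorem cubes (A : Set ℕ) (h : ℕ) (hh : h ≠ 0) (T : ℝ) (hT0 : 0 ≤ T)
    (hT : ∀ Q i, 0 < Q → ∀ N, (cnt (sec A Q i) N : ℝ) ^ h ≤ T * N)
    (c : ℝ) (hc : 0 < c) (hgood : ∃ᶠ N : ℕ in atTop, c * N ≤ (cnt A N : ℝ) ^ h)
    (q : ℕ → ℕ) (hq : ∀ t, 0 < q t) (hdvd : ∀ t, q t ∣ q (t + 1))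
    (hκ : Tendsto (fun t => (kap A (q t) : ℝ) ^ h / q t) atTop (𝓝 0)) :
    ∀ n : ℕ, ∃ (E : Finset ℕ) (s : ℕ), E.card = 2 ^ n ∧
      ∀ e ∈ E, e ∈ A ∧ ∃ e' ∈ E, e + e' = s := by
  classical
  have hmono : ∀ t t', t ≤ t' → q t ∣ q t' := by
    intro t t' htt
    induction htt with
    | refl => exact dvd_rfl
    | step _ ih => exact ih.trans (hdvd _)
  have main : ∀ n : ℕ, ∃ (Q t0 i : ℕ) (E : Finset ℕ) (s : ℕ) (c' : ℝ), 0 < Q ∧
      (∀ t, t0 ≤ t → Q ∣ q t) ∧ i < Q ∧ 0 < c' ∧
      (∃ᶠ N : ℕ in atTop, c' * N ≤ (cnt (sec A Q i) N : ℝ) ^ h) ∧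
      E.card = 2 ^ n ∧ (∀ e ∈ E, e < Q ∧ ∃ e' ∈ E, e + e' = s) ∧
      (∀ e ∈ E, ∀ b ∈ sec A Q i, Q * b + e ∈ A) := by
    intro n
    induction n with
    | zero =>
      refine ⟨1, 0, 0, {0}, 0, c, one_pos, fun t _ => one_dvd _, one_pos, hc, ?_, by simp,
        by simp, ?_⟩
      · have : sec A 1 0 = A := by ext x; simp [mem_sec]
        rw [this]; exact hgood
      · intro e he b hb
        rw [Finset.mem_singleton] at he
        subst he
        exact hb
    | succ n ih =>
      obtain ⟨Q, t0, i, E, s, c', hQ, hdiv, hiQ, hc', hfr, hcard, hE, hEA⟩ := ih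
      -- choose t
      have hlim : Tendsto (fun t => (kap A (q t) : ℝ) ^ h / q t * (2 ^ (h + 1) * T * Q)) atTop
          (𝓝 (0 * (2 ^ (h + 1) * T * Q))) := hκ.mul_const _
      rw [zero_mul] at hlim
      have hev := (hlim.eventually_lt_const hc').and (eventually_ge_atTop t0)
      obtain ⟨t, ht1, ht2⟩ := hev.exists
      obtain ⟨m, hm⟩ := hdiv t ht2
      have hqt := hq t
      have hm0 : 0 < m := by
        rcases Nat.eq_zero_or_pos m with h0 | h0
        · rw [h0, mul_zero] at hm; omega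
        · exact h0
      have hQR : (0 : ℝ) < Q := by exact_mod_cast hQ
      have hmR : (0 : ℝ) < m := by exact_mod_cast hm0
      have hK : (kap (sec A Q i) m : ℝ) ^ h * (2 ^ (h + 1) * T) < c' * m := by
        have h1 : (kap (sec A Q i) m : ℝ) ≤ kap A (q t) := by
          rw [hm]
          exact_mod_cast kap_sec_le A Q i m hiQ
        have h2 : (q t : ℝ) = Q * m := by rw [hm]; push_cast; ring
        rw [h2] at ht1
        have h3 : (kap A (q t) : ℝ) ^ h / (Q * m) * (2 ^ (h + 1) * T * Q)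
            = (kap A (q t) : ℝ) ^ h * (2 ^ (h + 1) * T) / m := by
          field_simp
        rw [h3, div_lt_iff₀ hmR] at ht1
        calc _ ≤ (kap A (q t) : ℝ) ^ h * (2 ^ (h + 1) * T) := by gcongr
          _ < _ := ht1
      obtain ⟨i1, hi1, i2, hi2, hne, hsec, c'', hc'', hfr'⟩ :=
        step (sec A Q i) h hh T hT0 m hm0
          (fun i' hi' N => by rw [sec_sec]; exact hT _ _ (Nat.mul_pos hQ hm0) N) c' hc' hfr hK
      have hinj : ∀ a b e e' : ℕ, e < Q → e' < Q → e + Q * a = e' + Q * b → a = b ∧ e = e' := by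
        intro a b e e' he he' heq
        have h1 : (e + Q * a) / Q = a := by
          rw [Nat.add_mul_div_left _ _ hQ, Nat.div_eq_of_lt he, zero_add]
        have h2 : (e' + Q * b) / Q = b := by
          rw [Nat.add_mul_div_left _ _ hQ, Nat.div_eq_of_lt he', zero_add]
        have h3 : a = b := by rw [← h1, ← h2, heq]
        refine ⟨h3, ?_⟩
        subst h3; omega
      have hlt : ∀ e a : ℕ, e < Q → a < m → e + Q * a < Q * m := by
        intro e a he ha
        calc e + Q * a < Q + Q * a := by omega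
          _ = Q * (a + 1) := by ring
          _ ≤ Q * m := Nat.mul_le_mul_left _ ha
      refine ⟨Q * m, t, Q * i1 + i, E.image (fun e => e + Q * i1) ∪ E.image (fun e => e + Q * i2),
        s + Q * (i1 + i2), c'', Nat.mul_pos hQ hm0, ?_, ?_, hc'', ?_, ?_, ?_, ?_⟩
      · intro t' ht'
        rw [← hm]
        exact hmono t t' ht'
      · have := hlt i i1 hiQ hi1
        omega
      · rw [← sec_sec]; exact hfr'
      · rw [Finset.card_union_of_disjoint, Finset.card_image_of_injective,
          Finset.card_image_of_injective, hcard]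
        · ring
        · intro a b hab; simpa using hab
        · intro a b hab; simpa using hab
        · rw [Finset.disjoint_left]
          intro x hx hx'
          rw [Finset.mem_image] at hx hx'
          obtain ⟨e, he, rfl⟩ := hx
          obtain ⟨e', he', heq⟩ := hx'
          exact hne (hinj i2 i1 e' e (hE e' he').1 (hE e he).1 heq).1.symm
      · intro x hx
        rw [Finset.mem_union, Finset.mem_image, Finset.mem_image] at hx
        rcases hx with ⟨e, he, rfl⟩ | ⟨e, he, rfl⟩
        · obtain ⟨e', he', hs⟩ := (hE e he).2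
          refine ⟨hlt e i1 (hE e he).1 hi1, e' + Q * i2, ?_, ?_⟩
          · rw [Finset.mem_union, Finset.mem_image, Finset.mem_image]
            exact Or.inr ⟨e', he', rfl⟩
          · rw [← hs]; ring
        · obtain ⟨e', he', hs⟩ := (hE e he).2
          refine ⟨hlt e i2 (hE e he).1 hi2, e' + Q * i1, ?_, ?_⟩
          · rw [Finset.mem_union, Finset.mem_image, Finset.mem_image]
            exact Or.inl ⟨e', he', rfl⟩
          · rw [← hs]; ring
      · intro x hx b hb
        rw [← sec_sec] at hb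
        rw [Finset.mem_union, Finset.mem_image, Finset.mem_image] at hx
        rcases hx with ⟨e, he, rfl⟩ | ⟨e, he, rfl⟩
        · have h1 := hEA e he (m * b + i1) hb
          have h2 : Q * m * b + (e + Q * i1) = Q * (m * b + i1) + e := by ring
          rw [h2]; exact h1
        · rw [hsec] at hb
          have h1 := hEA e he (m * b + i2) hb
          have h2 : Q * m * b + (e + Q * i2) = Q * (m * b + i2) + e := by ring
          rw [h2]; exact h1
  intro n
  obtain ⟨Q, t0, i, E, s, c', hQ, hdiv, hiQ, hc', hfr, hcard, hE, hEA⟩ := main n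
  -- an element b
  have hb : ∃ b, b ∈ sec A Q i := by
    by_contra hcon
    push Not at hcon
    obtain ⟨N, hN1, hN2⟩ := (hfr.and_eventually (eventually_ge_atTop 1)).exists
    have h0 : cnt (sec A Q i) N = 0 := by
      unfold cnt
      rw [Finset.card_eq_zero, Finset.filter_eq_empty_iff]
      intro x _
      exact hcon x
    rw [h0, Nat.cast_zero, zero_pow hh] at hN1
    have : (1 : ℝ) ≤ N := by exact_mod_cast hN2
    nlinarith
  obtain ⟨b, hb⟩ := hb
  refine ⟨E.image (fun e => Q * b + e), 2 * (Q * b) + s, ?_, ?_⟩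
  · rw [Finset.card_image_of_injective _ (fun x y hxy => by simpa using hxy), hcard]
  · intro x hx
    rw [Finset.mem_image] at hx
    obtain ⟨e, he, rfl⟩ := hx
    obtain ⟨e', he', hs⟩ := (hE e he).2
    refine ⟨hEA e he b hb, Q * b + e', Finset.mem_image.2 ⟨e', he', rfl⟩, ?_⟩
    rw [← hs]; ring

end Pool.Agent.V114.Kern
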