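import Mathlib
import Pool.Agent.V114.Kern

open Filter Topology Pool.Agent.V114.Kern

namespace Pool.Agent.V114.KernBlock

/-- the block of `W` of length `k ^ j` at position `q` -/
def sb (k : ℕ) (W : Set ℕ) (j q : ℕ) : Set ℕ := {x | x < k ^ j ∧ k ^ j * q + x ∈ W}

/-- the number of different aligned blocks of length `k ^ j` -/
noncomputable def alp (k : ℕ) (A : Set ℕ) (j : ℕ) : ℕ := Set.ncard {B : Set ℕ | ∃ p, sb k A j p = B}

/-- nested repetitions -/
def Rich (k : ℕ) : ℕ → Set ℕ → Prop
  | 0, W => W.Nonempty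
  | n + 1, W => ∃ i q q', q ≠ q' ∧ sb k W i q = sb k W i q' ∧ Rich k n (sb k W i q)

lemma sb_sb (k : ℕ) (A : Set ℕ) (m j p q : ℕ) (hj : j ≤ m) (hq : q < k ^ (m - j)) :
    sb k (sb k A m p) j q = sb k A j (k ^ (m - j) * p + q) := by
  have hkm : k ^ m = k ^ j * k ^ (m - j) := by rw [← pow_add]; congr 1; omega
  ext x
  simp only [sb, Set.mem_ofPred_eq]
  constructor
  · rintro ⟨h1, h2, h3⟩
    refine ⟨h1, ?_⟩
    have : k ^ j * (k ^ (m - j) * p + q) + x = k ^ m * p + (k ^ j * q + x) := by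
      rw [hkm]; ring
    rw [this]; exact h3
  · rintro ⟨h1, h2⟩
    refine ⟨h1, ?_, ?_⟩
    · rw [hkm]
      calc k ^ j * q + x < k ^ j * q + k ^ j := by omega
        _ = k ^ j * (q + 1) := by ring
        _ ≤ k ^ j * k ^ (m - j) := Nat.mul_le_mul_left _ hq
    · have : k ^ m * p + (k ^ j * q + x) = k ^ j * (k ^ (m - j) * p + q) + x := by
        rw [hkm]; ring
      rw [this]; exact h2

lemma alp_finite (k : ℕ) (A : Set ℕ) (j : ℕ) : {B : Set ℕ | ∃ p, sb k A j p = B}.Finite := by
  refine ((Set.finite_Iio (k ^ j)).finite_subsets).subset ?_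
  rintro B ⟨p, rfl⟩
  intro x hx
  exact hx.1

lemma rich_nonempty (k : ℕ) : ∀ n W, Rich k n W → W.Nonempty := by
  intro n
  induction n with
  | zero => intro W h; exact h
  | succ n ih =>
    rintro W ⟨i, q, q', _, _, hr⟩
    obtain ⟨x, hx⟩ := ih _ hr
    exact ⟨_, hx.2⟩

lemma rich_mono (k : ℕ) (hk : 0 < k) (n : ℕ) (W : Set ℕ) (j q : ℕ)
    (h : Rich k n (sb k W j q)) : Rich k n W := by
  cases n with
  | zero =>
    obtain ⟨x, hx⟩ := h
    exact ⟨_, hx.2⟩
  | succ n =>
    obtain ⟨i, q1, q2, hne, heq, hr⟩ := h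
    obtain ⟨x, hx⟩ := rich_nonempty k n _ hr
    have hx2 : x ∈ sb k (sb k W j q) i q2 := heq ▸ hx
    have h1 : k ^ i * q1 + x < k ^ j := hx.2.1
    have h2 : k ^ i * q2 + x < k ^ j := hx2.2.1
    by_cases hij : i ≤ j
    · have hkj : k ^ j = k ^ i * k ^ (j - i) := by rw [← pow_add]; congr 1; omega
      have hq1 : q1 < k ^ (j - i) := by
        by_contra hcon
        push Not at hcon
        have := Nat.mul_le_mul_left (k ^ i) hcon
        rw [← hkj] at this
        omega
      have hq2 : q2 < k ^ (j - i) := by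
        by_contra hcon
        push Not at hcon
        have := Nat.mul_le_mul_left (k ^ i) hcon
        rw [← hkj] at this
        omega
      rw [sb_sb k W j i q q1 hij hq1, sb_sb k W j i q q2 hij hq2] at heq
      rw [sb_sb k W j i q q1 hij hq1] at hr
      exact ⟨i, _, _, by omega, heq, hr⟩
    · exfalso
      push Not at hij
      have hle : k ^ j ≤ k ^ i := Nat.pow_le_pow_right hk hij.le
      have e1 : q1 = 0 := by
        by_contra h0
        have : k ^ i * 1 ≤ k ^ i * q1 := Nat.mul_le_mul_left _ (Nat.pos_of_ne_zero h0)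
        omega
      have e2 : q2 = 0 := by
        by_contra h0
        have : k ^ i * 1 ≤ k ^ i * q2 := Nat.mul_le_mul_left _ (Nat.pos_of_ne_zero h0)
        omega
      exact hne (e1.trans e2.symm)

lemma rich_cube (k : ℕ) (hk : 0 < k) : ∀ n W, Rich k n W → ∃ (E : Finset ℕ) (s : ℕ),
    E.card = 2 ^ n ∧ ∀ e ∈ E, e ∈ W ∧ ∃ e' ∈ E, e + e' = s := by
  classical
  intro n
  induction n with
  | zero =>
    rintro W ⟨x, hx⟩
    exact ⟨{x}, x + x, by simp, by simpa using hx⟩
  | succ n ih =>
    rintro W ⟨i, q1, q2, hne, heq, hr⟩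
    obtain ⟨E, s, hcard, hE⟩ := ih _ hr
    have hki : 0 < k ^ i := pow_pos hk i
    have hlt : ∀ e ∈ E, e < k ^ i := fun e he => (hE e he).1.1
    refine ⟨E.image (fun e => k ^ i * q1 + e) ∪ E.image (fun e => k ^ i * q2 + e),
      s + k ^ i * (q1 + q2), ?_, ?_⟩
    · rw [Finset.card_union_of_disjoint, Finset.card_image_of_injective,
        Finset.card_image_of_injective, hcard]
      · ring
      · intro a b hab; simpa using hab
      · intro a b hab; simpa using hab
      · rw [Finset.disjoint_left]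
        intro x hx hx'
        rw [Finset.mem_image] at hx hx'
        obtain ⟨e, he, rfl⟩ := hx
        obtain ⟨e', he', heq'⟩ := hx'
        apply hne
        have h1 : (k ^ i * q1 + e) / k ^ i = q1 := by
          rw [Nat.mul_add_div hki, Nat.div_eq_of_lt (hlt e he), add_zero]
        have h2 : (k ^ i * q2 + e') / k ^ i = q2 := by
          rw [Nat.mul_add_div hki, Nat.div_eq_of_lt (hlt e' he'), add_zero]
        rw [← h1, ← h2, heq']
    · intro x hx
      rw [Finset.mem_union, Finset.mem_image, Finset.mem_image] at hx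
      rcases hx with ⟨e, he, rfl⟩ | ⟨e, he, rfl⟩
      · obtain ⟨heW, e', he', hs⟩ := hE e he
        refine ⟨heW.2, k ^ i * q2 + e', ?_, ?_⟩
        · rw [Finset.mem_union, Finset.mem_image, Finset.mem_image]
          exact Or.inr ⟨e', he', rfl⟩
        · rw [← hs]; ring
      · obtain ⟨heW, e', he', hs⟩ := hE e he
        rw [heq] at heW
        refine ⟨heW.2, k ^ i * q1 + e', ?_, ?_⟩
        · rw [Finset.mem_union, Finset.mem_image, Finset.mem_image]
          exact Or.inl ⟨e', he', rfl⟩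
        · rw [← hs]; ring

lemma cnt_blocks (k : ℕ) (hk : 0 < k) (W : Set ℕ) (m j : ℕ) (hj : j ≤ m) :
    cnt W (k ^ m) ≤ ∑ q ∈ Finset.range (k ^ (m - j)), cnt (sb k W j q) (k ^ j) := by
  classical
  have hkm : k ^ m = k ^ j * k ^ (m - j) := by rw [← pow_add]; congr 1; omega
  have hkj : 0 < k ^ j := pow_pos hk j
  have hsub : (Finset.range (k ^ m)).filter (· ∈ W) ⊆
      (Finset.range (k ^ (m - j))).biUnion (fun q =>
        ((Finset.range (k ^ j)).filter (· ∈ sb k W j q)).image (fun x => k ^ j * q + x)) := by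
    intro x hx
    rw [Finset.mem_filter, Finset.mem_range] at hx
    rw [Finset.mem_biUnion]
    refine ⟨x / k ^ j, ?_, ?_⟩
    · rw [Finset.mem_range]
      rw [hkm] at hx
      exact Nat.div_lt_of_lt_mul hx.1
    · rw [Finset.mem_image]
      refine ⟨x % k ^ j, ?_, Nat.div_add_mod x (k ^ j)⟩
      rw [Finset.mem_filter, Finset.mem_range]
      refine ⟨Nat.mod_lt _ hkj, Nat.mod_lt _ hkj, ?_⟩
      rw [Nat.div_add_mod]
      exact hx.2
  unfold cnt
  calc _ ≤ _ := Finset.card_le_card hsub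
    _ ≤ _ := Finset.card_biUnion_le
    _ ≤ _ := Finset.sum_le_sum (fun i _ => Finset.card_image_le)

lemma cnt_le (W : Set ℕ) (N : ℕ) : cnt W N ≤ N := by
  classical
  unfold cnt
  exact (Finset.card_filter_le _ _).trans (by simp)

/-- blocks without nested repetitions are small -/
lemma bound (k : ℕ) (hk : 2 ≤ k) (A : Set ℕ)
    (hα : ∀ ε : ℝ, 0 < ε → ∃ C : ℝ, ∀ j : ℕ, (alp k A j : ℝ) ≤ C * (k : ℝ) ^ (ε * j)) :
    ∀ n : ℕ, ∀ η : ℝ, 0 < η → ∃ C : ℝ, 0 < C ∧ ∀ m p : ℕ, ¬ Rich k n (sb k A m p) →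
      (cnt (sb k A m p) (k ^ m) : ℝ) ≤ C * (k : ℝ) ^ (η * m) := by
  classical
  have hk0 : 0 < k := by omega
  have hkR : (1 : ℝ) < k := by exact_mod_cast (by omega : 1 < k)
  have hkR0 : (0 : ℝ) < k := by linarith
  intro n
  induction n with
  | zero =>
    intro η hη
    refine ⟨1, one_pos, ?_⟩
    intro m p hne
    have h0 : cnt (sb k A m p) (k ^ m) = 0 := by
      unfold cnt
      rw [Finset.card_eq_zero, Finset.filter_eq_empty_iff]
      intro x _ hx
      exact hne ⟨x, hx⟩
    rw [h0]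
    simp only [Nat.cast_zero, one_mul]
    positivity
  | succ n ih =>
    intro η hη
    obtain ⟨C', hC'0, hC'⟩ := ih (η / 4) (by positivity)
    set τ : ℝ := η / 4 with hτ
    have hτ0 : 0 < τ := by positivity
    obtain ⟨Cε, hCε⟩ := hα (η * τ / 2) (by positivity)
    have hCε1 : 0 < max Cε 1 := lt_of_lt_of_le one_pos (le_max_right _ _)
    -- m0
    obtain ⟨m0, hm0⟩ : ∃ m0 : ℕ, 1 / τ ≤ m0 ∧
        ∀ m : ℕ, m0 ≤ m → max Cε 1 * (k : ℝ) ^ η * (k : ℝ) ^ (-(η * τ / 2) * m) ≤ 1 / 2 := by
      have htend : Tendsto (fun m : ℕ => max Cε 1 * (k : ℝ) ^ η * (k : ℝ) ^ (-(η * τ / 2) * m))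
          atTop (𝓝 (max Cε 1 * (k : ℝ) ^ η * 0)) := by
        refine Tendsto.const_mul _ ?_
        have h1 : ∀ m : ℕ, (k : ℝ) ^ (-(η * τ / 2) * m) = ((k : ℝ) ^ (-(η * τ / 2))) ^ m := by
          intro m
          rw [Real.rpow_mul hkR0.le, Real.rpow_natCast]
        simp_rw [h1]
        refine tendsto_pow_atTop_nhds_zero_of_lt_one (by positivity) ?_
        refine Real.rpow_lt_one_of_one_lt_of_neg hkR ?_
        have : 0 < η * τ / 2 := by positivity
        linarith
      rw [mul_zero] at htend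
      have hev := (htend.eventually_le_const (by norm_num : (0 : ℝ) < 1 / 2)).and
        (eventually_ge_atTop (Nat.ceil (1 / τ)))
      obtain ⟨m0, hm0⟩ := eventually_atTop.1 hev
      refine ⟨m0, ?_, fun m hm => (hm0 m hm).1⟩
      exact (Nat.le_ceil _).trans (by exact_mod_cast (hm0 m0 le_rfl).2)
    set C : ℝ := max (2 * C') ((k : ℝ) ^ (m0 : ℕ)) with hC
    have hC0 : 0 < C := lt_of_lt_of_le (by positivity) (le_max_left _ _)
    refine ⟨C, hC0, ?_⟩
    intro m
    induction m using Nat.strong_induction_on with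
    | _ m ihm =>
    intro p hnr
    by_cases hmm : m < m0
    · have h1 : (cnt (sb k A m p) (k ^ m) : ℝ) ≤ (k : ℝ) ^ m := by
        exact_mod_cast cnt_le _ _
      have h2 : (k : ℝ) ^ m ≤ (k : ℝ) ^ m0 := pow_le_pow_right₀ hkR.le hmm.le
      have h3 : (1 : ℝ) ≤ (k : ℝ) ^ (η * m) := Real.one_le_rpow hkR.le (by positivity)
      calc _ ≤ _ := h1
        _ ≤ _ := h2
        _ ≤ C := le_max_right _ _
        _ = C * 1 := (mul_one _).symm
        _ ≤ C * (k : ℝ) ^ (η * m) := by gcongr
    · push Not at hmm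
      have hmR : (m0 : ℝ) ≤ m := by exact_mod_cast hmm
      -- choose j
      set u : ℕ := Nat.floor (τ * m) with hu
      have hu1 : 1 ≤ u := by
        rw [hu, Nat.one_le_floor_iff]
        have h1 : 1 / τ ≤ m := hm0.1.trans hmR
        rw [div_le_iff₀ hτ0] at h1
        linarith
      have huR : (u : ℝ) ≤ τ * m := Nat.floor_le (by positivity)
      have huR' : τ * m < u + 1 := Nat.lt_floor_add_one _
      by_cases hum : u ≤ m
      swap
      · -- then `τ m > m`, the trivial bound suffices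
        push Not at hum
        have h1 : (m : ℝ) ≤ τ * m := by
          have : (m : ℝ) ≤ u := by exact_mod_cast hum.le
          linarith
        have h2 : (m : ℝ) ≤ η * m := by
          have : τ * m ≤ η * m := by
            rw [hτ]
            have : (0 : ℝ) ≤ m := Nat.cast_nonneg _
            nlinarith
          linarith
        have h3 : (cnt (sb k A m p) (k ^ m) : ℝ) ≤ (k : ℝ) ^ m := by
          exact_mod_cast cnt_le _ _
        have h4 : (k : ℝ) ^ m ≤ (k : ℝ) ^ (η * m) := by
          rw [← Real.rpow_natCast]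
          exact Real.rpow_le_rpow_of_exponent_le hkR.le h2
        have h5 : (1 : ℝ) ≤ C := by
          calc (1 : ℝ) ≤ (k : ℝ) ^ m0 := one_le_pow₀ hkR.le
            _ ≤ C := le_max_right _ _
        calc _ ≤ _ := h3
          _ ≤ _ := h4
          _ = 1 * (k : ℝ) ^ (η * m) := (one_mul _).symm
          _ ≤ _ := by gcongr
      set j : ℕ := m - u with hj
      have hjm : j ≤ m := Nat.sub_le _ _
      have hjlt : j < m := by omega
      have hmj : m - j = u := by omega
      have hjR : (j : ℝ) = m - u := by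
        rw [hj, Nat.cast_sub hum]
      set Q := Finset.range (k ^ (m - j)) with hQ
      have hsubl : ∀ q ∈ Q, sb k (sb k A m p) j q = sb k A j (k ^ (m - j) * p + q) := by
        intro q hq
        exact sb_sb k A m j p q hjm (Finset.mem_range.1 hq)
      set QR := Q.filter (fun q => Rich k n (sb k (sb k A m p) j q)) with hQR
      set QN := Q.filter (fun q => ¬ Rich k n (sb k (sb k A m p) j q)) with hQN
      have hQRcard : (QR.card : ℝ) ≤ max Cε 1 * (k : ℝ) ^ (η * τ / 2 * j) := by
        have h1 : (QR.image (fun q => sb k (sb k A m p) j q)).card = QR.card := by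
          refine Finset.card_image_of_injOn ?_
          intro a ha b hb hab
          by_contra hne
          rw [hQR, Finset.coe_filter] at ha
          exact hnr ⟨j, a, b, hne, hab, ha.2⟩
        have h2 : QR.card ≤ alp k A j := by
          rw [← h1, ← Set.ncard_coe_finset]
          refine Set.ncard_le_ncard ?_ (alp_finite k A j)
          intro X hX
          rw [Finset.coe_image] at hX
          obtain ⟨q, hq, rfl⟩ := hX
          rw [hQR, Finset.coe_filter] at hq
          exact ⟨_, (hsubl q hq.1).symm⟩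
        calc (QR.card : ℝ) ≤ alp k A j := by exact_mod_cast h2
          _ ≤ Cε * (k : ℝ) ^ (η * τ / 2 * j) := hCε j
          _ ≤ _ := by gcongr; exact le_max_left _ _
      have hpart1 : ∑ q ∈ QR, (cnt (sb k (sb k A m p) j q) (k ^ j) : ℝ)
          ≤ C / 2 * (k : ℝ) ^ (η * m) := by
        have hterm : ∀ q ∈ QR, (cnt (sb k (sb k A m p) j q) (k ^ j) : ℝ)
            ≤ C * (k : ℝ) ^ (η * j) := by
          intro q hq
          rw [hQR, Finset.mem_filter] at hq
          rw [hsubl q hq.1]
          refine ihm j hjlt _ ?_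
          intro hr
          apply hnr
          refine rich_mono k hk0 (n + 1) (sb k A m p) j q ?_
          rw [hsubl q hq.1]
          exact hr
        calc _ ≤ ∑ q ∈ QR, C * (k : ℝ) ^ (η * j) := Finset.sum_le_sum hterm
          _ = (QR.card : ℝ) * (C * (k : ℝ) ^ (η * j)) := by
              rw [Finset.sum_const, nsmul_eq_mul]
          _ ≤ (max Cε 1 * (k : ℝ) ^ (η * τ / 2 * j)) * (C * (k : ℝ) ^ (η * j)) := by
              gcongr
          _ ≤ (max Cε 1 * (k : ℝ) ^ (η * τ / 2 * m)) * (C * (k : ℝ) ^ (η * m - η * (τ * m) + η)) := by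
              have hjmR : (j : ℝ) ≤ m := by exact_mod_cast hjm
              gcongr
              · exact hkR.le
              · exact hkR.le
              · rw [hjR]
                nlinarith
          _ = C * (k : ℝ) ^ (η * m) *
              (max Cε 1 * (k : ℝ) ^ η * (k : ℝ) ^ (-(η * τ / 2) * m)) := by
              have e1 : (k : ℝ) ^ (η * m - η * (τ * m) + η)
                  = (k : ℝ) ^ (η * m) * (k : ℝ) ^ (-(η * (τ * m))) * (k : ℝ) ^ η := by
                rw [← Real.rpow_add hkR0, ← Real.rpow_add hkR0]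
                congr 1
              have e2 : (k : ℝ) ^ (η * τ / 2 * m) * (k : ℝ) ^ (-(η * (τ * m)))
                  = (k : ℝ) ^ (-(η * τ / 2) * m) := by
                rw [← Real.rpow_add hkR0]
                congr 1; ring
              rw [e1, ← e2]; ring
          _ ≤ C * (k : ℝ) ^ (η * m) * (1 / 2) := by
              refine mul_le_mul_of_nonneg_left (hm0.2 m hmm) (by positivity)
          _ = _ := by ring
      have hpart2 : ∑ q ∈ QN, (cnt (sb k (sb k A m p) j q) (k ^ j) : ℝ)
          ≤ C / 2 * (k : ℝ) ^ (η * m) := by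
        have hterm : ∀ q ∈ QN, (cnt (sb k (sb k A m p) j q) (k ^ j) : ℝ)
            ≤ C' * (k : ℝ) ^ (η / 4 * m) := by
          intro q hq
          rw [hQN, Finset.mem_filter] at hq
          have hjmR : (j : ℝ) ≤ m := by exact_mod_cast hjm
          have h1 : (cnt (sb k (sb k A m p) j q) (k ^ j) : ℝ) ≤ C' * (k : ℝ) ^ (η / 4 * j) := by
            rw [hsubl q hq.1]
            refine hC' j _ ?_
            rw [← hsubl q hq.1]
            exact hq.2
          refine h1.trans ?_
          gcongr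
          exact hkR.le
        have hQNcard : (QN.card : ℝ) ≤ (k : ℝ) ^ (η / 4 * m) := by
          have h1 : QN.card ≤ k ^ u := by
            calc QN.card ≤ Q.card := Finset.card_filter_le _ _
              _ = k ^ u := by rw [hQ, Finset.card_range, hmj]
          calc (QN.card : ℝ) ≤ (k : ℝ) ^ u := by exact_mod_cast h1
            _ = (k : ℝ) ^ (u : ℝ) := (Real.rpow_natCast _ _).symm
            _ ≤ (k : ℝ) ^ (η / 4 * m) := Real.rpow_le_rpow_of_exponent_le hkR.le huR
        calc _ ≤ ∑ q ∈ QN, C' * (k : ℝ) ^ (η / 4 * m) := Finset.sum_le_sum hterm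
          _ = (QN.card : ℝ) * (C' * (k : ℝ) ^ (η / 4 * m)) := by
              rw [Finset.sum_const, nsmul_eq_mul]
          _ ≤ (k : ℝ) ^ (η / 4 * m) * (C' * (k : ℝ) ^ (η / 4 * m)) := by gcongr
          _ = C' * (k : ℝ) ^ (η / 2 * m) := by
              have : (k : ℝ) ^ (η / 2 * m) = (k : ℝ) ^ (η / 4 * m) * (k : ℝ) ^ (η / 4 * m) := by
                rw [← Real.rpow_add hkR0]; congr 1; ring
              rw [this]; ring
          _ ≤ (C / 2) * (k : ℝ) ^ (η * m) := by
              have h1 : C' ≤ C / 2 := by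
                have := le_max_left (2 * C') ((k : ℝ) ^ (m0 : ℕ))
                rw [← hC] at this
                linarith
              have h2 : (k : ℝ) ^ (η / 2 * m) ≤ (k : ℝ) ^ (η * m) := by
                refine Real.rpow_le_rpow_of_exponent_le hkR.le ?_
                have : (0 : ℝ) ≤ m := Nat.cast_nonneg _
                nlinarith
              gcongr
      have hspl : (cnt (sb k A m p) (k ^ m) : ℝ) ≤
          ∑ q ∈ QR, (cnt (sb k (sb k A m p) j q) (k ^ j) : ℝ)
          + ∑ q ∈ QN, (cnt (sb k (sb k A m p) j q) (k ^ j) : ℝ) := by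
        have := cnt_blocks k hk0 (sb k A m p) m j hjm
        rw [← Finset.sum_filter_add_sum_filter_not (Finset.range (k ^ (m - j)))
          (fun q => Rich k n (sb k (sb k A m p) j q))] at this
        exact_mod_cast this
      calc _ ≤ _ := hspl
        _ ≤ C / 2 * (k : ℝ) ^ (η * m) + C / 2 * (k : ℝ) ^ (η * m) := add_le_add hpart1 hpart2
        _ = _ := by ring

/-- cubes in polynomially dense sets with few different aligned blocks -/
theorem cubes (k : ℕ) (hk : 2 ≤ k) (A : Set ℕ)
    (hα : ∀ ε : ℝ, 0 < ε → ∃ C : ℝ, ∀ j : ℕ, (alp k A j : ℝ) ≤ C * (k : ℝ) ^ (ε * j))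
    (δ : ℝ) (hδ : 0 < δ) (hA : ∃ᶠ N : ℕ in atTop, (N : ℝ) ^ δ ≤ cnt A N) :
    ∀ n : ℕ, ∃ (E : Finset ℕ) (s : ℕ), E.card = 2 ^ n ∧
      ∀ e ∈ E, e ∈ A ∧ ∃ e' ∈ E, e + e' = s := by
  classical
  intro n
  have hk0 : 0 < k := by omega
  have hkR : (1 : ℝ) < k := by exact_mod_cast (by omega : 1 < k)
  have hkR0 : (0 : ℝ) < k := by linarith
  obtain ⟨C, hC0, hC⟩ := bound k hk A hα n (δ / 2) (by positivity)
  -- large m
  have htend : Tendsto (fun m : ℕ => C * (k : ℝ) ^ δ * (k : ℝ) ^ (-(δ / 2) * m)) atTop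
      (𝓝 (C * (k : ℝ) ^ δ * 0)) := by
    refine Tendsto.const_mul _ ?_
    have h1 : ∀ m : ℕ, (k : ℝ) ^ (-(δ / 2) * m) = ((k : ℝ) ^ (-(δ / 2))) ^ m := by
      intro m
      rw [Real.rpow_mul hkR0.le, Real.rpow_natCast]
    simp_rw [h1]
    refine tendsto_pow_atTop_nhds_zero_of_lt_one (by positivity) ?_
    exact Real.rpow_lt_one_of_one_lt_of_neg hkR (by linarith)
  rw [mul_zero] at htend
  obtain ⟨m1, hm1⟩ := eventually_atTop.1 (htend.eventually_lt_const one_pos)
  obtain ⟨N, hN1, hN2⟩ := (hA.and_eventually (eventually_ge_atTop (k ^ m1))).exists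
  -- N lies between powers of k
  set m := Nat.log k N + 1 with hm
  have hN0 : N ≠ 0 := by
    have : 0 < k ^ m1 := pow_pos hk0 _
    omega
  have hlow : k ^ (Nat.log k N) ≤ N := Nat.pow_log_le_self k hN0
  have hup : N < k ^ m := Nat.lt_pow_succ_log_self (by omega) N
  have hm1m : m1 ≤ m := by
    have : m1 ≤ Nat.log k N := Nat.le_log_of_pow_le (by omega) hN2
    omega
  by_cases hr : Rich k n (sb k A m 0)
  · obtain ⟨E, s, hcard, hE⟩ := rich_cube k hk0 n _ hr
    refine ⟨E, s, hcard, fun e he => ⟨?_, (hE e he).2⟩⟩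
    have := (hE e he).1.2
    simpa using this
  · exfalso
    have h1 := hC m 0 hr
    have h2 : (cnt A N : ℝ) ≤ cnt (sb k A m 0) (k ^ m) := by
      have : cnt A N ≤ cnt (sb k A m 0) (k ^ m) := by
        unfold cnt
        refine Finset.card_le_card ?_
        intro x hx
        rw [Finset.mem_filter, Finset.mem_range] at hx ⊢
        refine ⟨hx.1.trans hup, hx.1.trans hup, ?_⟩
        simpa using hx.2
      exact_mod_cast this
    have h3 : (k : ℝ) ^ (δ * m - δ) ≤ (N : ℝ) ^ δ := by
      have e1 : (k : ℝ) ^ (δ * m - δ) = ((k : ℝ) ^ (Nat.log k N)) ^ δ := by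
        rw [← Real.rpow_natCast, ← Real.rpow_mul hkR0.le]
        congr 1
        rw [hm]; push_cast; ring
      rw [e1]
      refine Real.rpow_le_rpow (by positivity) ?_ hδ.le
      exact_mod_cast hlow
    have h4 : (k : ℝ) ^ (δ * m - δ) ≤ C * (k : ℝ) ^ (δ / 2 * m) :=
      h3.trans (hN1.trans (h2.trans h1))
    have h5 := hm1 m hm1m
    have e2 : C * (k : ℝ) ^ (δ / 2 * m)
        = (C * (k : ℝ) ^ δ * (k : ℝ) ^ (-(δ / 2) * m)) * (k : ℝ) ^ (δ * m - δ) := by
      have : (k : ℝ) ^ (δ / 2 * m)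
          = (k : ℝ) ^ δ * (k : ℝ) ^ (-(δ / 2) * m) * (k : ℝ) ^ (δ * m - δ) := by
        rw [← Real.rpow_add hkR0, ← Real.rpow_add hkR0]
        congr 1; ring
      rw [this]; ring
    rw [e2] at h4
    have hpos : 0 < (k : ℝ) ^ (δ * m - δ) := by positivity
    have h6 : (C * (k : ℝ) ^ δ * (k : ℝ) ^ (-(δ / 2) * m)) * (k : ℝ) ^ (δ * m - δ)
        < 1 * (k : ℝ) ^ (δ * m - δ) := mul_lt_mul_of_pos_right h5 hpos
    linarith

end Pool.Agent.V114.KernBlock
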